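import Mathlib

/-!
# Definitions for the theorem on 1-motives
-/

set_option linter.unusedSectionVars false

namespace Pool.Agent.W519.M

open Matrix

section schemes

variable {K : Type} [Field K] {N : Type} [Fintype N] [DecidableEq N]

/-- The value of the polynomial `f` in the matrix entries at the matrix `g`. -/
noncomputable def ev {R : Type} [CommRing R] [Algebra K R] (f : MvPolynomial (N × N) K)
    (g : Matrix N N R) : R :=
  MvPolynomial.aeval (fun x : N × N => g x.1 x.2) f

/-- The points, with values in the commutative `K`-algebra `R`, of the closed subscheme of `GL_N`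
given by a set `F` of polynomials in the matrix entries. -/
def points (F : Set (MvPolynomial (N × N) K)) (R : Type) [CommRing R] [Algebra K R] :
    Set (GL N R) :=
  {g | ∀ f ∈ F, ev f (g : Matrix N N R) = 0}

/-- `F` is a system of equations, with coefficients in the field `K`, of a closed subgroup scheme
of `GL_N` over `K`: for all commutative `K`-algebras `R` the invertible matrices over `R` which
satisfy `F` form a subgroup of `GL_N(R)`. -/
structure IsSubgroupScheme (F : Set (MvPolynomial (N × N) K)) : Prop where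
  one_mem : ∀ (R : Type) [CommRing R] [Algebra K R], (1 : GL N R) ∈ points F R
  mul_mem : ∀ (R : Type) [CommRing R] [Algebra K R] (g h : GL N R),
    g ∈ points F R → h ∈ points F R → g * h ∈ points F R
  inv_mem : ∀ (R : Type) [CommRing R] [Algebra K R] (g : GL N R),
    g ∈ points F R → g⁻¹ ∈ points F R

end schemes

/-- Two by two matrices. -/
abbrev M2 (R : Type) : Type := Matrix (Fin 2) (Fin 2) R

variable {I S J Λ W : Type} [Fintype I] [Fintype S] [Fintype J] [Fintype Λ]
  [Fintype W] [DecidableEq I] [DecidableEq S] [DecidableEq J] [DecidableEq Λ] [DecidableEq W]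

/-- The block matrix `((d, q, z), (0, h, u), (0, 0, e))`; the first and the last diagonal block are
scalar, the middle one is block diagonal with the two by two blocks `h s`. -/
def mat {R : Type} [CommRing R] (d : R) (h : S → M2 R) (q : Matrix I (Fin 2 × S) R)
    (u : Matrix (Fin 2 × S) W R) (z : Matrix I W R) (e : R) :
    Matrix (I ⊕ ((Fin 2 × S) ⊕ W)) (I ⊕ ((Fin 2 × S) ⊕ W)) R :=
  fromBlocks (d • 1) (fromCols q z) 0 (fromBlocks (blockDiagonal h) u 0 (e • 1))

/-- The block matrix `((d, q, z, l), (0, h, u, 0), (0, 0, 1, 0), (0, 0, 0, 1))`. -/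
def blk {R : Type} [CommRing R] (d : R) (h : S → M2 R) (q : Matrix I (Fin 2 × S) R)
    (u : Matrix (Fin 2 × S) J R) (z : Matrix I J R) (l : Matrix I Λ R) :
    Matrix (I ⊕ ((Fin 2 × S) ⊕ (J ⊕ Λ))) (I ⊕ ((Fin 2 × S) ⊕ (J ⊕ Λ))) R :=
  mat d h q (fromCols u 0) (fromCols z l) 1

/-- The complex points of the motivic Galois group: all block matrices
`((d, q, z, l), (0, h, u, 0), (0, 0, 1, 0), (0, 0, 0, 1))` with `det (h s) = d ≠ 0`. -/
def motGroup (I S J Λ : Type) [Fintype I] [Fintype S] [Fintype J] [Fintype Λ]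
    [DecidableEq I] [DecidableEq S] [DecidableEq J] [DecidableEq Λ] :
    Set (GL (I ⊕ ((Fin 2 × S) ⊕ (J ⊕ Λ))) ℂ) :=
  {m | ∃ (d : ℂ) (h : S → M2 ℂ) (q : Matrix I (Fin 2 × S) ℂ) (u : Matrix (Fin 2 × S) J ℂ)
    (z : Matrix I J ℂ) (l : Matrix I Λ ℂ), d ≠ 0 ∧ (∀ s, (h s).det = d) ∧
    (m : Matrix _ _ ℂ) = blk d h q u z l}

/-- The quotient `ξ g⁻¹` of the periods of the third kind by those of the first and second kind. -/
noncomputable def rho (g : S → M2 ℂ) (ξ : Matrix I (Fin 2 × S) ℂ) : Matrix I (Fin 2 × S) ℂ :=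
  ξ * blockDiagonal fun s => (g s)⁻¹

/-- The numbers `1`, `p`, the logarithms `lg`, the periods `g`, the abelian logarithms `U` and
`ξ g⁻¹`. -/
noncomputable def fam (p : ℂ) (g : S → M2 ℂ) (ξ : Matrix I (Fin 2 × S) ℂ)
    (U : Matrix (Fin 2 × S) J ℂ) (lg : Matrix I Λ ℂ) :
    Unit ⊕ Unit ⊕ (I × Λ) ⊕ (S × Fin 2 × Fin 2) ⊕ ((Fin 2 × S) × J) ⊕ (I × (Fin 2 × S)) → ℂ :=
  Sum.elim (fun _ => 1) (Sum.elim (fun _ => p) (Sum.elim (fun x => lg x.1 x.2)
    (Sum.elim (fun x => g x.1 x.2.1 x.2.2) (Sum.elim (fun x => U x.1 x.2)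
      (fun x => rho g ξ x.1 x.2)))))

end Pool.Agent.W519.M
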