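import Mathlib
import Pool.Agent.W516.DRDeriv
import Pool.Agent.W519.M.Defs

/-!
# Closed subgroup schemes of `GL_N` given by equations over a field `K`

We need: the Lie algebra (solutions of the linearised equations) is stable under brackets, contains
the logarithmic derivatives `h⁻¹ δ(h)` of points, and exponentials of square-zero elements of the Lie
algebra are points.
-/

set_option linter.unusedSectionVars false

namespace Pool.Agent.W519.M

open MvPolynomial Matrix TrivSqZeroExt

variable {K : Type} [Field K] {N : Type} [Fintype N] [DecidableEq N]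

theorem ev_map {R R' : Type} [CommRing R] [Algebra K R] [CommRing R'] [Algebra K R']
    (φ : R →ₐ[K] R') (f : MvPolynomial (N × N) K) (g : Matrix N N R) :
    ev f (g.map φ) = φ (ev f g) := by
  unfold ev
  have := (MvPolynomial.comp_aeval_apply (f := fun x : N × N => g x.1 x.2) φ f)
  rw [this]
  rfl

/-- Functoriality of points. -/
noncomputable def gmap {R R' : Type} [CommRing R] [Algebra K R] [CommRing R'] [Algebra K R']
    (φ : R →ₐ[K] R') : GL N R →* GL N R' :=
  Matrix.GeneralLinearGroup.map (n := N) (φ : R →+* R')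

theorem gmap_val {R R' : Type} [CommRing R] [Algebra K R] [CommRing R'] [Algebra K R']
    (φ : R →ₐ[K] R') (g : GL N R) :
    ((gmap φ g : GL N R') : Matrix N N R') = (g : Matrix N N R).map φ := rfl

theorem gmap_mem {R R' : Type} [CommRing R] [Algebra K R] [CommRing R'] [Algebra K R']
    (φ : R →ₐ[K] R') {F : Set (MvPolynomial (N × N) K)} {g : GL N R} (hg : g ∈ points F R) :
    gmap φ g ∈ points F R' := by
  intro f hf
  rw [gmap_val, ev_map, hg f hf, map_zero]

section dual

variable {R : Type} [CommRing R] [Algebra K R]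

/-- The linearisation of `f` at the matrix `a`. -/
noncomputable def dAt (f : MvPolynomial (N × N) K) (a X : Matrix N N R) : R :=
  ∑ x : N × N, X x.1 x.2 * ev (pderiv x f) a

theorem dAt_add (f : MvPolynomial (N × N) K) (a X Y : Matrix N N R) :
    dAt f a (X + Y) = dAt f a X + dAt f a Y := by
  unfold dAt
  rw [← Finset.sum_add_distrib]
  refine Finset.sum_congr rfl fun x _ => ?_
  rw [Matrix.add_apply, add_mul]

theorem dAt_smul (f : MvPolynomial (N × N) K) (a X : Matrix N N R) (c : R) :
    dAt f a (c • X) = c * dAt f a X := by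
  unfold dAt
  rw [Finset.mul_sum]
  refine Finset.sum_congr rfl fun x _ => ?_
  rw [Matrix.smul_apply, smul_eq_mul, mul_assoc]

/-- The matrix `a + ε X` over the dual numbers. -/
noncomputable def dm (a X : Matrix N N R) : Matrix N N (DualNumber R) :=
  Matrix.of fun i j => inl (a i j) + inr (X i j)

theorem fst_dm (a X : Matrix N N R) (i j : N) : fst (dm a X i j) = a i j := by
  simp [dm]

theorem snd_dm (a X : Matrix N N R) (i j : N) : snd (dm a X i j) = X i j := by
  simp [dm]

theorem dm_mul (a X b Y : Matrix N N R) : dm a X * dm b Y = dm (a * b) (a * Y + X * b) := by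
  ext i j
  · rw [fst_dm, Matrix.mul_apply, TrivSqZeroExt.fst_sum, Matrix.mul_apply]
    refine Finset.sum_congr rfl fun x _ => ?_
    rw [fst_mul, fst_dm, fst_dm]
  · rw [snd_dm, Matrix.mul_apply, TrivSqZeroExt.snd_sum, Matrix.add_apply, Matrix.mul_apply,
      Matrix.mul_apply, ← Finset.sum_add_distrib]
    refine Finset.sum_congr rfl fun x _ => ?_
    rw [snd_mul, fst_dm, fst_dm, snd_dm, snd_dm, op_smul_eq_smul, smul_eq_mul, smul_eq_mul,
      mul_comm (b x j)]

theorem dm_one : dm (1 : Matrix N N R) 0 = 1 := by
  ext i j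
  · rw [fst_dm]
    by_cases h : i = j
    · subst h; simp
    · simp [Matrix.one_apply_ne h]
  · rw [snd_dm]
    by_cases h : i = j
    · subst h; simp
    · simp [Matrix.one_apply_ne h]

theorem ev_dual (f : MvPolynomial (N × N) K) (a X : Matrix N N R) :
    ev f (dm a X) = inl (ev f a) + inr (dAt f a X) := by
  unfold dAt ev
  induction f using MvPolynomial.induction_on with
  | C c =>
    simp only [MvPolynomial.aeval_C, MvPolynomial.pderiv_C, map_zero, mul_zero,
      Finset.sum_const_zero, inr_zero, add_zero]
    rfl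
  | add p q hp hq =>
    rw [map_add, hp, hq]
    simp only [map_add, mul_add, Finset.sum_add_distrib, inl_add, inr_add]
    ring
  | mul_X p x hp =>
    rw [map_mul, hp, MvPolynomial.aeval_X]
    have h0 : ∀ y : N × N, (aeval fun x => a x.1 x.2) (pderiv y (p * MvPolynomial.X x)) =
        (aeval fun x => a x.1 x.2) p *
        (aeval fun x => a x.1 x.2) (Pi.single (M := fun _ => MvPolynomial (N × N) K) y 1 x) +
        a x.1 x.2 * (aeval fun x => a x.1 x.2) (pderiv y p) := by
      intro y
      rw [Derivation.leibniz, MvPolynomial.pderiv_X, smul_eq_mul, smul_eq_mul, map_add, map_mul,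
        map_mul, MvPolynomial.aeval_X]
    have h1 : ∑ y : N × N, X y.1 y.2 * (aeval fun x => a x.1 x.2) (pderiv y (p * MvPolynomial.X x)) =
        X x.1 x.2 * (aeval fun x => a x.1 x.2) p +
        a x.1 x.2 * ∑ y : N × N, X y.1 y.2 * (aeval fun x => a x.1 x.2) (pderiv y p) := by
      simp only [h0, mul_add, Finset.sum_add_distrib]
      congr 1
      · rw [Finset.sum_eq_single x]
        · rw [Pi.single_eq_same, map_one, mul_one]
        · intro y _ hy
          rw [Pi.single_eq_of_ne (Ne.symm hy), map_zero, mul_zero, mul_zero]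
        · intro h
          exact absurd (Finset.mem_univ _) h
      · rw [Finset.mul_sum]
        refine Finset.sum_congr rfl fun y _ => ?_
        ring
    rw [h1]
    apply TrivSqZeroExt.ext
    · simp [fst_dm]
    · simp only [snd_mul, fst_add, fst_inl, fst_inr, add_zero, snd_add, snd_inl, snd_inr, zero_add,
        smul_eq_mul, op_smul_eq_smul, fst_dm, snd_dm, map_mul, aeval_X]
      ring

/-- The element `1 + ε X`. -/
noncomputable def eps (X : Matrix N N R) : GL N (DualNumber R) where
  val := dm 1 X
  inv := dm 1 (-X)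
  val_inv := by
    rw [dm_mul, one_mul, mul_one, one_mul, neg_add_cancel, dm_one]
  inv_val := by
    rw [dm_mul, one_mul, mul_one, one_mul, add_neg_cancel, dm_one]

theorem eps_val (X : Matrix N N R) : (eps X : Matrix N N (DualNumber R)) = dm 1 X := rfl

/-- The Lie algebra, with coefficients in `R`. -/
def InLie (F : Set (MvPolynomial (N × N) K)) (X : Matrix N N R) : Prop :=
  ∀ f ∈ F, dAt f (1 : Matrix N N R) X = 0

theorem eps_mem_iff {F : Set (MvPolynomial (N × N) K)} (hF : IsSubgroupScheme F)
    (X : Matrix N N R) : eps X ∈ points F (DualNumber R) ↔ InLie F X := by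
  have h1 := hF.one_mem R
  constructor
  · intro h f hf
    have h2 := h f hf
    rw [eps_val, ev_dual] at h2
    have h3 := congrArg TrivSqZeroExt.snd h2
    simpa using h3
  · intro h f hf
    rw [eps_val, ev_dual, h f hf]
    have h2 := h1 f hf
    rw [Units.val_one] at h2
    rw [h2]
    simp

/-- The inclusion of `R` in the dual numbers. -/
noncomputable def inc : R →ₐ[K] DualNumber R :=
  (TrivSqZeroExt.inlAlgHom K R R)

theorem inc_apply (r : R) : (inc (K := K) r : DualNumber R) = inl r := rfl

theorem gmap_inc_val (g : GL N R) :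
    ((gmap (inc (K := K)) g : GL N (DualNumber R)) : Matrix N N (DualNumber R)) =
      dm (g : Matrix N N R) 0 := by
  rw [gmap_val]
  ext i j
  · rw [fst_dm, Matrix.map_apply, inc_apply, fst_inl]
  · rw [snd_dm, Matrix.map_apply, inc_apply, snd_inl, Matrix.zero_apply]

/-- The Lie algebra is stable under conjugation with points. -/
theorem conj_mem {F : Set (MvPolynomial (N × N) K)} (hF : IsSubgroupScheme F) {g : GL N R}
    (hg : g ∈ points F R) {X : Matrix N N R} (hX : InLie F X) :
    InLie F ((g : Matrix N N R) * X * ((g⁻¹ : GL N R) : Matrix N N R)) := by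
  rw [← eps_mem_iff hF] at hX ⊢
  have h1 := hF.mul_mem _ _ _ (hF.mul_mem _ _ _ (gmap_mem (inc (K := K)) hg) hX)
    (hF.inv_mem _ _ (gmap_mem (inc (K := K)) hg))
  convert h1 using 1
  apply Units.ext
  rw [Units.val_mul, Units.val_mul, ← map_inv, gmap_inc_val, gmap_inc_val, eps_val, eps_val,
    dm_mul, dm_mul, mul_one, zero_mul, add_zero, mul_zero, zero_add, ← Units.val_mul,
    mul_inv_cancel, Units.val_one]

theorem inLie_add {F : Set (MvPolynomial (N × N) K)} {X Y : Matrix N N R} (hX : InLie F X)
    (hY : InLie F Y) : InLie F (X + Y) := by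
  intro f hf
  rw [dAt_add, hX f hf, hY f hf, add_zero]

theorem inLie_smul {F : Set (MvPolynomial (N × N) K)} {X : Matrix N N R} (c : R)
    (hX : InLie F X) : InLie F (c • X) := by
  intro f hf
  rw [dAt_smul, hX f hf, mul_zero]

theorem dAt_map {R' : Type} [CommRing R'] [Algebra K R'] (φ : R →ₐ[K] R')
    (f : MvPolynomial (N × N) K) (X : Matrix N N R) :
    dAt f (1 : Matrix N N R') (X.map φ) = φ (dAt f 1 X) := by
  unfold dAt
  rw [map_sum]
  refine Finset.sum_congr rfl fun x _ => ?_
  rw [map_mul, ← ev_map, Matrix.map_apply, Matrix.map_one _ (map_zero φ) (map_one φ)]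

theorem inLie_map {R' : Type} [CommRing R'] [Algebra K R'] (φ : R →ₐ[K] R')
    {F : Set (MvPolynomial (N × N) K)} {X : Matrix N N R} (hX : InLie F X) :
    InLie F (X.map φ) := by
  intro f hf
  rw [dAt_map, hX f hf, map_zero]

/-- The Lie algebra is stable under brackets. -/
theorem bracket_mem {F : Set (MvPolynomial (N × N) K)} (hF : IsSubgroupScheme F)
    {X Y : Matrix N N R} (hX : InLie F X) (hY : InLie F Y) : InLie F (X * Y - Y * X) := by
  have h1 := conj_mem hF ((eps_mem_iff hF X).2 hX) (inLie_map (inc (K := K)) hY)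
  intro f hf
  have h2 := h1 f hf
  have h3 : ((eps X : GL N (DualNumber R)) : Matrix N N (DualNumber R)) * Y.map (inc (K := K)) *
      (((eps X)⁻¹ : GL N (DualNumber R)) : Matrix N N (DualNumber R)) = dm Y (X * Y - Y * X) := by
    have e1 : Y.map (inc (K := K)) = dm Y 0 := by
      ext i j
      · rw [fst_dm, Matrix.map_apply, inc_apply, fst_inl]
      · rw [snd_dm, Matrix.map_apply, inc_apply, snd_inl, Matrix.zero_apply]
    have e2 : (((eps X)⁻¹ : GL N (DualNumber R)) : Matrix N N (DualNumber R)) = dm 1 (-X) := rfl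
    rw [e1, e2, eps_val, dm_mul, dm_mul]
    congr 1
    · rw [one_mul, mul_one]
    · rw [one_mul, mul_zero, zero_add, mul_one, Matrix.mul_neg]
      abel
  rw [h3] at h2
  have h4 : dAt f (1 : Matrix N N (DualNumber R)) (dm Y (X * Y - Y * X)) =
      inl (dAt f 1 Y) + inr (dAt f 1 (X * Y - Y * X)) := by
    unfold dAt
    have h5 : ∀ x : N × N, ev (pderiv x f) (1 : Matrix N N (DualNumber R)) =
        inl (ev (pderiv x f) (1 : Matrix N N R)) := by
      intro x
      rw [← inc_apply (K := K), ← ev_map, Matrix.map_one _ (map_zero _) (map_one _)]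
    simp only [h5]
    apply TrivSqZeroExt.ext
    · rw [TrivSqZeroExt.fst_sum, fst_add, fst_inl, fst_inr, add_zero]
      refine Finset.sum_congr rfl fun x _ => ?_
      rw [fst_mul, fst_dm, fst_inl]
    · rw [TrivSqZeroExt.snd_sum, snd_add, snd_inl, snd_inr, zero_add]
      refine Finset.sum_congr rfl fun x _ => ?_
      rw [snd_mul, fst_inl, snd_inl, smul_zero, zero_add, snd_dm, op_smul_eq_smul, smul_eq_mul,
        mul_comm]
  rw [h4] at h2
  have h6 := congrArg TrivSqZeroExt.snd h2
  simpa using h6

end dual

section der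

variable {L : Type} [Field L] [Algebra K L]

/-- The homomorphism `c ↦ c + ε δ(c)`. -/
noncomputable def derHom (D : Derivation K L L) : L →ₐ[K] DualNumber L where
  toFun c := inl c + inr (D c)
  map_one' := by simp
  map_mul' a b := by
    apply TrivSqZeroExt.ext
    · simp
    · simp only [Derivation.leibniz, snd_add, snd_inl, snd_inr, zero_add, snd_mul, fst_add, fst_inl,
        fst_inr, add_zero, smul_eq_mul, op_smul_eq_smul]
  map_zero' := by simp
  map_add' a b := by
    apply TrivSqZeroExt.ext <;> simp
  commutes' r := by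
    rw [Derivation.map_algebraMap, inr_zero, add_zero]
    rfl

/-- Logarithmic derivatives of points are in the Lie algebra. -/
theorem logDer_mem {F : Set (MvPolynomial (N × N) K)} (hF : IsSubgroupScheme F) {h : GL N L}
    (hh : h ∈ points F L) (D : Derivation K L L) :
    InLie F (((h⁻¹ : GL N L) : Matrix N N L) * (h : Matrix N N L).map D) := by
  rw [← eps_mem_iff hF]
  have h1 := hF.mul_mem _ _ _ (gmap_mem (inc (K := K)) (hF.inv_mem _ _ hh))
    (gmap_mem (derHom D) hh)
  convert h1 using 1
  apply Units.ext
  rw [Units.val_mul, gmap_inc_val, gmap_val, eps_val]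
  have e1 : (h : Matrix N N L).map (derHom D) = dm (h : Matrix N N L) ((h : Matrix N N L).map D) := by
    ext i j
    · rw [fst_dm, Matrix.map_apply]
      simp [derHom]
    · rw [snd_dm, Matrix.map_apply, Matrix.map_apply]
      simp [derHom]
  rw [e1, dm_mul, zero_mul, add_zero, ← Units.val_mul, inv_mul_cancel, Units.val_one]

/-- Components of elements of the Lie algebra are in the Lie algebra. -/
theorem comp_mem {F : Set (MvPolynomial (N × N) K)} {X : Matrix N N L} (hX : InLie F X)
    (μ : L →ₗ[K] K) : InLie F (X.map μ) := by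
  intro f hf
  have h1 := hX f hf
  unfold dAt at h1 ⊢
  have h2 := congrArg μ h1
  rw [map_sum, map_zero] at h2
  rw [← h2]
  refine Finset.sum_congr rfl fun x _ => ?_
  have h3 : ev (pderiv x f) (1 : Matrix N N L) =
      algebraMap K L (ev (pderiv x f) (1 : Matrix N N K)) := by
    have := ev_map (Algebra.ofId K L) (pderiv x f) (1 : Matrix N N K)
    rw [Matrix.map_one _ (map_zero _) (map_one _)] at this
    rw [this]
    rfl
  rw [h3, Matrix.map_apply, mul_comm (X x.1 x.2), ← Algebra.smul_def, map_smul, smul_eq_mul,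
    mul_comm]

end der

end Pool.Agent.W519.M
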