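import Mathlib
import Pool.Agent.W519.M.Scheme

/-!
# Exponentials of square-zero elements of the Lie algebra
-/

set_option linter.unusedSectionVars false

namespace Pool.Agent.W519.M

open Matrix TrivSqZeroExt

variable {K : Type} [Field K] {N : Type} [Fintype N] [DecidableEq N]

/-- The element `1 + X` with `X ^ 2 = 0`. -/
def unip {R : Type} [CommRing R] (X : Matrix N N R) (hX : X * X = 0) : GL N R where
  val := 1 + X
  inv := 1 - X
  val_inv := by
    have h : (1 + X) * (1 - X) = 1 - X * X := by noncomm_ring
    rw [h, hX, sub_zero]
  inv_val := by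
    have h : (1 - X) * (1 + X) = 1 - X * X := by noncomm_ring
    rw [h, hX, sub_zero]

theorem unip_val {R : Type} [CommRing R] (X : Matrix N N R) (hX : X * X = 0) :
    (unip X hX : Matrix N N R) = 1 + X := rfl

variable {L : Type} [Field L] [Algebra K L]

theorem X_pow_succ_dvd [CharZero L] {φ : Polynomial L} {m : ℕ} (h0 : φ.coeff 0 = 0)
    (h : (Polynomial.X : Polynomial L) ^ m ∣ Polynomial.derivative φ) :
    (Polynomial.X : Polynomial L) ^ (m + 1) ∣ φ := by
  rw [Polynomial.X_pow_dvd_iff] at h ⊢
  intro d hd
  rcases d with _ | d
  · exact h0
  · have h1 := h d (by omega)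
    rw [Polynomial.coeff_derivative] at h1
    have h2 : ((d : L) + 1) ≠ 0 := by exact_mod_cast Nat.succ_ne_zero d
    exact (mul_eq_zero.1 h1).resolve_right h2

section

variable (K) (m : ℕ)

/-- Truncated polynomials. -/
abbrev Tr (L : Type) [Field L] (m : ℕ) : Type :=
  Polynomial L ⧸ Ideal.span {(Polynomial.X : Polynomial L) ^ m}

/-- The homomorphism `s ↦ s + ε`. -/
noncomputable def shift : Polynomial L →ₐ[K] DualNumber (Tr L m) where
  toFun p := inl (Ideal.Quotient.mk _ p) + inr (Ideal.Quotient.mk _ (Polynomial.derivative p))
  map_one' := by
    apply TrivSqZeroExt.ext <;> simp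
  map_mul' a b := by
    apply TrivSqZeroExt.ext
    · simp
    · simp only [Polynomial.derivative_mul, map_add, map_mul, snd_add, snd_inl, snd_inr, zero_add,
        snd_mul, fst_add, fst_inl, fst_inr, add_zero, smul_eq_mul, op_smul_eq_smul]
      ring
  map_zero' := by
    apply TrivSqZeroExt.ext <;> simp
  map_add' a b := by
    apply TrivSqZeroExt.ext <;> simp
  commutes' r := by
    have h1 : algebraMap K (Polynomial L) r = Polynomial.C (algebraMap K L r) := rfl
    rw [h1, Polynomial.derivative_C, map_zero, inr_zero, add_zero]
    rfl

end

theorem map_mul_alg {R R' : Type} [CommRing R] [Algebra K R] [CommRing R'] [Algebra K R']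
    (φ : R →ₐ[K] R') (A B : Matrix N N R) : (A * B).map φ = A.map φ * B.map φ := by
  ext i j
  simp only [Matrix.mul_apply, Matrix.map_apply, map_mul, map_sum]

/-- Square-zero elements of the Lie algebra can be exponentiated. -/
theorem unip_mem [CharZero L] {F : Set (MvPolynomial (N × N) K)} (hF : IsSubgroupScheme F)
    {X : Matrix N N L} (hX : X * X = 0) (hL : InLie F X) : unip X hX ∈ points F L := by
  -- the generic element
  let XP : Matrix N N (Polynomial L) := (Polynomial.X : Polynomial L) • X.map Polynomial.C
  have hXX : X.map (Polynomial.C : L → Polynomial L) * X.map (Polynomial.C : L → Polynomial L) = 0 := by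
    rw [← Matrix.map_mul (f := (Polynomial.C : L →+* Polynomial L)), hX]
    ext i j
    simp
  have hXP : XP * XP = 0 := by
    change ((Polynomial.X : Polynomial L) • X.map Polynomial.C) *
      ((Polynomial.X : Polynomial L) • X.map Polynomial.C) = 0
    rw [Matrix.smul_mul, Matrix.mul_smul, hXX, smul_zero, smul_zero]
  have hcore : (1 + XP) * X.map (Polynomial.C : L → Polynomial L) = X.map Polynomial.C := by
    change (1 + (Polynomial.X : Polynomial L) • X.map Polynomial.C) * X.map Polynomial.C = _
    rw [add_mul, one_mul, Matrix.smul_mul, hXX, smul_zero, add_zero]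
  have key : ∀ m : ℕ, ∀ f ∈ F, (Polynomial.X : Polynomial L) ^ m ∣ ev f (1 + XP) := by
    intro m
    induction m with
    | zero =>
      intro f _
      rw [pow_zero]
      exact one_dvd _
    | succ m ih =>
      intro f hf
      refine X_pow_succ_dvd ?_ ?_
      · have h1 : (Polynomial.aeval (0 : L)).restrictScalars K (ev f (1 + XP)) = 0 := by
          rw [← ev_map]
          have h2 : (1 + XP).map ((Polynomial.aeval (0 : L)).restrictScalars K :
              Polynomial L →ₐ[K] L) = 1 := by
            ext i j
            by_cases hij : i = j
            · subst hij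
              simp [XP]
            · simp [XP, Matrix.one_apply_ne hij]
          rw [h2]
          have := hF.one_mem L f hf
          rwa [Units.val_one] at this
        rw [AlgHom.restrictScalars_apply, Polynomial.aeval_def, Polynomial.eval₂_at_zero] at h1
        simpa using h1
      · let q : Polynomial L →ₐ[K] Tr L m := (Ideal.Quotient.mkₐ K _)
        have hq : ∀ p, q p = Ideal.Quotient.mk _ p := fun p => rfl
        let cL : L →ₐ[K] Tr L m := q.comp ((Polynomial.CAlgHom (R := L) (A := L)).restrictScalars K)
        have hcL : ∀ c, cL c = Ideal.Quotient.mk _ (Polynomial.C c) := fun c => rfl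
        have h1 : gmap q (unip XP hXP) ∈ points F (Tr L m) := by
          intro f' hf'
          rw [gmap_val, unip_val, ev_map, hq, Ideal.Quotient.eq_zero_iff_mem,
            Ideal.mem_span_singleton]
          exact ih f' hf'
        have h2 : eps (X.map cL) ∈ points F (DualNumber (Tr L m)) :=
          (eps_mem_iff hF _).2 (inLie_map cL hL)
        have h3 := hF.mul_mem _ _ _ (gmap_mem (inc (K := K) (R := Tr L m)) h1) h2
        have h4 : ((gmap (K := K) (R := Tr L m) (R' := DualNumber (Tr L m)) inc
            (gmap q (unip XP hXP)) * eps (X.map cL) :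
            GL N (DualNumber (Tr L m))) : Matrix N N (DualNumber (Tr L m))) =
            (1 + XP).map (shift K m) := by
          rw [Units.val_mul, gmap_inc_val, gmap_val, unip_val, eps_val, dm_mul, zero_mul, add_zero,
            mul_one]
          have h5 : (1 + XP).map q * X.map cL = X.map cL := by
            have h6 : ((1 + XP) * X.map (Polynomial.C : L → Polynomial L)).map q =
              (X.map (Polynomial.C : L → Polynomial L)).map q := by rw [hcore]
            rw [map_mul_alg] at h6
            exact h6
          rw [h5]
          ext i j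
          · rw [fst_dm, Matrix.map_apply, Matrix.map_apply, hq]
            simp [shift]
          · rw [snd_dm, Matrix.map_apply, Matrix.map_apply, hcL]
            by_cases hij : i = j
            · subst hij
              simp [shift, XP, Polynomial.derivative_mul]
            · simp [shift, XP, Polynomial.derivative_mul, Matrix.one_apply_ne hij]
        have h8 := h3 f hf
        rw [h4, ev_map] at h8
        have h9 := congrArg TrivSqZeroExt.snd h8
        have h10 : (Ideal.Quotient.mk _ (Polynomial.derivative (ev f (1 + XP))) : Tr L m) = 0 := by
          simpa [shift] using h9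
        rwa [Ideal.Quotient.eq_zero_iff_mem, Ideal.mem_span_singleton] at h10
  intro f hf
  have h1 : ev f (1 + XP) = 0 := by
    by_contra hne
    have h2 := key ((ev f (1 + XP)).natDegree + 1) f hf
    have h3 := Polynomial.natDegree_le_of_dvd h2 hne
    rw [Polynomial.natDegree_X_pow] at h3
    omega
  have h2 : (Polynomial.aeval (1 : L)).restrictScalars K (ev f (1 + XP)) = ev f (1 + X) := by
    rw [← ev_map]
    congr 1
    ext i j
    by_cases hij : i = j
    · subst hij
      simp [XP]
    · simp [XP, Matrix.one_apply_ne hij]
  rw [unip_val, ← h2, h1, map_zero]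

end Pool.Agent.W519.M
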