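import Mathlib
import Pool.Agent.W519.M.Defs

/-!
# Two by two matrices: Lie algebras of rank two
-/

set_option linter.unusedSectionVars false

namespace Pool.Agent.W519.M

open Matrix

variable {K : Type} [Field K]

/-- The kernel of a nonzero matrix with a nonzero vector in it is a line. -/
theorem ker_line {B : M2 K} (hB : B ≠ 0) {v w : Fin 2 → K} (hv : v ≠ 0)
    (h1 : B.mulVec v = 0) (h2 : B.mulVec w = 0) : ∃ c : K, w = c • v := by
  have a0 := congrFun h1 0
  have a1 := congrFun h1 1
  have b0 := congrFun h2 0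
  have b1 := congrFun h2 1
  simp only [Matrix.mulVec, dotProduct, Fin.sum_univ_two, Pi.zero_apply] at a0 a1 b0 b1
  -- the determinant of (v, w) vanishes
  have hdet : v 0 * w 1 - v 1 * w 0 = 0 := by
    by_contra hne
    apply hB
    ext i j
    fin_cases i <;> fin_cases j
    · refine (mul_eq_zero.1 (?_ : (v 0 * w 1 - v 1 * w 0) * B 0 0 = 0)).resolve_left hne
      linear_combination w 1 * a0 - v 1 * b0
    · refine (mul_eq_zero.1 (?_ : (v 0 * w 1 - v 1 * w 0) * B 0 1 = 0)).resolve_left hne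
      linear_combination v 0 * b0 - w 0 * a0
    · refine (mul_eq_zero.1 (?_ : (v 0 * w 1 - v 1 * w 0) * B 1 0 = 0)).resolve_left hne
      linear_combination w 1 * a1 - v 1 * b1
    · refine (mul_eq_zero.1 (?_ : (v 0 * w 1 - v 1 * w 0) * B 1 1 = 0)).resolve_left hne
      linear_combination v 0 * b1 - w 0 * a1
  by_cases h0 : v 0 = 0
  · have h01 : v 1 ≠ 0 := by
      intro h
      apply hv
      ext i
      fin_cases i
      · exact h0
      · exact h
    refine ⟨w 1 / v 1, ?_⟩
    ext i
    fin_cases i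
    · simp only [Fin.zero_eta, Pi.smul_apply, smul_eq_mul, h0, mul_zero]
      rw [h0, zero_mul, zero_sub, neg_eq_zero, mul_eq_zero] at hdet
      exact hdet.resolve_left h01
    · simp only [Fin.mk_one, Pi.smul_apply, smul_eq_mul]
      field_simp
  · refine ⟨w 0 / v 0, ?_⟩
    ext i
    fin_cases i
    · simp only [Fin.zero_eta, Pi.smul_apply, smul_eq_mul]
      field_simp
    · simp only [Fin.mk_one, Pi.smul_apply, smul_eq_mul]
      field_simp
      linear_combination hdet

theorem exists_ker {B : M2 K} (hB : B.det = 0) : ∃ v : Fin 2 → K, v ≠ 0 ∧ B.mulVec v = 0 := by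
  exact (Matrix.exists_mulVec_eq_zero_iff).2 hB

/-- Eigenvectors over algebraically closed fields. -/
theorem exists_eig [IsAlgClosed K] (B : M2 K) : ∃ (c : K) (v : Fin 2 → K), v ≠ 0 ∧
    B.mulVec v = c • v := by
  obtain ⟨c, hc⟩ := IsAlgClosed.exists_root (Polynomial.X ^ 2 - Polynomial.C (B.trace) *
    Polynomial.X + Polynomial.C B.det) (by
      have : (Polynomial.X ^ 2 - Polynomial.C (B.trace) * Polynomial.X +
          Polynomial.C B.det : Polynomial K).degree = 2 := by
        compute_degree!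
      rw [this]
      exact two_ne_zero)
  have h1 : (B - c • (1 : M2 K)).det = 0 := by
    simp only [Polynomial.IsRoot.def, Polynomial.eval_add, Polynomial.eval_sub,
      Polynomial.eval_pow, Polynomial.eval_X, Polynomial.eval_mul, Polynomial.eval_C] at hc
    rw [Matrix.det_fin_two] at hc ⊢
    rw [Matrix.trace_fin_two] at hc
    simp
    linear_combination hc
  obtain ⟨v, hv, h2⟩ := exists_ker h1
  refine ⟨c, v, hv, ?_⟩
  rw [Matrix.sub_mulVec, Matrix.smul_mulVec, Matrix.one_mulVec, sub_eq_zero] at h2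
  exact h2

/-- The standard basis. -/
def eH : M2 K := !![1, 0; 0, -1]
def eE : M2 K := !![0, 1; 0, 0]
def eF : M2 K := !![0, 0; 1, 0]

theorem E00 : (eE : M2 K) 0 0 = 0 := rfl
theorem E01 : (eE : M2 K) 0 1 = 1 := rfl
theorem E10 : (eE : M2 K) 1 0 = 0 := rfl
theorem E11 : (eE : M2 K) 1 1 = 0 := rfl

theorem decomp {A : M2 K} (hA : A.trace = 0) :
    A = A 0 0 • eH + A 0 1 • eE + A 1 0 • eF := by
  rw [Matrix.trace_fin_two] at hA
  ext i j
  fin_cases i <;> fin_cases j <;> simp [eH, eE, eF]
  linear_combination hA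

theorem comm_HE : (eH * eE - eE * eH : M2 K) = (2 : K) • eE := by
  ext i j
  fin_cases i <;> fin_cases j <;> simp [eH, eE, Matrix.mul_apply, Fin.sum_univ_two]
  norm_num

theorem comm_HF : (eH * eF - eF * eH : M2 K) = (-2 : K) • eF := by
  ext i j
  fin_cases i <;> fin_cases j <;> simp [eH, eF, Matrix.mul_apply, Fin.sum_univ_two]
  norm_num

theorem comm_EF : (eE * eF - eF * eE : M2 K) = eH := by
  ext i j
  fin_cases i <;> fin_cases j <;> simp [eH, eF, eE, Matrix.mul_apply, Fin.sum_univ_two]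

theorem trH : (eH : M2 K).trace = 0 := by
  rw [Matrix.trace_fin_two]; simp [eH]

theorem trE : (eE : M2 K).trace = 0 := by
  rw [Matrix.trace_fin_two]; simp [eE]

theorem trF : (eF : M2 K).trace = 0 := by
  rw [Matrix.trace_fin_two]; simp [eF]

theorem tr_comm (A B : M2 K) : (A * B - B * A).trace = 0 := by
  rw [Matrix.trace_sub, Matrix.trace_mul_comm, sub_self]

theorem eE_ne : (eE : M2 K) ≠ 0 := by
  intro h
  have := congrFun (congrFun h 0) 1
  simp [eE] at this

/-- The linear form given by the trace with a matrix. -/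
theorem exists_trace_form (φ : M2 K →ₗ[K] K) : ∃ Z : M2 K, ∀ X, φ X = (Z * X).trace := by
  refine ⟨Matrix.of fun i j => φ (Matrix.single j i 1), fun X => ?_⟩
  conv_lhs => rw [Matrix.matrix_eq_sum_single X]
  rw [Matrix.trace_fin_two, Matrix.mul_apply, Matrix.mul_apply]
  simp only [map_add, Fin.sum_univ_two, Matrix.of_apply]
  have h : ∀ i j, φ (Matrix.single i j (X i j)) = φ (Matrix.single i j 1) * X i j := by
    intro i j
    have : (Matrix.single i j (X i j) : M2 K) = X i j • Matrix.single i j 1 := by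
      rw [Matrix.smul_single, smul_eq_mul, mul_one]
    rw [this, map_smul, smul_eq_mul, mul_comm]
  rw [h, h, h, h]
  ring

/-- A Lie algebra of two by two matrices without common eigenvector contains all matrices of
trace zero. -/
theorem sl2_le [IsAlgClosed K] [CharZero K] (𝔞 : Submodule K (M2 K))
    (hbr : ∀ A ∈ 𝔞, ∀ B ∈ 𝔞, A * B - B * A ∈ 𝔞)
    (hirr : ∀ v : Fin 2 → K, v ≠ 0 → ∃ A ∈ 𝔞, ¬ ∃ c : K, A.mulVec v = c • v)
    {A : M2 K} (hA : A.trace = 0) : A ∈ 𝔞 := by
  by_cases htop : 𝔞 ⊔ Submodule.span K {(1 : M2 K)} = ⊤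
  · have hdec : ∀ B : M2 K, ∃ b ∈ 𝔞, ∃ c : K, B = b + c • 1 := by
      intro B
      have hB : B ∈ 𝔞 ⊔ Submodule.span K {(1 : M2 K)} := by rw [htop]; trivial
      obtain ⟨b, hb, y, hy, h⟩ := Submodule.mem_sup.1 hB
      obtain ⟨c, rfl⟩ := Submodule.mem_span_singleton.1 hy
      exact ⟨b, hb, c, h.symm⟩
    have hcomm : ∀ B C : M2 K, B * C - C * B ∈ 𝔞 := by
      intro B C
      obtain ⟨b, hb, x, rfl⟩ := hdec B
      obtain ⟨c, hc, y, rfl⟩ := hdec C
      have : (b + x • (1 : M2 K)) * (c + y • 1) - (c + y • 1) * (b + x • 1) = b * c - c * b := by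
        simp only [mul_add, add_mul, Matrix.mul_smul, Matrix.smul_mul, mul_one, one_mul]
        rw [smul_comm y x]
        abel
      rw [this]
      exact hbr b hb c hc
    have h2 : (2 : K) ≠ 0 := two_ne_zero
    have hH : (eH : M2 K) ∈ 𝔞 := by rw [← comm_EF]; exact hcomm _ _
    have hE : (eE : M2 K) ∈ 𝔞 := by
      have := 𝔞.smul_mem ((2 : K)⁻¹) (hcomm eH eE)
      rwa [comm_HE, smul_smul, inv_mul_cancel₀ h2, one_smul] at this
    have hF : (eF : M2 K) ∈ 𝔞 := by
      have := 𝔞.smul_mem ((-2 : K)⁻¹) (hcomm eH eF)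
      rwa [comm_HF, smul_smul, inv_mul_cancel₀ (neg_ne_zero.2 h2), one_smul] at this
    rw [decomp hA]
    exact 𝔞.add_mem (𝔞.add_mem (𝔞.smul_mem _ hH) (𝔞.smul_mem _ hE)) (𝔞.smul_mem _ hF)
  · exfalso
    obtain ⟨φ, hφ0, hφ⟩ := Submodule.exists_le_ker_of_lt_top _ (lt_top_iff_ne_top.2 htop)
    obtain ⟨Z, hZ⟩ := exists_trace_form φ
    have hZ0 : Z ≠ 0 := by
      rintro rfl
      apply hφ0
      ext X
      rw [hZ]
      simp
    have hZt : Z.trace = 0 := by
      have : φ 1 = 0 := hφ (Submodule.mem_sup_right (Submodule.mem_span_singleton_self _))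
      rwa [hZ, mul_one] at this
    have hZa : ∀ X ∈ 𝔞, (Z * X).trace = 0 := by
      intro X hX
      rw [← hZ]
      exact hφ (Submodule.mem_sup_left hX)
    rw [Matrix.trace_fin_two] at hZt
    -- commutators are proportional to `Z`
    have hprop : ∀ X ∈ 𝔞, ∀ Y ∈ 𝔞, ∃ c : K, X * Y - Y * X = c • Z := by
      intro X hX Y hY
      have hx := hZa X hX
      have hy := hZa Y hY
      simp only [Matrix.trace_fin_two, Matrix.mul_apply, Fin.sum_univ_two] at hx hy
      set C := X * Y - Y * X with hC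
      have c00 : C 0 0 = X 0 1 * Y 1 0 - Y 0 1 * X 1 0 := by
        rw [hC, Matrix.sub_apply, Matrix.mul_apply, Matrix.mul_apply, Fin.sum_univ_two,
          Fin.sum_univ_two]; ring
      have c11 : C 1 1 = - C 0 0 := by
        rw [c00, hC, Matrix.sub_apply, Matrix.mul_apply, Matrix.mul_apply, Fin.sum_univ_two,
          Fin.sum_univ_two]; ring
      have c01 : C 0 1 = (X 0 0 - X 1 1) * Y 0 1 - X 0 1 * (Y 0 0 - Y 1 1) := by
        rw [hC, Matrix.sub_apply, Matrix.mul_apply, Matrix.mul_apply, Fin.sum_univ_two,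
          Fin.sum_univ_two]; ring
      have c10 : C 1 0 = X 1 0 * (Y 0 0 - Y 1 1) - (X 0 0 - X 1 1) * Y 1 0 := by
        rw [hC, Matrix.sub_apply, Matrix.mul_apply, Matrix.mul_apply, Fin.sum_univ_two,
          Fin.sum_univ_two]; ring
      have z11 : Z 1 1 = - Z 0 0 := by linear_combination hZt
      rw [z11] at hx hy
      -- cross products vanish
      have p1 : C 0 0 * Z 0 1 = C 0 1 * Z 0 0 := by
        rw [c00, c01]; linear_combination (X 0 1) * hy - (Y 0 1) * hx
      have p2 : C 0 0 * Z 1 0 = C 1 0 * Z 0 0 := by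
        rw [c00, c10]; linear_combination (Y 1 0) * hx - (X 1 0) * hy
      have p3 : C 0 1 * Z 1 0 = C 1 0 * Z 0 1 := by
        rw [c01, c10]; linear_combination (X 0 0 - X 1 1) * hy - (Y 0 0 - Y 1 1) * hx
      by_cases h00 : Z 0 0 = 0
      · by_cases h01 : Z 0 1 = 0
        · have h10 : Z 1 0 ≠ 0 := by
            intro h
            apply hZ0
            ext i j
            fin_cases i <;> fin_cases j
            · exact h00
            · exact h01
            · exact h
            · simpa [h00] using z11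
          refine ⟨C 1 0 / Z 1 0, ?_⟩
          have q0 : C 0 0 = 0 := by
            rw [h00, mul_zero] at p2
            exact (mul_eq_zero.1 p2).resolve_right h10
          have q1 : C 0 1 = 0 := by
            rw [h01, mul_zero] at p3
            exact (mul_eq_zero.1 p3).resolve_right h10
          ext i j
          fin_cases i <;> fin_cases j
          · simp [h00, q0]
          · simp [h01, q1]
          · simp [h10]
          · simp [z11, h00, c11, q0]
        · refine ⟨C 0 1 / Z 0 1, ?_⟩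
          have q0 : C 0 0 = 0 := by
            rw [h00, mul_zero] at p1
            exact (mul_eq_zero.1 p1).resolve_right h01
          ext i j
          fin_cases i <;> fin_cases j
          · simp [h00, q0]
          · simp [h01]
          · simp only [Fin.mk_one, Fin.zero_eta, Matrix.smul_apply, smul_eq_mul]
            field_simp
            linear_combination -p3
          · simp [z11, h00, c11, q0]
      · refine ⟨C 0 0 / Z 0 0, ?_⟩
        ext i j
        fin_cases i <;> fin_cases j
        · simp [h00]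
        · simp only [Fin.mk_one, Fin.zero_eta, Matrix.smul_apply, smul_eq_mul]
          field_simp
          linear_combination -p1
        · simp only [Fin.mk_one, Fin.zero_eta, Matrix.smul_apply, smul_eq_mul]
          field_simp
          linear_combination -p2
        · simp only [Fin.mk_one, Matrix.smul_apply, smul_eq_mul, z11, c11]
          field_simp
    by_cases hall : ∀ X ∈ 𝔞, ∀ Y ∈ 𝔞, X * Y - Y * X = 0
    · -- commuting matrices
      by_cases hsc : ∀ X ∈ 𝔞, ∃ c : K, X = c • 1
      · obtain ⟨X, hX, h1⟩ := hirr (fun _ => 1) (by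
          intro h
          exact one_ne_zero (congrFun h 0))
        obtain ⟨c, rfl⟩ := hsc X hX
        exact h1 ⟨c, by rw [Matrix.smul_mulVec, Matrix.one_mulVec]⟩
      · push Not at hsc
        obtain ⟨X, hX, hXs⟩ := hsc
        obtain ⟨c, v, hv, h1⟩ := exists_eig X
        obtain ⟨Y, hY, h2⟩ := hirr v hv
        apply h2
        have h3 : (X - c • (1 : M2 K)) ≠ 0 := fun h => hXs c (sub_eq_zero.1 h)
        have h4 : (X - c • (1 : M2 K)).mulVec v = 0 := by
          rw [Matrix.sub_mulVec, Matrix.smul_mulVec, Matrix.one_mulVec, h1, sub_self]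
        have h5 : (X - c • (1 : M2 K)).mulVec (Y.mulVec v) = 0 := by
          have h6 := sub_eq_zero.1 (hall X hX Y hY)
          rw [Matrix.sub_mulVec, Matrix.smul_mulVec, Matrix.one_mulVec, Matrix.mulVec_mulVec, h6,
            ← Matrix.mulVec_mulVec, h1, Matrix.mulVec_smul, sub_self]
        exact ker_line h3 hv h4 h5
    · push Not at hall
      obtain ⟨X, hX, Y, hY, hne⟩ := hall
      obtain ⟨μ, hμ⟩ := hprop X hX Y hY
      have hμ0 : μ ≠ 0 := by
        rintro rfl
        exact hne (by rw [hμ, zero_smul])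
      have hZ𝔞 : Z ∈ 𝔞 := by
        have := 𝔞.smul_mem μ⁻¹ (hbr X hX Y hY)
        rwa [hμ, smul_smul, inv_mul_cancel₀ hμ0, one_smul] at this
      have hdet : Z.det = 0 := by
        have h1 := hZa Z hZ𝔞
        rw [Matrix.det_fin_two]
        simp only [Matrix.trace_fin_two, Matrix.mul_apply, Fin.sum_univ_two] at h1
        have h2 : (2 : K) * (Z 0 0 * Z 1 1 - Z 0 1 * Z 1 0) = 0 := by
          linear_combination (Z 0 0 + Z 1 1) * hZt - h1
        exact (mul_eq_zero.1 h2).resolve_left two_ne_zero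
      obtain ⟨v, hv, hZv⟩ := exists_ker hdet
      obtain ⟨B, hB, h2⟩ := hirr v hv
      apply h2
      obtain ⟨ν, hν⟩ := hprop B hB Z hZ𝔞
      refine ker_line hZ0 hv hZv ?_
      have h3 : Z * B = B * Z - ν • Z := by rw [← hν]; abel
      rw [Matrix.mulVec_mulVec, h3, Matrix.sub_mulVec, ← Matrix.mulVec_mulVec, hZv,
        Matrix.mulVec_zero, Matrix.smul_mulVec, hZv, smul_zero, sub_self]

/-- The square of a traceless matrix with determinant zero vanishes. -/
theorem sq_zero {B : M2 K} (ht : B.trace = 0) (hd : B.det = 0) (v : Fin 2 → K) :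
    B.mulVec (B.mulVec v) = 0 := by
  have h : B * B = 0 := by
    rw [Matrix.trace_fin_two] at ht
    rw [Matrix.det_fin_two] at hd
    ext i j
    fin_cases i <;> fin_cases j <;>
      simp only [Fin.mk_one, Fin.zero_eta, Matrix.mul_apply, Fin.sum_univ_two, Matrix.zero_apply]
    · linear_combination (B 0 0) * ht - hd
    · linear_combination (B 0 1) * ht
    · linear_combination (B 1 0) * ht
    · linear_combination (B 1 1) * ht - hd
  rw [Matrix.mulVec_mulVec, h, Matrix.zero_mulVec]

theorem nilp_of_comm [CharZero K] {H E : M2 K} {c : K} (hc : c ≠ 0) (h : H * E - E * H = c • E) :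
    E.trace = 0 ∧ E.det = 0 := by
  have h1 : E.trace = 0 := by
    have := congrArg Matrix.trace h
    rw [tr_comm, Matrix.trace_smul, smul_eq_mul] at this
    exact (mul_eq_zero.1 this.symm).resolve_left hc
  refine ⟨h1, ?_⟩
  have h2 : (E * E).trace = 0 := by
    have h3 : ((H * E - E * H) * E).trace = 0 := by
      simp only [Matrix.trace_fin_two, Matrix.mul_apply, Matrix.sub_apply, Fin.sum_univ_two]
      ring
    rw [h, Matrix.smul_mul, Matrix.trace_smul, smul_eq_mul] at h3
    exact (mul_eq_zero.1 h3).resolve_left hc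
  rw [Matrix.trace_fin_two] at h1
  simp only [Matrix.trace_fin_two, Matrix.mul_apply, Fin.sum_univ_two] at h2
  rw [Matrix.det_fin_two]
  have h4 : (2 : K) * (E 0 0 * E 1 1 - E 0 1 * E 1 0) = 0 := by
    linear_combination (E 0 0 + E 1 1) * h1 - h2
  exact (mul_eq_zero.1 h4).resolve_left two_ne_zero

/-- Nonzero two-dimensional representations of `sl_2` are standard. -/
theorem exists_intertwiner [CharZero K] {H E F : M2 K} (h1 : H * E - E * H = (2 : K) • E)
    (h2 : H * F - F * H = (-2 : K) • F) (h3 : E * F - F * E = H) (hne : E ≠ 0) :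
    ∃ M : M2 K, M.det ≠ 0 ∧ M * eE = E * M ∧ M * eF = F * M := by
  have two : (2 : K) ≠ 0 := two_ne_zero
  obtain ⟨hEt, hEd⟩ := nilp_of_comm two h1
  obtain ⟨hFt, hFd⟩ := nilp_of_comm (neg_ne_zero.2 two) h2
  have hHt : H.trace = 0 := by rw [← h3, tr_comm]
  -- a highest weight vector
  obtain ⟨v, hv⟩ : ∃ v : Fin 2 → K, E.mulVec v ≠ 0 := by
    by_contra hcon
    push Not at hcon
    apply hne
    ext i j
    have := congrFun (hcon (Pi.single j 1)) i
    simpa using this
  set w1 := E.mulVec v with hw1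
  have e1 : E.mulVec w1 = 0 := sq_zero hEt hEd v
  have r1 : ∀ x, H.mulVec (E.mulVec x) = E.mulVec (H.mulVec x) + (2 : K) • E.mulVec x := by
    intro x
    have := congrArg (fun A : M2 K => A.mulVec x) h1
    simp only [Matrix.sub_mulVec, Matrix.smul_mulVec, ← Matrix.mulVec_mulVec] at this
    rw [← this]; abel
  have r2 : ∀ x, H.mulVec (F.mulVec x) = F.mulVec (H.mulVec x) + (-2 : K) • F.mulVec x := by
    intro x
    have := congrArg (fun A : M2 K => A.mulVec x) h2
    simp only [Matrix.sub_mulVec, Matrix.smul_mulVec, ← Matrix.mulVec_mulVec] at this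
    rw [← this]; abel
  have r3 : ∀ x, E.mulVec (F.mulVec x) = F.mulVec (E.mulVec x) + H.mulVec x := by
    intro x
    have := congrArg (fun A : M2 K => A.mulVec x) h3
    simp only [Matrix.sub_mulVec, ← Matrix.mulVec_mulVec] at this
    rw [← this]; abel
  obtain ⟨lam, hlam⟩ : ∃ c : K, H.mulVec w1 = c • w1 := by
    refine ker_line hne hv e1 ?_
    have := r1 w1
    rw [e1, Matrix.mulVec_zero, smul_zero, add_zero] at this
    exact this.symm
  set w2 := F.mulVec w1 with hw2
  have hw20 : w2 ≠ 0 := by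
    intro h0
    have h4 : H.mulVec w1 = 0 := by
      have := r3 w1
      rw [e1, Matrix.mulVec_zero, zero_add, ← hw2, h0, Matrix.mulVec_zero] at this
      exact this.symm
    have hHd : H.det = 0 := Matrix.exists_mulVec_eq_zero_iff.1 ⟨w1, hv, h4⟩
    have h5 : E.mulVec (H.mulVec v) = 0 := by
      by_cases hH0 : H = 0
      · rw [hH0, Matrix.zero_mulVec, Matrix.mulVec_zero]
      · obtain ⟨c, hc⟩ := ker_line hH0 hv h4 (sq_zero hHt hHd v)
        rw [hc, Matrix.mulVec_smul, e1, smul_zero]
    have h6 := r1 v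
    rw [← hw1, h4, h5, zero_add] at h6
    exact (smul_ne_zero two hv) h6.symm
  have e2 : E.mulVec w2 = lam • w1 := by
    have := r3 w1
    rw [e1, Matrix.mulVec_zero, zero_add, hlam] at this
    exact this
  have e3 : H.mulVec w2 = (lam - 2) • w2 := by
    have := r2 w1
    rw [hlam, Matrix.mulVec_smul, ← hw2] at this
    rw [this, sub_smul, neg_smul]
    abel
  have e4 : F.mulVec w2 = 0 := sq_zero hFt hFd w1
  let M : M2 K := !![w1 0, w2 0; w1 1, w2 1]
  have hM : M.det ≠ 0 := by
    intro h0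
    obtain ⟨y, hy, h4⟩ := exists_ker h0
    have a0 := congrFun h4 0
    have a1 := congrFun h4 1
    simp only [Matrix.mulVec, dotProduct, Fin.sum_univ_two, Pi.zero_apply, M, Matrix.of_apply,
      Matrix.cons_val', Matrix.cons_val_zero, Matrix.cons_val_one, Matrix.cons_val_fin_one] at a0 a1
    have h5 : y 0 • w1 + y 1 • w2 = 0 := by
      ext i
      fin_cases i
      · simp only [Fin.zero_eta, Pi.add_apply, Pi.smul_apply, smul_eq_mul, Pi.zero_apply]
        linear_combination a0
      · simp only [Fin.mk_one, Pi.add_apply, Pi.smul_apply, smul_eq_mul, Pi.zero_apply]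
        linear_combination a1
    have h6 : y 0 • (lam • w1) + y 1 • ((lam - 2) • w2) = 0 := by
      have := congrArg H.mulVec h5
      rw [Matrix.mulVec_add, Matrix.mulVec_smul, Matrix.mulVec_smul, hlam, e3,
        Matrix.mulVec_zero] at this
      exact this
    have h7 : (2 * y 1) • w2 = 0 := by
      have h8 : lam • (y 0 • w1 + y 1 • w2) - (y 0 • (lam • w1) + y 1 • ((lam - 2) • w2)) = 0 := by
        rw [h5, h6, smul_zero, sub_zero]
      rw [← h8]
      ext i
      simp only [Pi.add_apply, Pi.smul_apply, Pi.sub_apply, smul_eq_mul]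
      ring
    have hy1 : y 1 = 0 := by
      rcases smul_eq_zero.1 h7 with h | h
      · exact (mul_eq_zero.1 h).resolve_left two
      · exact absurd h hw20
    rw [hy1, zero_smul, add_zero] at h5
    have hy0 : y 0 = 0 := (smul_eq_zero.1 h5).resolve_right hv
    apply hy
    ext i
    fin_cases i
    · exact hy0
    · exact hy1
  have mvM : ∀ (A : M2 K) (i : Fin 2), (A * M) i 0 = A.mulVec w1 i ∧ (A * M) i 1 = A.mulVec w2 i := by
    intro A i
    constructor <;> simp [M, Matrix.mul_apply, Matrix.mulVec, dotProduct, Fin.sum_univ_two]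
  have hlam1 : lam = 1 := by
    have h4 : H * M = M * !![lam, 0; 0, lam - 2] := by
      ext i j
      fin_cases j
      · simp only [Fin.zero_eta]
        rw [(mvM H i).1, hlam]
        fin_cases i <;> simp [M, Matrix.mul_apply, Fin.sum_univ_two, mul_comm]
      · simp only [Fin.mk_one]
        rw [(mvM H i).2, e3]
        fin_cases i <;> simp [M, Matrix.mul_apply, Fin.sum_univ_two, mul_comm]
    have hu : IsUnit M.det := isUnit_iff_ne_zero.2 hM
    have h5 : H = M * !![lam, 0; 0, lam - 2] * M⁻¹ := by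
      rw [← h4, mul_assoc, Matrix.mul_nonsing_inv _ hu, mul_one]
    have h6 : H.trace = lam + (lam - 2) := by
      conv_lhs => rw [h5]
      rw [Matrix.trace_mul_comm, ← mul_assoc, Matrix.nonsing_inv_mul _ hu, one_mul,
        Matrix.trace_fin_two]
      simp
    rw [hHt] at h6
    have h7 : (2 : K) * (lam - 1) = 0 := by linear_combination -h6
    have := (mul_eq_zero.1 h7).resolve_left two
    linear_combination this
  refine ⟨M, hM, ?_, ?_⟩
  · ext i j
    fin_cases j
    · simp only [Fin.zero_eta]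
      rw [(mvM E i).1, e1]
      fin_cases i <;> simp [M, eE, Matrix.mul_apply, Fin.sum_univ_two]
    · simp only [Fin.mk_one]
      rw [(mvM E i).2, e2, hlam1, one_smul]
      fin_cases i <;> simp [M, eE, Matrix.mul_apply, Fin.sum_univ_two]
  · ext i j
    fin_cases j
    · simp only [Fin.zero_eta]
      rw [(mvM F i).1, ← hw2]
      fin_cases i <;> simp [M, eF, Matrix.mul_apply, Fin.sum_univ_two]
    · simp only [Fin.mk_one]
      rw [(mvM F i).2, e4]
      fin_cases i <;> simp [M, eF, Matrix.mul_apply, Fin.sum_univ_two]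

/-- A second intertwiner is proportional. -/
theorem intertwiner_unique {E F M D : M2 K} (hM : M.det ≠ 0) (h1 : M * eE = E * M)
    (h2 : M * eF = F * M) (h3 : D * eE = E * D) (h4 : D * eF = F * D) : ∃ c : K, D = c • M := by
  have hu : IsUnit M.det := isUnit_iff_ne_zero.2 hM
  have k1 : M⁻¹ * E = eE * M⁻¹ := by
    have : M⁻¹ * (E * M) * M⁻¹ = M⁻¹ * (M * eE) * M⁻¹ := by rw [h1]
    rw [mul_assoc, mul_assoc, Matrix.mul_nonsing_inv _ hu, mul_one, ← mul_assoc M⁻¹ M,
      Matrix.nonsing_inv_mul _ hu, one_mul] at this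
    exact this
  have k2 : M⁻¹ * F = eF * M⁻¹ := by
    have : M⁻¹ * (F * M) * M⁻¹ = M⁻¹ * (M * eF) * M⁻¹ := by rw [h2]
    rw [mul_assoc, mul_assoc, Matrix.mul_nonsing_inv _ hu, mul_one, ← mul_assoc M⁻¹ M,
      Matrix.nonsing_inv_mul _ hu, one_mul] at this
    exact this
  set Q := M⁻¹ * D with hQ
  have q1 : Q * eE = eE * Q := by
    rw [hQ, mul_assoc, h3, ← mul_assoc, k1, mul_assoc]
  have q2 : Q * eF = eF * Q := by
    rw [hQ, mul_assoc, h4, ← mul_assoc, k2, mul_assoc]
  have a1 := congrFun (congrFun q1 0) 1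
  have a2 := congrFun (congrFun q1 0) 0
  have a3 := congrFun (congrFun q2 0) 0
  simp [eE, eF, Matrix.mul_apply, Fin.sum_univ_two] at a1 a2 a3
  refine ⟨Q 0 0, ?_⟩
  have hD : D = M * Q := by
    rw [hQ, ← mul_assoc, Matrix.mul_nonsing_inv _ hu, one_mul]
  have hQs : Q = Q 0 0 • (1 : M2 K) := by
    ext i j
    fin_cases i <;> fin_cases j
    · simp
    · simp [a3]
    · simp [← a2]
    · simp [a1]
  rw [hD]
  conv_lhs => rw [hQs]
  rw [Matrix.mul_smul, mul_one]

/-- Ideals of `sl_2`. -/
theorem ideal_sl2 [CharZero K] (𝔫 : Submodule K (M2 K)) (htr : ∀ A ∈ 𝔫, A.trace = 0)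
    (hid : ∀ A ∈ 𝔫, ∀ B : M2 K, B.trace = 0 → B * A - A * B ∈ 𝔫) {A₀ : M2 K} (h₀ : A₀ ∈ 𝔫)
    (hne : A₀ ≠ 0) {A : M2 K} (hA : A.trace = 0) : A ∈ 𝔫 := by
  have two : (2 : K) ≠ 0 := two_ne_zero
  have all_of_E : (eE : M2 K) ∈ 𝔫 → A ∈ 𝔫 := by
    intro hE
    have hH : (eH : M2 K) ∈ 𝔫 := by
      have := 𝔫.neg_mem (hid _ hE eF trF)
      rwa [neg_sub, comm_EF] at this
    have hF : (eF : M2 K) ∈ 𝔫 := by
      have := 𝔫.smul_mem ((-2 : K)⁻¹) (𝔫.neg_mem (hid _ hH eF trF))
      rwa [neg_sub, comm_HF, smul_smul, inv_mul_cancel₀ (neg_ne_zero.2 two), one_smul] at this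
    rw [decomp hA]
    exact 𝔫.add_mem (𝔫.add_mem (𝔫.smul_mem _ hH) (𝔫.smul_mem _ hE)) (𝔫.smul_mem _ hF)
  have all_of_F : (eF : M2 K) ∈ 𝔫 → A ∈ 𝔫 := by
    intro hF
    apply all_of_E
    have hH : (eH : M2 K) ∈ 𝔫 := by
      have := hid _ hF eE trE
      rwa [comm_EF] at this
    have := 𝔫.smul_mem ((2 : K)⁻¹) (𝔫.neg_mem (hid _ hH eE trE))
    rwa [neg_sub, comm_HE, smul_smul, inv_mul_cancel₀ two, one_smul] at this
  have ht := htr A₀ h₀
  rw [Matrix.trace_fin_two] at ht
  by_cases h10 : A₀ 1 0 = 0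
  · by_cases h00 : A₀ 0 0 = 0
    · apply all_of_E
      have h01 : A₀ 0 1 ≠ 0 := by
        intro h01
        apply hne
        ext i j
        fin_cases i <;> fin_cases j
        · exact h00
        · exact h01
        · exact h10
        · simpa [h00] using ht
      have := 𝔫.smul_mem (A₀ 0 1)⁻¹ h₀
      convert this using 1
      ext i j
      fin_cases i <;> fin_cases j
      · simp [eE, h00]
      · simp [eE, h01]
      · simp [eE, h10]
      · have : A₀ 1 1 = 0 := by simpa [h00] using ht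
        simp [eE, this]
    · apply all_of_E
      have h5 := hid _ h₀ eE trE
      have h6 : eE * A₀ - A₀ * eE = (-2 * A₀ 0 0) • (eE : M2 K) := by
        ext i j
        fin_cases i <;> fin_cases j <;>
          simp only [Fin.mk_one, Fin.zero_eta, Matrix.mul_apply, Fin.sum_univ_two,
            Matrix.sub_apply, Matrix.smul_apply, smul_eq_mul, E00, E01, E10, E11, h10]
        · ring
        · linear_combination ht
        · ring
        · ring
      rw [h6] at h5
      have h7 : (-2 * A₀ 0 0) ≠ 0 := mul_ne_zero (neg_ne_zero.2 two) h00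
      have := 𝔫.smul_mem (-2 * A₀ 0 0)⁻¹ h5
      rwa [smul_smul, inv_mul_cancel₀ h7, one_smul] at this
  · apply all_of_E
    have h5 := hid _ (hid _ h₀ eE trE) eE trE
    have h6 : eE * (eE * A₀ - A₀ * eE) - (eE * A₀ - A₀ * eE) * eE =
        (-2 * A₀ 1 0) • (eE : M2 K) := by
      ext i j
      fin_cases i <;> fin_cases j <;>
        simp only [Fin.mk_one, Fin.zero_eta, Matrix.mul_apply, Fin.sum_univ_two,
            Matrix.sub_apply, Matrix.smul_apply, smul_eq_mul, E00, E01, E10, E11] <;> ring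
    rw [h6] at h5
    have h7 : (-2 * A₀ 1 0) ≠ 0 := mul_ne_zero (neg_ne_zero.2 two) h10
    have := 𝔫.smul_mem (-2 * A₀ 1 0)⁻¹ h5
    rwa [smul_smul, inv_mul_cancel₀ h7, one_smul] at this

theorem H00 : (eH : M2 K) 0 0 = 1 := rfl
theorem H01 : (eH : M2 K) 0 1 = 0 := rfl
theorem H10 : (eH : M2 K) 1 0 = 0 := rfl
theorem H11 : (eH : M2 K) 1 1 = -1 := rfl
theorem F00 : (eF : M2 K) 0 0 = 0 := rfl
theorem F01 : (eF : M2 K) 0 1 = 0 := rfl
theorem F10 : (eF : M2 K) 1 0 = 1 := rfl
theorem F11 : (eF : M2 K) 1 1 = 0 := rfl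

/-- Traceless matrices are sums of two commutators. -/
theorem two_comm [CharZero K] {A : M2 K} (hA : A.trace = 0) : ∃ B C B' C' : M2 K,
    B.trace = 0 ∧ C.trace = 0 ∧
    B'.trace = 0 ∧ C'.trace = 0 ∧ A = (B * C - C * B) + (B' * C' - C' * B') := by
  refine ⟨A 0 0 • eE, eF, (2 : K)⁻¹ • eH, A 0 1 • eE - A 1 0 • eF, ?_, trF, ?_, ?_, ?_⟩
  · rw [Matrix.trace_smul, trE, smul_zero]
  · rw [Matrix.trace_smul, trH, smul_zero]
  · rw [Matrix.trace_sub, Matrix.trace_smul, Matrix.trace_smul, trE, trF, smul_zero, smul_zero,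
      sub_zero]
  · rw [Matrix.trace_fin_two] at hA
    have h2 : (2 : K)⁻¹ * 2 = 1 := inv_mul_cancel₀ two_ne_zero
    ext i j
    fin_cases i <;> fin_cases j <;>
      simp only [Fin.mk_one, Fin.zero_eta, Matrix.mul_apply, Fin.sum_univ_two, Matrix.add_apply,
            Matrix.sub_apply, Matrix.smul_apply, smul_eq_mul, E00, E01, E10, E11, F00, F01, F10, F11,
            H00, H01, H10, H11]
    · ring
    · linear_combination (-(A 0 1)) * h2
    · linear_combination (-(A 1 0)) * h2
    · linear_combination hA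

end Pool.Agent.W519.M
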