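import Mathlib
import Pool.Agent.W519.M.Two

/-!
# The Lie algebra of the motivic Galois group of a 1-motive
-/

set_option linter.unusedSectionVars false

namespace Pool.Agent.W519.M

open Matrix

variable {K : Type} [Field K] {I S J Λ W : Type} [Fintype I] [Fintype S] [Fintype J] [Fintype Λ]
  [Fintype W] [DecidableEq I] [DecidableEq S] [DecidableEq J] [DecidableEq Λ] [DecidableEq W]

/-- Elements of the Lie algebra: `(x, X, q, u, z)` stands for the block matrix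
`((x, q, z), (0, X, u), (0, 0, 0))`. -/
abbrev Tup (K I S W : Type) : Type :=
  K × (S → M2 K) × Matrix I (Fin 2 × S) K × Matrix (Fin 2 × S) W K × Matrix I W K

/-- The bracket. -/
def br (a b : Tup K I S W) : Tup K I S W :=
  (0, fun s => a.2.1 s * b.2.1 s - b.2.1 s * a.2.1 s,
    (a.1 • b.2.2.1 + a.2.2.1 * blockDiagonal b.2.1) -
      (b.1 • a.2.2.1 + b.2.2.1 * blockDiagonal a.2.1),
    blockDiagonal a.2.1 * b.2.2.2.1 - blockDiagonal b.2.1 * a.2.2.2.1,
    (a.1 • b.2.2.2.2 + a.2.2.1 * b.2.2.2.1) - (b.1 • a.2.2.2.2 + b.2.2.1 * a.2.2.2.1))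

theorem mul_bd {R : Type} [CommRing R] (q : Matrix I (Fin 2 × S) R) (X : S → M2 R) (i : I)
    (r : Fin 2) (s : S) :
    (q * blockDiagonal X) i (r, s) = ∑ r', q i (r', s) * X s r' r := by
  rw [Matrix.mul_apply, Fintype.sum_prod_type]
  refine Finset.sum_congr rfl fun r' _ => ?_
  rw [Finset.sum_eq_single s]
  · rw [blockDiagonal_apply, if_pos rfl]
  · intro s' _ hs'
    rw [blockDiagonal_apply, if_neg hs', mul_zero]
  · intro h
    exact absurd (Finset.mem_univ _) h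

theorem bd_mul {R : Type} [CommRing R] (X : S → M2 R) (u : Matrix (Fin 2 × S) W R) (w : W)
    (r : Fin 2) (s : S) :
    (blockDiagonal X * u) (r, s) w = ∑ r', X s r r' * u (r', s) w := by
  rw [Matrix.mul_apply, Fintype.sum_prod_type]
  refine Finset.sum_congr rfl fun r' _ => ?_
  rw [Finset.sum_eq_single s]
  · rw [blockDiagonal_apply, if_pos rfl]
  · intro s' _ hs'
    rw [blockDiagonal_apply, if_neg (Ne.symm hs'), zero_mul]
  · intro h
    exact absurd (Finset.mem_univ _) h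

/-- The vectors in the slot `s` (rows are turned into columns). -/
def wv (a : Tup K I S (J ⊕ Λ)) (s : S) : I ⊕ J → Fin 2 → K
  | Sum.inl i => ![a.2.2.1 i (1, s), - a.2.2.1 i (0, s)]
  | Sum.inr j => fun r => a.2.2.2.1 (r, s) (Sum.inl j)

theorem wv_add (a b : Tup K I S (J ⊕ Λ)) (s : S) (m : I ⊕ J) :
    wv (a + b) s m = wv a s m + wv b s m := by
  rcases m with i | j
  · ext r
    fin_cases r
    · simp [wv]
    · simp [wv]; ring
  · ext r
    simp [wv]

theorem wv_smul (c : K) (a : Tup K I S (J ⊕ Λ)) (s : S) (m : I ⊕ J) :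
    wv (c • a) s m = c • wv a s m := by
  rcases m with i | j
  · ext r
    fin_cases r <;> simp [wv]
  · ext r
    simp [wv]

theorem wv_sub (a b : Tup K I S (J ⊕ Λ)) (s : S) (m : I ⊕ J) :
    wv (a - b) s m = wv a s m - wv b s m := by
  rcases m with i | j
  · ext r
    fin_cases r
    · simp [wv]
    · simp [wv]; ring
  · ext r
    simp [wv]

theorem wv_br {a b : Tup K I S (J ⊕ Λ)} {s : S} (ha : (a.2.1 s).trace = a.1)
    (hb : (b.2.1 s).trace = b.1) (m : I ⊕ J) :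
    wv (br a b) s m = (a.2.1 s).mulVec (wv b s m) - (b.2.1 s).mulVec (wv a s m) := by
  rcases m with i | j
  · rw [Matrix.trace_fin_two] at ha hb
    ext r
    fin_cases r
    · simp only [wv, br, Fin.zero_eta, Matrix.cons_val_zero, Matrix.sub_apply, Matrix.add_apply,
        Matrix.smul_apply, smul_eq_mul, mul_bd, Fin.sum_univ_two, Pi.sub_apply, Matrix.mulVec,
        dotProduct, Matrix.cons_val_one, Matrix.cons_val_fin_one]
      rw [← ha, ← hb]
      ring
    · simp only [wv, br, Fin.mk_one, Matrix.cons_val_zero, Matrix.sub_apply, Matrix.add_apply,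
        Matrix.smul_apply, smul_eq_mul, mul_bd, Fin.sum_univ_two, Pi.sub_apply, Matrix.mulVec,
        dotProduct, Matrix.cons_val_one, Matrix.cons_val_fin_one]
      rw [← ha, ← hb]
      ring
  · ext r
    simp only [wv, br, Matrix.sub_apply, bd_mul, Pi.sub_apply, Matrix.mulVec, dotProduct]

/-- The properties of the Lie algebras which we consider. -/
structure LieSys (𝔏 : Submodule K (Tup K I S (J ⊕ Λ))) : Prop where
  br_mem : ∀ a ∈ 𝔏, ∀ b ∈ 𝔏, br a b ∈ 𝔏
  tr_eq : ∀ a ∈ 𝔏, ∀ s, (a.2.1 s).trace = a.1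
  u_zero : ∀ a ∈ 𝔏, ∀ v l, a.2.2.2.1 v (Sum.inr l) = 0
  A1 : ∀ s (v : Fin 2 → K), v ≠ 0 → ∃ a ∈ 𝔏, ¬ ∃ c : K, (a.2.1 s).mulVec v = c • v
  A2 : ∀ s t, s ≠ t → ∀ M : M2 K, M ≠ 0 → ∃ a ∈ 𝔏, a.2.1 s * M ≠ M * a.2.1 t
  A3 : ∃ a ∈ 𝔏, a.1 ≠ 0
  A4 : ∀ s (c : I ⊕ J → K), c ≠ 0 → ∀ κ : Fin 2 → K,
    ∃ a ∈ 𝔏, ∑ m, c m • wv a s m ≠ (a.2.1 s).mulVec κ
  A5 : ∀ c : I × Λ → K, c ≠ 0 → ∀ κ : K,
    ∃ a ∈ 𝔏, ∑ m, c m * a.2.2.2.2 m.1 (Sum.inr m.2) ≠ κ * a.1

/-- The component in the slot `s`. -/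
def pr (s : S) : Tup K I S W →ₗ[K] M2 K :=
  LinearMap.proj s ∘ₗ LinearMap.fst K _ _ ∘ₗ LinearMap.snd K _ _

theorem pr_apply (s : S) (a : Tup K I S W) : pr s a = a.2.1 s := rfl

theorem pr_br (s : S) (a b : Tup K I S W) :
    pr s (br a b) = pr s a * pr s b - pr s b * pr s a := rfl

section

variable [IsAlgClosed K] [CharZero K] {𝔏 : Submodule K (Tup K I S (J ⊕ Λ))} (h𝔏 : LieSys 𝔏)

include h𝔏

theorem c2 (s : S) {A : M2 K} (hA : A.trace = 0) : ∃ a ∈ 𝔏, pr s a = A := by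
  have h1 : A ∈ 𝔏.map (pr s) := by
    refine sl2_le _ ?_ ?_ hA
    · rintro _ ⟨a, ha, rfl⟩ _ ⟨b, hb, rfl⟩
      exact ⟨br a b, h𝔏.br_mem a ha b hb, pr_br s a b⟩
    · intro v hv
      obtain ⟨a, ha, h⟩ := h𝔏.A1 s v hv
      exact ⟨pr s a, ⟨a, ha, rfl⟩, h⟩
  exact h1

theorem x_zero {a : Tup K I S (J ⊕ Λ)} (ha : a ∈ 𝔏) {s : S} (h : (pr s a).trace = 0) :
    a.1 = 0 := by
  rw [← h𝔏.tr_eq a ha s]
  exact h

theorem tr_zero {a : Tup K I S (J ⊕ Λ)} (ha : a ∈ 𝔏) (h : a.1 = 0) (s : S) :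
    (pr s a).trace = 0 := by
  rw [pr_apply, h𝔏.tr_eq a ha s, h]

theorem pair {s t : S} (hst : s ≠ t) {A : M2 K} (hA : A.trace = 0) :
    ∃ a ∈ 𝔏, pr s a = A ∧ pr t a = 0 := by
  let 𝔫 : Submodule K (M2 K) := (𝔏 ⊓ LinearMap.ker (pr t)).map (pr s)
  have hmem : ∀ B, B ∈ 𝔫 ↔ ∃ a ∈ 𝔏, pr s a = B ∧ pr t a = 0 := by
    intro B
    constructor
    · rintro ⟨a, ⟨ha, hat⟩, rfl⟩
      exact ⟨a, ha, rfl, hat⟩
    · rintro ⟨a, ha, rfl, hat⟩
      exact ⟨a, ⟨ha, hat⟩, rfl⟩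
  rw [← hmem]
  have htr : ∀ B ∈ 𝔫, B.trace = 0 := by
    intro B hB
    obtain ⟨a, ha, rfl, hat⟩ := (hmem B).1 hB
    apply tr_zero h𝔏 ha
    apply x_zero h𝔏 ha (s := t)
    rw [hat, Matrix.trace_zero]
  have hid : ∀ B ∈ 𝔫, ∀ C : M2 K, C.trace = 0 → C * B - B * C ∈ 𝔫 := by
    intro B hB C hC
    obtain ⟨a, ha, rfl, hat⟩ := (hmem B).1 hB
    obtain ⟨b, hb, rfl⟩ := c2 h𝔏 s hC
    rw [hmem]
    refine ⟨br b a, h𝔏.br_mem b hb a ha, pr_br s b a, ?_⟩
    rw [pr_br, hat, mul_zero, zero_mul, sub_zero]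
  by_cases hne : ∃ B ∈ 𝔫, B ≠ 0
  · obtain ⟨B, hB, hB0⟩ := hne
    exact ideal_sl2 𝔫 htr hid hB hB0 hA
  · exfalso
    push Not at hne
    have hinj : ∀ a ∈ 𝔏, pr t a = 0 → pr s a = 0 := by
      intro a ha hat
      exact hne _ ((hmem _).2 ⟨a, ha, rfl, hat⟩)
    obtain ⟨h, hh, hhH⟩ := c2 h𝔏 t (A := eH) trH
    obtain ⟨e, he, heE⟩ := c2 h𝔏 t (A := eE) trE
    obtain ⟨f, hf, hfF⟩ := c2 h𝔏 t (A := eF) trF
    have r1 : pr s h * pr s e - pr s e * pr s h = (2 : K) • pr s e := by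
      have h1 := hinj (br h e - (2 : K) • e)
        (𝔏.sub_mem (h𝔏.br_mem h hh e he) (𝔏.smul_mem _ he)) (by
          rw [map_sub, map_smul, pr_br, hhH, heE, comm_HE, sub_self])
      rw [map_sub, map_smul, pr_br, sub_eq_zero] at h1
      exact h1
    have r2 : pr s h * pr s f - pr s f * pr s h = (-2 : K) • pr s f := by
      have h1 := hinj (br h f - (-2 : K) • f)
        (𝔏.sub_mem (h𝔏.br_mem h hh f hf) (𝔏.smul_mem _ hf)) (by
          rw [map_sub, map_smul, pr_br, hhH, hfF, comm_HF, sub_self])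
      rw [map_sub, map_smul, pr_br, sub_eq_zero] at h1
      exact h1
    have r3 : pr s e * pr s f - pr s f * pr s e = pr s h := by
      have h1 := hinj (br e f - h) (𝔏.sub_mem (h𝔏.br_mem e he f hf) hh) (by
          rw [map_sub, pr_br, hhH, heE, hfF, comm_EF, sub_self])
      rw [map_sub, pr_br, sub_eq_zero] at h1
      exact h1
    -- traceless elements
    have hdec : ∀ a ∈ 𝔏, a.1 = 0 → pr s a =
        (pr t a) 0 0 • pr s h + (pr t a) 0 1 • pr s e + (pr t a) 1 0 • pr s f := by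
      intro a ha hx
      have h1 := hinj (a - ((pr t a) 0 0 • h + (pr t a) 0 1 • e + (pr t a) 1 0 • f))
        (𝔏.sub_mem ha (𝔏.add_mem (𝔏.add_mem (𝔏.smul_mem _ hh) (𝔏.smul_mem _ he))
          (𝔏.smul_mem _ hf))) (by
          rw [map_sub, map_add, map_add, map_smul, map_smul, map_smul, hhH, heE, hfF,
            ← decomp (tr_zero h𝔏 ha hx t), sub_self])
      rw [map_sub, map_add, map_add, map_smul, map_smul, map_smul, sub_eq_zero] at h1
      exact h1
    have hene : pr s e ≠ 0 := by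
      intro h0
      have h1 : pr s h = 0 := by rw [← r3, h0, zero_mul, mul_zero, sub_zero]
      have h2 : pr s f = 0 := by
        have : (-2 : K) • pr s f = 0 := by rw [← r2, h1, zero_mul, mul_zero, sub_zero]
        exact (smul_eq_zero.1 this).resolve_left (neg_ne_zero.2 two_ne_zero)
      obtain ⟨a, ha, haE⟩ := c2 h𝔏 s (A := eE) trE
      have h3 := hdec a ha (x_zero h𝔏 ha (s := s) (by rw [haE, trE]))
      rw [h0, h1, h2, smul_zero, smul_zero, smul_zero, add_zero, add_zero, haE] at h3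
      exact eE_ne h3
    obtain ⟨M, hM, hME, hMF⟩ := exists_intertwiner r1 r2 r3 hene
    have hMH : M * eH = pr s h * M := by
      rw [← r3, ← comm_EF, mul_sub, sub_mul, ← mul_assoc, ← mul_assoc, hME, hMF, mul_assoc,
        mul_assoc, hME, hMF, ← mul_assoc, ← mul_assoc]
    have hint0 : ∀ a ∈ 𝔏, a.1 = 0 → pr s a * M = M * pr t a := by
      intro a ha hx
      rw [hdec a ha hx]
      conv_rhs => rw [decomp (tr_zero h𝔏 ha hx t)]
      simp only [add_mul, mul_add, Matrix.smul_mul, Matrix.mul_smul, hME, hMF, hMH]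
    have hM0 : M ≠ 0 := by
      rintro rfl
      apply hM
      simp
    obtain ⟨a, ha, hneq⟩ := h𝔏.A2 s t hst M hM0
    apply hneq
    -- the difference is a second intertwiner
    set D := pr s a * M - M * pr t a with hD
    have hDb : ∀ b ∈ 𝔏, b.1 = 0 → D * pr t b = pr s b * D := by
      intro b hb hx
      have h1 := hint0 (br a b) (h𝔏.br_mem a ha b hb) rfl
      have h2 := hint0 b hb hx
      rw [pr_br, pr_br, sub_mul, mul_sub] at h1
      rw [hD, sub_mul, mul_sub]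
      have h3 : pr s a * M * pr t b = pr s a * pr s b * M := by
        rw [mul_assoc, ← h2, mul_assoc]
      have h4 : pr s b * (M * pr t a) = M * (pr t b * pr t a) := by
        rw [← mul_assoc, h2, mul_assoc]
      rw [h3, h4, mul_assoc M, ← mul_assoc (pr s b)]
      have h5 : pr s a * pr s b * M - M * (pr t a * pr t b) - (pr s b * pr s a * M -
          M * (pr t b * pr t a)) = 0 := by
        have h6 : pr s a * pr s b * M - M * (pr t a * pr t b) - (pr s b * pr s a * M -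
          M * (pr t b * pr t a)) = (pr s a * pr s b * M - pr s b * pr s a * M) -
            (M * (pr t a * pr t b) - M * (pr t b * pr t a)) := by abel
        rw [h6, h1, sub_self]
      exact sub_eq_zero.1 h5
    have hxe : e.1 = 0 := x_zero h𝔏 he (s := t) (by rw [heE, trE])
    have hxf : f.1 = 0 := x_zero h𝔏 hf (s := t) (by rw [hfF, trF])
    have hDe := hDb e he hxe
    have hDf := hDb f hf hxf
    rw [heE] at hDe
    rw [hfF] at hDf
    obtain ⟨c, hc⟩ := intertwiner_unique hM hME hMF hDe hDf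
    have hu : IsUnit M.det := isUnit_iff_ne_zero.2 hM
    have h1 : pr s a = M * (pr t a + c • 1) * M⁻¹ := by
      have h2 : pr s a * M = M * (pr t a + c • 1) := by
        rw [mul_add, Matrix.mul_smul, mul_one, ← hc, hD]
        abel
      rw [← h2, mul_assoc, Matrix.mul_nonsing_inv _ hu, mul_one]
    have h2 : (pr s a).trace = (pr t a).trace + 2 * c := by
      conv_lhs => rw [h1]
      rw [Matrix.trace_mul_comm, ← mul_assoc, Matrix.nonsing_inv_mul _ hu, one_mul,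
        Matrix.trace_add, Matrix.trace_smul, Matrix.trace_one, Fintype.card_fin, smul_eq_mul]
      push_cast
      ring
    rw [pr_apply, pr_apply, h𝔏.tr_eq a ha, h𝔏.tr_eq a ha] at h2
    have h3 : c = 0 := by
      have : (2 : K) * c = 0 := by linear_combination -h2
      exact (mul_eq_zero.1 this).resolve_left two_ne_zero
    rw [h3, zero_smul, hD, sub_eq_zero] at hc
    exact hc

theorem multi (s : S) (T : Finset S) (hT : s ∉ T) : ∀ {A : M2 K}, A.trace = 0 →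
    ∃ a ∈ 𝔏, pr s a = A ∧ ∀ t ∈ T, pr t a = 0 := by
  induction T using Finset.induction_on with
  | empty =>
    intro A hA
    obtain ⟨a, ha, h⟩ := c2 h𝔏 s hA
    exact ⟨a, ha, h, fun t ht => absurd ht (Finset.notMem_empty _)⟩
  | insert t T htT ih =>
    intro A hA
    have hsT : s ∉ T := fun h => hT (Finset.mem_insert_of_mem h)
    have hst : s ≠ t := fun h => hT (h ▸ Finset.mem_insert_self _ _)
    have ih' := @ih hsT
    obtain ⟨B, C, B', C', hB, hC, hB', hC', hdec⟩ := two_comm hA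
    obtain ⟨b, hb, hbs, hbT⟩ := ih' hB
    obtain ⟨b', hb', hbs', hbT'⟩ := ih' hB'
    obtain ⟨c, hc, hcs, hct⟩ := pair h𝔏 hst hC
    obtain ⟨c', hc', hcs', hct'⟩ := pair h𝔏 hst hC'
    refine ⟨br b c + br b' c', 𝔏.add_mem (h𝔏.br_mem b hb c hc) (h𝔏.br_mem b' hb' c' hc'), ?_, ?_⟩
    · rw [map_add, pr_br, pr_br, hbs, hcs, hbs', hcs', hdec]
    · intro t' ht'
      rw [map_add, pr_br, pr_br]
      rcases Finset.mem_insert.1 ht' with rfl | ht'
      · rw [hct, hct']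
        simp
      · rw [hbT t' ht', hbT' t' ht']
        simp

/-- Step 3. -/
theorem single_mem (s : S) {A : M2 K} (hA : A.trace = 0) :
    ∃ a ∈ 𝔏, a.1 = 0 ∧ a.2.1 = Pi.single s A := by
  obtain ⟨a, ha, h1, h2⟩ := multi h𝔏 s (Finset.univ.erase s) (Finset.notMem_erase _ _) hA
  refine ⟨a, ha, x_zero h𝔏 ha (s := s) (by rw [h1, hA]), ?_⟩
  ext1 t
  by_cases hts : t = s
  · subst hts
    rw [Pi.single_eq_same]
    exact h1
  · rw [Pi.single_eq_of_ne hts]
    exact h2 t (Finset.mem_erase.2 ⟨hts, Finset.mem_univ _⟩)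

/-- Step 4: a lift of the central element. -/
theorem exists_zeta : ∃ ζ ∈ 𝔏, ζ.1 = 2 ∧ ζ.2.1 = fun _ => 1 := by
  obtain ⟨a, ha, hx⟩ := h𝔏.A3
  have h1 := 𝔏.smul_mem (2 * a.1⁻¹) ha
  set b := (2 * a.1⁻¹) • a with hb
  have hb1 : b.1 = 2 := by
    rw [hb, Prod.smul_fst, smul_eq_mul, mul_assoc, inv_mul_cancel₀ hx, mul_one]
  have hbt : ∀ s, (1 - b.2.1 s).trace = 0 := by
    intro s
    rw [Matrix.trace_sub, h𝔏.tr_eq b h1 s, hb1, Matrix.trace_one, Fintype.card_fin]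
    push_cast
    ring
  choose c hc hc1 hc2 using fun s => single_mem h𝔏 s (hbt s)
  refine ⟨b + ∑ s, c s, 𝔏.add_mem h1 (𝔏.sum_mem fun s _ => hc s), ?_, ?_⟩
  · rw [Prod.fst_add, Prod.fst_sum, Finset.sum_eq_zero (fun s _ => hc1 s), add_zero, hb1]
  · ext1 t
    rw [Prod.snd_add, Prod.fst_add, Pi.add_apply]
    have h2 : (∑ s, c s).2.1 t = ∑ s, (c s).2.1 t := by
      have := map_sum (pr t : Tup K I S (J ⊕ Λ) →ₗ[K] M2 K) c Finset.univ
      exact this
    rw [h2, Finset.sum_eq_single t]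
    · rw [hc2 t, Pi.single_eq_same]
      abel
    · intro s _ hst
      rw [hc2 s, Pi.single_eq_of_ne (Ne.symm hst)]
    · intro h
      exact absurd (Finset.mem_univ _) h

end

end Pool.Agent.W519.M
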