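import Mathlib
import Pool.Agent.W519.M.Lie

/-!
# The unipotent radical
-/

set_option linter.unusedSectionVars false

namespace Pool.Agent.W519.M

open Matrix

variable {K : Type} [Field K] {I S J Λ W : Type} [Fintype I] [Fintype S] [Fintype J] [Fintype Λ]
  [Fintype W] [DecidableEq I] [DecidableEq S] [DecidableEq J] [DecidableEq Λ] [DecidableEq W]

/-- All the vectors in the slots. -/
def wvl : Tup K I S (J ⊕ Λ) →ₗ[K] (S → I ⊕ J → Fin 2 → K) where
  toFun a := fun s m => wv a s m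
  map_add' a b := by
    funext s m
    exact wv_add a b s m
  map_smul' c a := by
    funext s m
    exact wv_smul c a s m

theorem wvl_apply (a : Tup K I S (J ⊕ Λ)) (s : S) (m : I ⊕ J) : wvl a s m = wv a s m := rfl

/-- The unipotent elements. -/
def unipS : Submodule K (Tup K I S W) :=
  LinearMap.ker (LinearMap.fst K K _) ⊓ LinearMap.ker (LinearMap.fst K _ _ ∘ₗ LinearMap.snd K _ _)

theorem mem_unipS {a : Tup K I S W} : a ∈ (unipS : Submodule K (Tup K I S W)) ↔
    a.1 = 0 ∧ a.2.1 = 0 := Iff.rfl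

/-- The vector in the slot `s` all of whose entries are multiples of a basis vector. -/
def Lr (r : Fin 2) (s : S) (y : I ⊕ J → K) : S → I ⊕ J → Fin 2 → K :=
  Pi.single s fun m => Pi.single r (y m)

theorem Lr_add (r : Fin 2) (s : S) (y y' : I ⊕ J → K) : Lr r s (y + y') = Lr r s y + Lr r s y' := by
  unfold Lr
  rw [← Pi.single_add]
  congr 1
  funext m
  rw [Pi.add_apply, Pi.single_add, Pi.add_apply]

theorem Lr_smul (r : Fin 2) (s : S) (c : K) (y : I ⊕ J → K) : Lr r s (c • y) = c • Lr r s y := by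
  unfold Lr
  rw [← Pi.single_smul]
  congr 1
  funext m
  rw [Pi.smul_apply, Pi.single_smul, Pi.smul_apply]

section

variable [IsAlgClosed K] [CharZero K] {𝔏 : Submodule K (Tup K I S (J ⊕ Λ))} (h𝔏 : LieSys 𝔏)

/-- The vectors of the unipotent elements. -/
def WW (𝔏 : Submodule K (Tup K I S (J ⊕ Λ))) : Submodule K (S → I ⊕ J → Fin 2 → K) :=
  (𝔏 ⊓ unipS).map wvl

include h𝔏

theorem WW_stable {w : S → I ⊕ J → Fin 2 → K} (hw : w ∈ WW 𝔏) (s : S) {A : M2 K}
    (hA : A.trace = 0) : (Pi.single s fun m => A.mulVec (w s m)) ∈ WW 𝔏 := by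
  obtain ⟨b, ⟨hb, hb1, hb2⟩, rfl⟩ := hw
  obtain ⟨a, ha, ha1, ha2⟩ := single_mem h𝔏 s hA
  change b.1 = 0 at hb1
  change b.2.1 = 0 at hb2
  refine ⟨br a b, ⟨h𝔏.br_mem a ha b hb, ?_⟩, ?_⟩
  · refine mem_unipS.2 ⟨rfl, ?_⟩
    funext t
    change a.2.1 t * b.2.1 t - b.2.1 t * a.2.1 t = 0
    rw [hb2, Pi.zero_apply, mul_zero, zero_mul, sub_zero]
  · funext t m
    rw [wvl_apply, wv_br (h𝔏.tr_eq a ha t) (h𝔏.tr_eq b hb t), hb2, Pi.zero_apply,
      Matrix.zero_mulVec, sub_zero, ha2]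
    by_cases hts : t = s
    · subst hts
      rw [Pi.single_eq_same, Pi.single_eq_same, wvl_apply]
    · rw [Pi.single_eq_of_ne hts, Pi.single_eq_of_ne hts, Matrix.zero_mulVec, Pi.zero_apply]

theorem WW_top : WW 𝔏 = ⊤ := by
  obtain ⟨ζ, hζ, hζ1, hζ2⟩ := exists_zeta h𝔏
  -- brackets with `ζ`
  have hbz : ∀ a ∈ 𝔏, (fun s m => wv a s m - (a.2.1 s).mulVec (wv ζ s m)) ∈ WW 𝔏 := by
    intro a ha
    refine ⟨br ζ a, ⟨h𝔏.br_mem ζ hζ a ha, ?_⟩, ?_⟩
    · refine mem_unipS.2 ⟨rfl, ?_⟩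
      funext t
      change ζ.2.1 t * a.2.1 t - a.2.1 t * ζ.2.1 t = 0
      rw [hζ2, one_mul, mul_one, sub_self]
    · funext t m
      rw [wvl_apply, wv_br (h𝔏.tr_eq ζ hζ t) (h𝔏.tr_eq a ha t), hζ2, Matrix.one_mulVec]
  have hE : ∀ w ∈ WW 𝔏, ∀ s : S, Lr 0 s (fun m => w s m 1) ∈ WW 𝔏 := by
    intro w hw s
    have h1 := WW_stable h𝔏 hw s (A := eE) trE
    convert h1 using 1
    unfold Lr
    congr 1
    funext m r
    fin_cases r <;> simp [eE, Matrix.mulVec, dotProduct, Fin.sum_univ_two]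
  have hFE : ∀ w ∈ WW 𝔏, ∀ s : S, Lr 0 s (fun m => w s m 0) ∈ WW 𝔏 := by
    intro w hw s
    have h1 := hE _ (WW_stable h𝔏 hw s (A := eF) trF) s
    convert h1 using 1
    congr 1
    funext m
    rw [Pi.single_eq_same]
    simp [eF, Matrix.mulVec, dotProduct, Fin.sum_univ_two]
  have hF : ∀ (s : S) (y : I ⊕ J → K), Lr 0 s y ∈ WW 𝔏 → Lr 1 s y ∈ WW 𝔏 := by
    intro s y hy
    have h1 := WW_stable h𝔏 hy s (A := eF) trF
    convert h1 using 1
    unfold Lr
    congr 1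
    funext m r
    rw [Pi.single_eq_same]
    fin_cases r <;> simp [eF, Matrix.mulVec, dotProduct, Fin.sum_univ_two]
  have hT : ∀ (s : S) (y : I ⊕ J → K), Lr 0 s y ∈ WW 𝔏 := by
    intro s
    let T : Submodule K (I ⊕ J → K) :=
      { carrier := {y | Lr 0 s y ∈ WW 𝔏}
        add_mem' := fun {a b} ha hb => by
          change Lr 0 s (a + b) ∈ WW 𝔏
          rw [Lr_add]
          exact Submodule.add_mem _ ha hb
        zero_mem' := by
          change Lr 0 s 0 ∈ WW 𝔏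
          have : Lr (K := K) (I := I) (J := J) 0 s 0 = 0 := by
            have := Lr_smul (K := K) (I := I) (J := J) 0 s 0 0
            rw [zero_smul, zero_smul] at this
            exact this
          rw [this]
          exact Submodule.zero_mem _
        smul_mem' := fun c y hy => by
          change Lr 0 s (c • y) ∈ WW 𝔏
          rw [Lr_smul]
          exact Submodule.smul_mem _ _ hy }
    have hTtop : T = ⊤ := by
      by_contra hne
      obtain ⟨φ, hφ0, hφ⟩ := Submodule.exists_le_ker_of_lt_top _ (lt_top_iff_ne_top.2 hne)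
      have hφs : ∀ y, φ y = ∑ m, φ (Pi.single m 1) * y m := by
        intro y
        conv_lhs => rw [← Finset.univ_sum_single y]
        rw [map_sum]
        refine Finset.sum_congr rfl fun m _ => ?_
        have : (Pi.single m (y m) : I ⊕ J → K) = y m • Pi.single m 1 := by
          rw [← Pi.single_smul, smul_eq_mul, mul_one]
        rw [this, map_smul, smul_eq_mul, mul_comm]
      have hc0 : (fun m => φ (Pi.single m 1)) ≠ 0 := by
        intro h0
        apply hφ0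
        ext m
        have := congrFun h0 m
        simpa using this
      obtain ⟨a, ha, hneq⟩ := h𝔏.A4 s _ hc0 (∑ m, φ (Pi.single m 1) • wv ζ s m)
      apply hneq
      have hw := hbz a ha
      have h0 : φ (fun m => (wv a s m - (a.2.1 s).mulVec (wv ζ s m)) 0) = 0 :=
        hφ (hFE _ hw s)
      have h1 : φ (fun m => (wv a s m - (a.2.1 s).mulVec (wv ζ s m)) 1) = 0 :=
        hφ (hE _ hw s)
      rw [hφs] at h0 h1
      rw [Matrix.mulVec_sum]
      simp only [Matrix.mulVec_smul]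
      rw [← sub_eq_zero, ← Finset.sum_sub_distrib]
      funext r
      rw [Finset.sum_apply, Pi.zero_apply]
      fin_cases r
      · rw [← h0]
        refine Finset.sum_congr rfl fun m _ => ?_
        simp only [Fin.zero_eta, Pi.sub_apply, Pi.smul_apply, smul_eq_mul]
        ring
      · rw [← h1]
        refine Finset.sum_congr rfl fun m _ => ?_
        simp only [Fin.mk_one, Pi.sub_apply, Pi.smul_apply, smul_eq_mul]
        ring
    intro y
    have : y ∈ T := by rw [hTtop]; trivial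
    exact this
  rw [eq_top_iff]
  intro w _
  have hw : w = ∑ s, (Lr 0 s (fun m => w s m 0) + Lr 1 s (fun m => w s m 1)) := by
    funext t m r
    rw [Finset.sum_apply, Finset.sum_eq_single t]
    · unfold Lr
      rw [Pi.add_apply, Pi.single_eq_same, Pi.single_eq_same]
      fin_cases r <;> simp
    · intro s _ hst
      unfold Lr
      rw [Pi.add_apply, Pi.single_eq_of_ne (Ne.symm hst), Pi.single_eq_of_ne (Ne.symm hst),
        add_zero]
    · intro h
      exact absurd (Finset.mem_univ _) h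
  rw [hw]
  exact Submodule.sum_mem _ fun s _ => Submodule.add_mem _ (hT s _) (hF s _ (hT s _))

theorem exists_qu (q : Matrix I (Fin 2 × S) K) (u : Matrix (Fin 2 × S) (J ⊕ Λ) K)
    (hu : ∀ v l, u v (Sum.inr l) = 0) :
    ∃ b ∈ 𝔏, b.1 = 0 ∧ b.2.1 = 0 ∧ b.2.2.1 = q ∧ b.2.2.2.1 = u := by
  have h1 : wvl ((0, 0, q, u, 0) : Tup K I S (J ⊕ Λ)) ∈ WW 𝔏 := by
    rw [WW_top h𝔏]; trivial
  obtain ⟨b, ⟨hb, hb1, hb2⟩, hw⟩ := h1
  refine ⟨b, hb, hb1, hb2, ?_, ?_⟩
  · ext i ⟨r, s⟩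
    have h2 := congrFun (congrFun hw s) (Sum.inl i)
    rw [wvl_apply, wvl_apply] at h2
    simp only [wv] at h2
    fin_cases r
    · have h3 := congrFun h2 1
      simpa using h3
    · have h3 := congrFun h2 0
      simpa using h3
  · ext ⟨r, s⟩ w
    rcases w with j | l
    · have h2 := congrFun (congrFun hw s) (Sum.inr j)
      rw [wvl_apply, wvl_apply] at h2
      exact congrFun h2 r
    · rw [h𝔏.u_zero b hb, hu]

/-- The elements with only a `z`-part. -/
def zel : Matrix I W K →ₗ[K] Tup K I S W :=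
  LinearMap.inr K _ _ ∘ₗ LinearMap.inr K _ _ ∘ₗ LinearMap.inr K _ _ ∘ₗ LinearMap.inr K _ _

omit h𝔏 in
theorem zel_apply (z : Matrix I W K) : (zel z : Tup K I S W) = (0, 0, 0, 0, z) := rfl

theorem zel_J [Nonempty S] (i : I) (j : J) :
    (zel (Matrix.single i (Sum.inl j) 1) : Tup K I S (J ⊕ Λ)) ∈ 𝔏 := by
  obtain ⟨s₀⟩ := ‹Nonempty S›
  obtain ⟨b, hb, hb1, hb2, hb3, hb4⟩ := exists_qu h𝔏
    (Matrix.single i ((0 : Fin 2), s₀) 1) 0 (fun _ _ => rfl)
  obtain ⟨c, hc, hc1, hc2, hc3, hc4⟩ := exists_qu h𝔏 0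
    (Matrix.single ((0 : Fin 2), s₀) (Sum.inl j) 1) (fun v l => by
      rw [Matrix.single_apply_of_ne]
      rintro ⟨_, h⟩
      exact absurd h (by simp))
  have h1 := h𝔏.br_mem b hb c hc
  have h2 : br b c = (zel (Matrix.single i (Sum.inl j) 1) : Tup K I S (J ⊕ Λ)) := by
    rw [zel_apply]
    unfold br
    rw [hb1, hb2, hb3, hb4, hc1, hc2, hc3, hc4]
    ext1
    · rfl
    ext1
    · funext s
      simp
    ext1
    · simp [blockDiagonal_zero]
    ext1
    · simp [blockDiagonal_zero]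
    · simp
  rwa [h2] at h1

theorem zel_J' [Nonempty S] (z : Matrix I (J ⊕ Λ) K) (hz : ∀ i l, z i (Sum.inr l) = 0) :
    (zel z : Tup K I S (J ⊕ Λ)) ∈ 𝔏 := by
  have h1 : z = ∑ i, ∑ j, z i (Sum.inl j) • Matrix.single i (Sum.inl j) 1 := by
    conv_lhs => rw [Matrix.matrix_eq_sum_single z]
    refine Finset.sum_congr rfl fun i _ => ?_
    rw [Fintype.sum_sum_type]
    have h2 : ∑ l : Λ, (Matrix.single i (Sum.inr l) (z i (Sum.inr l)) :
        Matrix I (J ⊕ Λ) K) = 0 := by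
      refine Finset.sum_eq_zero fun l _ => ?_
      rw [hz, Matrix.single_zero]
    rw [h2, add_zero]
    refine Finset.sum_congr rfl fun j _ => ?_
    rw [Matrix.smul_single, smul_eq_mul, mul_one]
  rw [h1, map_sum]
  refine 𝔏.sum_mem fun i _ => ?_
  rw [map_sum]
  refine 𝔏.sum_mem fun j _ => ?_
  rw [map_smul]
  exact 𝔏.smul_mem _ (zel_J h𝔏 i j)

theorem qu_mem [Nonempty S] (q : Matrix I (Fin 2 × S) K) (u : Matrix (Fin 2 × S) (J ⊕ Λ) K)
    (hu : ∀ v l, u v (Sum.inr l) = 0) : ((0, 0, q, u, 0) : Tup K I S (J ⊕ Λ)) ∈ 𝔏 := by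
  obtain ⟨ζ, hζ, hζ1, hζ2⟩ := exists_zeta h𝔏
  obtain ⟨b, hb, hb1, hb2, hb3, hb4⟩ := exists_qu h𝔏 q u hu
  have h1 : (2 : K) • b - br ζ b ∈ 𝔏 :=
    𝔏.sub_mem (𝔏.smul_mem _ hb) (h𝔏.br_mem ζ hζ b hb)
  have hbd : blockDiagonal (fun _ : S => (1 : M2 K)) = 1 := blockDiagonal_one
  have h2 : (2 : K) • b - br ζ b = ((0, 0, q, u, q * ζ.2.2.2.1 - ζ.2.2.1 * u) :
      Tup K I S (J ⊕ Λ)) := by
    unfold br
    rw [hb1, hb2, hb3, hb4, hζ1, hζ2, hbd]
    ext1
    · simp [hb1]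
    ext1
    · funext s
      simp [hb2]
    ext1
    · simp [blockDiagonal_zero, hb3, two_smul]
    ext1
    · simp [blockDiagonal_zero, hb4, two_smul]
    · simp
      abel
  rw [h2] at h1
  have h3 := zel_J' h𝔏 (q * ζ.2.2.2.1 - ζ.2.2.1 * u) (by
    intro i l
    rw [Matrix.sub_apply, Matrix.mul_apply, Matrix.mul_apply, Finset.sum_eq_zero, Finset.sum_eq_zero,
      sub_zero]
    · intro v _
      rw [hu, mul_zero]
    · intro v _
      rw [h𝔏.u_zero ζ hζ, mul_zero])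
  have h4 := 𝔏.sub_mem h1 h3
  rw [zel_apply] at h4
  convert h4 using 1
  ext1
  · simp
  ext1
  · simp
  ext1
  · simp
  ext1
  · simp
  · simp

/-- The matrices supported on the columns of `Λ`. -/
def zL (y : I × Λ → K) : Matrix I (J ⊕ Λ) K :=
  Matrix.of fun i w => Sum.elim (fun _ => 0) (fun l => y (i, l)) w

theorem zL_mem [Nonempty S] (y : I × Λ → K) : (zel (zL y) : Tup K I S (J ⊕ Λ)) ∈ 𝔏 := by
  obtain ⟨ζ, hζ, hζ1, hζ2⟩ := exists_zeta h𝔏
  have hbd : blockDiagonal (fun _ : S => (1 : M2 K)) = 1 := blockDiagonal_one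
  -- brackets with `ζ`
  have hbz : ∀ a ∈ 𝔏, (zel (zL fun m => 2 * a.2.2.2.2 m.1 (Sum.inr m.2) -
      a.1 * ζ.2.2.2.2 m.1 (Sum.inr m.2)) : Tup K I S (J ⊕ Λ)) ∈ 𝔏 := by
    intro a ha
    have h1 := h𝔏.br_mem ζ hζ a ha
    have h2 := qu_mem h𝔏 (br ζ a).2.2.1 (br ζ a).2.2.2.1 (h𝔏.u_zero _ h1)
    have h3 := 𝔏.sub_mem h1 h2
    have h4 : br ζ a - ((0, 0, (br ζ a).2.2.1, (br ζ a).2.2.2.1, 0) : Tup K I S (J ⊕ Λ)) =
        zel (br ζ a).2.2.2.2 := by
      rw [zel_apply]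
      ext1
      · simp [br]
      ext1
      · funext t
        have h5 : (br ζ a).2.1 t = ζ.2.1 t * a.2.1 t - a.2.1 t * ζ.2.1 t := rfl
        rw [hζ2, one_mul, mul_one, sub_self] at h5
        simp [h5]
      ext1
      · simp
      ext1
      · simp
      · simp
    rw [h4] at h3
    have h5 : zL (K := K) (I := I) (J := J) (Λ := Λ) (fun m => 2 * a.2.2.2.2 m.1 (Sum.inr m.2) -
      a.1 * ζ.2.2.2.2 m.1 (Sum.inr m.2)) = (br ζ a).2.2.2.2 -
      Matrix.of (fun i w => Sum.elim (fun j => (br ζ a).2.2.2.2 i (Sum.inl j)) (fun _ => 0) w) := by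
      ext i w
      rcases w with j | l
      · simp [zL]
      · simp only [zL, Matrix.of_apply, Sum.elim_inr, Matrix.sub_apply, sub_zero]
        have e1 : (ζ.2.2.1 * a.2.2.2.1) i (Sum.inr l) = 0 := by
          rw [Matrix.mul_apply]
          exact Finset.sum_eq_zero fun v _ => by rw [h𝔏.u_zero a ha, mul_zero]
        have e2 : (a.2.2.1 * ζ.2.2.2.1) i (Sum.inr l) = 0 := by
          rw [Matrix.mul_apply]
          exact Finset.sum_eq_zero fun v _ => by rw [h𝔏.u_zero ζ hζ, mul_zero]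
        simp only [br, Matrix.sub_apply, Matrix.add_apply, Matrix.smul_apply, smul_eq_mul, e1, e2,
          hζ1]
        ring
    rw [h5, map_sub]
    refine 𝔏.sub_mem h3 (zel_J' h𝔏 _ ?_)
    intro i l
    simp
  let T : Submodule K (I × Λ → K) :=
    { carrier := {y | (zel (zL y) : Tup K I S (J ⊕ Λ)) ∈ 𝔏}
      add_mem' := fun {a b} ha hb => by
        change (zel (zL (a + b)) : Tup K I S (J ⊕ Λ)) ∈ 𝔏
        have : zL (K := K) (J := J) (a + b) = zL a + zL b := by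
          ext i w
          rcases w with j | l <;> simp [zL]
        rw [this, map_add]
        exact Submodule.add_mem _ ha hb
      zero_mem' := by
        change (zel (zL 0) : Tup K I S (J ⊕ Λ)) ∈ 𝔏
        have : zL (K := K) (J := J) (0 : I × Λ → K) = 0 := by
          ext i w
          rcases w with j | l <;> simp [zL]
        rw [this, map_zero]
        exact Submodule.zero_mem _
      smul_mem' := fun c y hy => by
        change (zel (zL (c • y)) : Tup K I S (J ⊕ Λ)) ∈ 𝔏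
        have : zL (K := K) (J := J) (c • y) = c • zL y := by
          ext i w
          rcases w with j | l <;> simp [zL]
        rw [this, map_smul]
        exact Submodule.smul_mem _ _ hy }
  have hTtop : T = ⊤ := by
    by_contra hne
    obtain ⟨φ, hφ0, hφ⟩ := Submodule.exists_le_ker_of_lt_top _ (lt_top_iff_ne_top.2 hne)
    have hφs : ∀ y, φ y = ∑ m, φ (Pi.single m 1) * y m := by
      intro y
      conv_lhs => rw [← Finset.univ_sum_single y]
      rw [map_sum]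
      refine Finset.sum_congr rfl fun m _ => ?_
      have : (Pi.single m (y m) : I × Λ → K) = y m • Pi.single m 1 := by
        rw [← Pi.single_smul, smul_eq_mul, mul_one]
      rw [this, map_smul, smul_eq_mul, mul_comm]
    have hc0 : (fun m => φ (Pi.single m 1)) ≠ 0 := by
      intro h0
      apply hφ0
      ext m
      have := congrFun h0 m
      simpa using this
    obtain ⟨a, ha, hneq⟩ := h𝔏.A5 _ hc0
      ((2 : K)⁻¹ * ∑ m, φ (Pi.single m 1) * ζ.2.2.2.2 m.1 (Sum.inr m.2))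
    apply hneq
    have h0 : φ (fun m => 2 * a.2.2.2.2 m.1 (Sum.inr m.2) -
      a.1 * ζ.2.2.2.2 m.1 (Sum.inr m.2)) = 0 := hφ (hbz a ha)
    rw [hφs] at h0
    have h1 : (2 : K) * ∑ m, φ (Pi.single m 1) * a.2.2.2.2 m.1 (Sum.inr m.2) -
        a.1 * ∑ m, φ (Pi.single m 1) * ζ.2.2.2.2 m.1 (Sum.inr m.2) = 0 := by
      rw [← h0, Finset.mul_sum, Finset.mul_sum, ← Finset.sum_sub_distrib]
      refine Finset.sum_congr rfl fun m _ => ?_
      ring
    have h2 : (2 : K)⁻¹ * 2 = 1 := inv_mul_cancel₀ two_ne_zero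
    have h3 := sub_eq_zero.1 h1
    calc ∑ m, φ (Pi.single m 1) * a.2.2.2.2 m.1 (Sum.inr m.2)
        = (2 : K)⁻¹ * (2 * ∑ m, φ (Pi.single m 1) * a.2.2.2.2 m.1 (Sum.inr m.2)) := by
          rw [← mul_assoc, h2, one_mul]
      _ = _ := by
          rw [h3]
          ring
  have : y ∈ T := by rw [hTtop]; trivial
  exact this

/-- The Lie algebra is as large as possible. -/
theorem lie_full [Nonempty S] (a : Tup K I S (J ⊕ Λ)) (htr : ∀ s, (a.2.1 s).trace = a.1)
    (hu : ∀ v l, a.2.2.2.1 v (Sum.inr l) = 0) : a ∈ 𝔏 := by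
  obtain ⟨ζ, hζ, hζ1, hζ2⟩ := exists_zeta h𝔏
  have hbt : ∀ s, (a.2.1 s - (a.1 * (2 : K)⁻¹) • (1 : M2 K)).trace = 0 := by
    intro s
    rw [Matrix.trace_sub, htr, Matrix.trace_smul, Matrix.trace_one, Fintype.card_fin, smul_eq_mul]
    push_cast
    rw [mul_assoc, inv_mul_cancel₀ two_ne_zero, mul_one, sub_self]
  choose c hc hc1 hc2 using fun s => single_mem h𝔏 s (hbt s)
  set d := (a.1 * (2 : K)⁻¹) • ζ + ∑ s, c s with hd
  have hdm : d ∈ 𝔏 := 𝔏.add_mem (𝔏.smul_mem _ hζ) (𝔏.sum_mem fun s _ => hc s)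
  have hd1 : d.1 = a.1 := by
    rw [hd, Prod.fst_add, Prod.fst_sum, Finset.sum_eq_zero (fun s _ => hc1 s), add_zero,
      Prod.smul_fst, hζ1, smul_eq_mul, mul_assoc, inv_mul_cancel₀ two_ne_zero, mul_one]
  have hd2 : d.2.1 = a.2.1 := by
    funext t
    rw [hd, Prod.snd_add, Prod.fst_add, Pi.add_apply]
    have h2 : (∑ s, c s).2.1 t = ∑ s, (c s).2.1 t := by
      have := map_sum (pr t : Tup K I S (J ⊕ Λ) →ₗ[K] M2 K) c Finset.univ
      exact this
    rw [h2, Finset.sum_eq_single t]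
    · rw [hc2 t, Pi.single_eq_same]
      have h3 : ((a.1 * (2 : K)⁻¹) • ζ).2.1 t = (a.1 * (2 : K)⁻¹) • (1 : M2 K) := by
        rw [Prod.smul_snd, Prod.smul_fst, Pi.smul_apply, hζ2]
      rw [h3]
      abel
    · intro s _ hst
      rw [hc2 s, Pi.single_eq_of_ne (Ne.symm hst)]
    · intro h
      exact absurd (Finset.mem_univ _) h
  have hz : ∀ z : Matrix I (J ⊕ Λ) K, (zel z : Tup K I S (J ⊕ Λ)) ∈ 𝔏 := by
    intro z
    have h1 : z = (Matrix.of fun i w => Sum.elim (fun j => z i (Sum.inl j)) (fun _ => 0) w) +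
        zL (fun m => z m.1 (Sum.inr m.2)) := by
      ext i w
      rcases w with j | l <;> simp [zL]
    rw [h1, map_add]
    refine 𝔏.add_mem (zel_J' h𝔏 _ ?_) (zL_mem h𝔏 _)
    intro i l
    simp
  have h1 := qu_mem h𝔏 (a.2.2.1 - d.2.2.1) (a.2.2.2.1 - d.2.2.2.1) (by
    intro v l
    rw [Matrix.sub_apply, hu, h𝔏.u_zero d hdm, sub_zero])
  have h2 := 𝔏.add_mem (𝔏.add_mem hdm h1) (hz (a.2.2.2.2 - d.2.2.2.2))
  rw [zel_apply] at h2
  convert h2 using 1
  ext1
  · simp [hd1]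
  ext1
  · simp [hd2]
  ext1
  · simp
  ext1
  · simp
  · simp

end

end Pool.Agent.W519.M
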