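import Mathlib
import Pool.Agent.W519.M.Lie2
import Pool.Agent.W519.M.Exp

/-!
# Block matrices
-/

set_option linter.unusedSectionVars false

namespace Pool.Agent.W519.M

open Matrix

variable {I S J Λ W : Type} [Fintype I] [Fintype S] [Fintype J] [Fintype Λ]
  [Fintype W] [DecidableEq I] [DecidableEq S] [DecidableEq J] [DecidableEq Λ] [DecidableEq W]

section

variable {R : Type} [CommRing R]

theorem mat_mul (d : R) (h : S → M2 R) (q : Matrix I (Fin 2 × S) R)
    (u : Matrix (Fin 2 × S) W R) (z : Matrix I W R) (e : R) (d' : R) (h' : S → M2 R)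
    (q' : Matrix I (Fin 2 × S) R) (u' : Matrix (Fin 2 × S) W R) (z' : Matrix I W R) (e' : R) :
    mat d h q u z e * mat d' h' q' u' z' e' =
      mat (d * d') (fun s => h s * h' s) (d • q' + q * blockDiagonal h')
        (blockDiagonal h * u' + e' • u) (d • z' + (q * u' + e' • z)) (e * e') := by
  unfold mat
  rw [fromBlocks_multiply, fromBlocks_multiply, fromCols_mul_fromBlocks]
  simp only [Matrix.mul_zero, Matrix.zero_mul, Matrix.smul_mul, Matrix.mul_smul, Matrix.one_mul,
    Matrix.mul_one, smul_smul, smul_zero, add_zero, zero_add]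
  have h1 : d • fromCols q' z' + fromCols (q * blockDiagonal h') (q * u' + e' • z) =
      fromCols (d • q' + q * blockDiagonal h') (d • z' + (q * u' + e' • z)) := by
    ext i v
    rcases v with v | w <;> simp
  have h2 : blockDiagonal h * blockDiagonal h' = blockDiagonal fun s => h s * h' s := by
    rw [blockDiagonal_mul]
  rw [h1, h2, mul_comm d' d, mul_comm e' e]

theorem mat_add (d : R) (h : S → M2 R) (q : Matrix I (Fin 2 × S) R)
    (u : Matrix (Fin 2 × S) W R) (z : Matrix I W R) (e : R) (d' : R) (h' : S → M2 R)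
    (q' : Matrix I (Fin 2 × S) R) (u' : Matrix (Fin 2 × S) W R) (z' : Matrix I W R) (e' : R) :
    mat d h q u z e + mat d' h' q' u' z' e' =
      mat (d + d') (h + h') (q + q') (u + u') (z + z') (e + e') := by
  unfold mat
  rw [fromBlocks_add, fromBlocks_add, blockDiagonal_add, add_smul, add_smul]
  simp only [add_zero]
  congr 1
  ext i v
  rcases v with v | w <;> simp

theorem mat_smul (c : R) (d : R) (h : S → M2 R) (q : Matrix I (Fin 2 × S) R)
    (u : Matrix (Fin 2 × S) W R) (z : Matrix I W R) (e : R) :
    c • mat d h q u z e = mat (c * d) (c • h) (c • q) (c • u) (c • z) (c * e) := by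
  unfold mat
  rw [fromBlocks_smul, fromBlocks_smul, blockDiagonal_smul, smul_smul, smul_smul]
  simp only [smul_zero]
  congr 1
  ext i v
  rcases v with v | w <;> simp

theorem mat_sub (d : R) (h : S → M2 R) (q : Matrix I (Fin 2 × S) R)
    (u : Matrix (Fin 2 × S) W R) (z : Matrix I W R) (e : R) (d' : R) (h' : S → M2 R)
    (q' : Matrix I (Fin 2 × S) R) (u' : Matrix (Fin 2 × S) W R) (z' : Matrix I W R) (e' : R) :
    mat d h q u z e - mat d' h' q' u' z' e' =
      mat (d - d') (h - h') (q - q') (u - u') (z - z') (e - e') := by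
  have h1 : mat d h q u z e = mat (d - d') (h - h') (q - q') (u - u') (z - z') (e - e') +
      mat d' h' q' u' z' e' := by
    rw [mat_add]
    simp only [sub_add_cancel]
  rw [h1, add_sub_cancel_right]

theorem mat_one : mat (1 : R) (fun _ => 1) (0 : Matrix I (Fin 2 × S) R) 0 (0 : Matrix I W R) 1 =
    1 := by
  unfold mat
  have h1 : blockDiagonal (fun _ : S => (1 : M2 R)) = 1 := blockDiagonal_one
  rw [h1, one_smul, one_smul, fromBlocks_one]
  have : fromCols (0 : Matrix I (Fin 2 × S) R) (0 : Matrix I W R) = 0 := by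
    ext i v
    rcases v with v | w <;> simp
  rw [this, fromBlocks_one]

theorem mat_map {R' : Type} [CommRing R'] (φ : R → R') (h0 : φ 0 = 0)
    (d : R) (h : S → M2 R) (q : Matrix I (Fin 2 × S) R)
    (u : Matrix (Fin 2 × S) W R) (z : Matrix I W R) (e : R) :
    (mat d h q u z e).map φ = mat (φ d) (fun s => (h s).map φ) (q.map φ) (u.map φ) (z.map φ)
      (φ e) := by
  ext a b
  rcases a with i | v | w
  · rcases b with i' | v' | w'
    · by_cases hi : i = i'
      · subst hi; simp [mat]
      · simp [mat, Matrix.one_apply_ne hi, h0]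
    · simp [mat]
    · simp [mat]
  · rcases b with i' | v' | w'
    · simp [mat, h0]
    · simp only [mat, Matrix.map_apply, fromBlocks_apply₂₂, fromBlocks_apply₁₁]
      rw [blockDiagonal_apply, blockDiagonal_apply]
      by_cases hv : v.2 = v'.2
      · rw [if_pos hv, if_pos hv, Matrix.map_apply]
      · rw [if_neg hv, if_neg hv, h0]
    · simp [mat]
  · rcases b with i' | v' | w'
    · simp [mat, h0]
    · simp [mat, h0]
    · by_cases hi : w = w'
      · subst hi; simp [mat]
      · simp [mat, Matrix.one_apply_ne hi, h0]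

end

end Pool.Agent.W519.M
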