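import Mathlib
import Pool.Agent.W519.M.Mat

/-!
# The Lie algebra generated by the logarithmic derivatives of the period matrix
-/

set_option linter.unusedSectionVars false

namespace Pool.Agent.W519.M

open Matrix

variable {K : Type} [Field K] [IsAlgClosed K] [CharZero K] [Algebra K ℂ]
variable {I S J Λ W : Type} [Fintype I] [Fintype S] [Fintype J] [Fintype Λ]
  [Fintype W] [DecidableEq I] [DecidableEq S] [DecidableEq J] [DecidableEq Λ] [DecidableEq W]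

theorem rel {p : ℂ} {g : S → M2 ℂ} {ξ : Matrix I (Fin 2 × S) ℂ}
    {U : Matrix (Fin 2 × S) J ℂ} {lg : Matrix I Λ ℂ} (hlin : LinearIndependent K (fam p g ξ U lg))
    (c0 cp : K) (cl : I × Λ → K) (cg : S → M2 K) (cu : Fin 2 × S → J → K)
    (cr : I → Fin 2 × S → K)
    (h : algebraMap K ℂ c0 + algebraMap K ℂ cp * p + ∑ x : I × Λ, algebraMap K ℂ (cl x) * lg x.1 x.2 +
      ∑ s, ∑ a, ∑ b, algebraMap K ℂ (cg s a b) * g s a b +
      ∑ v, ∑ j, algebraMap K ℂ (cu v j) * U v j +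
      ∑ i, ∑ v, algebraMap K ℂ (cr i v) * rho g ξ i v = 0) :
    c0 = 0 ∧ cp = 0 ∧ cl = 0 ∧ cg = 0 ∧ cu = 0 ∧ cr = 0 := by
  rw [Fintype.linearIndependent_iff] at hlin
  have h1 := hlin (Sum.elim (fun _ => c0) (Sum.elim (fun _ => cp) (Sum.elim cl
    (Sum.elim (fun x => cg x.1 x.2.1 x.2.2) (Sum.elim (fun x => cu x.1 x.2)
      (fun x => cr x.1 x.2)))))) (by
    simp only [Fintype.sum_sum_type, Sum.elim_inl, Sum.elim_inr, fam, Algebra.smul_def,
      Finset.univ_unique, Finset.sum_singleton, mul_one]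
    rw [← h]
    simp only [Fintype.sum_prod_type]
    ring)
  refine ⟨h1 (Sum.inl ()), h1 (Sum.inr (Sum.inl ())), ?_, ?_, ?_, ?_⟩
  · funext x
    exact h1 (Sum.inr (Sum.inr (Sum.inl x)))
  · funext s
    ext a b
    exact h1 (Sum.inr (Sum.inr (Sum.inr (Sum.inl (s, a, b)))))
  · funext v j
    exact h1 (Sum.inr (Sum.inr (Sum.inr (Sum.inr (Sum.inl (v, j))))))
  · funext i v
    exact h1 (Sum.inr (Sum.inr (Sum.inr (Sum.inr (Sum.inr (i, v))))))

theorem D_mul {A B C : Type} [Fintype B] (D : Derivation K ℂ ℂ) (M : Matrix A B ℂ)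
    (N : Matrix B C ℂ) : (M * N).map D = M.map D * N + M * N.map D := by
  ext i j
  simp only [Matrix.map_apply, Matrix.mul_apply, Matrix.add_apply, map_sum, Derivation.leibniz,
    smul_eq_mul, ← Finset.sum_add_distrib]
  refine Finset.sum_congr rfl fun x _ => ?_
  ring

theorem D_K (D : Derivation K ℂ ℂ) {A B : Type} (M : Matrix A B K) :
    (M.map (algebraMap K ℂ)).map D = 0 := by
  ext i j
  simp

/-- Functionals separate points. -/
theorem eq_zero_of_functionals {y : ℂ} (h : ∀ μ : ℂ →ₗ[K] K, μ y = 0) : y = 0 := by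
  exact (Module.forall_dual_apply_eq_zero_iff K y).1 h

/-- The logarithmic derivative of the period matrix. -/
noncomputable def YD (p : ℂ) (g : S → M2 ℂ) (ξ : Matrix I (Fin 2 × S) ℂ)
    (U : Matrix (Fin 2 × S) W ℂ) (lam : Matrix I W ℂ) (D : Derivation K ℂ ℂ) :
    Tup ℂ I S W :=
  (p⁻¹ * D p, fun s => (g s)⁻¹ * (g s).map D,
    p⁻¹ • (ξ.map D - ξ * blockDiagonal fun s => (g s)⁻¹ * (g s).map D),
    (blockDiagonal fun s => (g s)⁻¹) * U.map D,
    p⁻¹ • (lam.map D - ξ * ((blockDiagonal fun s => (g s)⁻¹) * U.map D)))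

theorem mat_YD {p : ℂ} {g : S → M2 ℂ} (ξ : Matrix I (Fin 2 × S) ℂ)
    (U : Matrix (Fin 2 × S) W ℂ) (lam : Matrix I W ℂ) (hp : p ≠ 0) (hg : ∀ s, (g s).det ≠ 0)
    (D : Derivation K ℂ ℂ) :
    mat p g ξ U lam 1 * mat (YD p g ξ U lam D).1 (YD p g ξ U lam D).2.1 (YD p g ξ U lam D).2.2.1
      (YD p g ξ U lam D).2.2.2.1 (YD p g ξ U lam D).2.2.2.2 0 = (mat p g ξ U lam 1).map D := by
  rw [mat_mul, mat_map D (map_zero D)]
  have hgu : ∀ s, g s * (g s)⁻¹ = 1 := fun s =>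
    Matrix.mul_nonsing_inv _ (isUnit_iff_ne_zero.2 (hg s))
  have hbd : blockDiagonal g * blockDiagonal (fun s => (g s)⁻¹) = 1 := by
    rw [← blockDiagonal_mul]
    simp only [hgu]
    exact blockDiagonal_one
  unfold YD
  congr 1
  · rw [← mul_assoc, mul_inv_cancel₀ hp, one_mul]
  · funext s
    rw [← mul_assoc, hgu, one_mul]
  · simp only [smul_smul, mul_inv_cancel₀ hp, one_smul]
    rw [sub_add_cancel]
  · simp only [zero_smul, add_zero]
    rw [← Matrix.mul_assoc, hbd, Matrix.one_mul]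
  · simp only [smul_smul, mul_inv_cancel₀ hp, one_smul, zero_smul, add_zero]
    rw [sub_add_cancel]
  · rw [Derivation.map_one_eq_zero, one_mul]

/-- Components of a tuple. -/
def mapT (μ : ℂ →ₗ[K] K) (Y : Tup ℂ I S W) : Tup K I S W :=
  (μ Y.1, fun s => (Y.2.1 s).map μ, Y.2.2.1.map μ, Y.2.2.2.1.map μ, Y.2.2.2.2.map μ)

/-- The Lie algebra of the closed subgroup scheme, in the Lie algebra of the motivic group. -/
def lieOf (F : Set (MvPolynomial ((I ⊕ ((Fin 2 × S) ⊕ (J ⊕ Λ))) × (I ⊕ ((Fin 2 × S) ⊕ (J ⊕ Λ)))) K)) :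
    Submodule K (Tup K I S (J ⊕ Λ)) where
  carrier := {a | InLie F (mat a.1 a.2.1 a.2.2.1 a.2.2.2.1 a.2.2.2.2 0) ∧
    (∀ s, (a.2.1 s).trace = a.1) ∧ ∀ v l, a.2.2.2.1 v (Sum.inr l) = 0}
  add_mem' := by
    rintro a b ⟨ha, ha1, ha2⟩ ⟨hb, hb1, hb2⟩
    refine ⟨?_, ?_, ?_⟩
    · have := inLie_add ha hb
      rw [mat_add, add_zero] at this
      exact this
    · intro s
      rw [Prod.snd_add, Prod.fst_add, Pi.add_apply, Matrix.trace_add, ha1, hb1, Prod.fst_add]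
    · intro v l
      have : (a + b).2.2.2.1 v (Sum.inr l) = a.2.2.2.1 v (Sum.inr l) + b.2.2.2.1 v (Sum.inr l) := rfl
      rw [this, ha2, hb2, add_zero]
  zero_mem' := by
    refine ⟨?_, ?_, ?_⟩
    · intro f _
      have h1 : mat (0 : Tup K I S (J ⊕ Λ)).1 (0 : Tup K I S (J ⊕ Λ)).2.1
          (0 : Tup K I S (J ⊕ Λ)).2.2.1 (0 : Tup K I S (J ⊕ Λ)).2.2.2.1
          (0 : Tup K I S (J ⊕ Λ)).2.2.2.2 0 = 0 := by
        have := mat_smul (0 : K) (0 : K) (0 : S → M2 K) (0 : Matrix I (Fin 2 × S) K)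
          (0 : Matrix (Fin 2 × S) (J ⊕ Λ) K) (0 : Matrix I (J ⊕ Λ) K) 0
        rw [zero_smul, mul_zero, smul_zero, smul_zero, smul_zero, smul_zero] at this
        exact this.symm
      rw [h1]
      have := dAt_smul f (1 : Matrix _ _ K) (0 : Matrix (I ⊕ ((Fin 2 × S) ⊕ (J ⊕ Λ)))
        (I ⊕ ((Fin 2 × S) ⊕ (J ⊕ Λ))) K) (0 : K)
      rw [zero_smul, zero_mul] at this
      exact this
    · intro s
      exact Matrix.trace_zero _ _
    · intro v l
      rfl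
  smul_mem' := by
    rintro c a ⟨ha, ha1, ha2⟩
    refine ⟨?_, ?_, ?_⟩
    · have := inLie_smul c ha
      rw [mat_smul, mul_zero] at this
      exact this
    · intro s
      rw [Prod.smul_snd, Prod.smul_fst, Pi.smul_apply, Matrix.trace_smul, ha1, Prod.smul_fst]
    · intro v l
      have : (c • a).2.2.2.1 v (Sum.inr l) = c * a.2.2.2.1 v (Sum.inr l) := rfl
      rw [this, ha2, mul_zero]

theorem br_mem_lieOf
    {F : Set (MvPolynomial ((I ⊕ ((Fin 2 × S) ⊕ (J ⊕ Λ))) × (I ⊕ ((Fin 2 × S) ⊕ (J ⊕ Λ)))) K)}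
    (hF : IsSubgroupScheme F) {a b : Tup K I S (J ⊕ Λ)} (ha : a ∈ lieOf F) (hb : b ∈ lieOf F) :
    br a b ∈ lieOf F := by
  obtain ⟨ha, ha1, ha2⟩ := ha
  obtain ⟨hb, hb1, hb2⟩ := hb
  refine ⟨?_, ?_, ?_⟩
  · have := bracket_mem hF ha hb
    rw [mat_mul, mat_mul, mat_sub, mul_comm b.1 a.1, sub_self] at this
    simp only [zero_smul, add_zero, mul_zero, sub_zero] at this
    exact this
  · intro s
    exact tr_comm _ _
  · intro v l
    have h1 : (br a b).2.2.2.1 v (Sum.inr l) = (blockDiagonal a.2.1 * b.2.2.2.1) v (Sum.inr l) -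
        (blockDiagonal b.2.1 * a.2.2.2.1) v (Sum.inr l) := rfl
    rw [h1, Matrix.mul_apply, Matrix.mul_apply, Finset.sum_eq_zero, Finset.sum_eq_zero, sub_zero]
    · intro x _
      rw [ha2, mul_zero]
    · intro x _
      rw [hb2, mul_zero]

theorem trace_logDer {g : M2 ℂ} (hg : g.det ≠ 0) (D : Derivation K ℂ ℂ) :
    (g⁻¹ * g.map D).trace = (g.det)⁻¹ * D g.det := by
  have h1 : g⁻¹ = (g.det)⁻¹ • g.adjugate := by
    rw [Matrix.inv_def, Ring.inverse_eq_inv']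
  rw [h1, Matrix.smul_mul, Matrix.trace_smul, smul_eq_mul]
  congr 1
  rw [Matrix.adjugate_fin_two, Matrix.det_fin_two, Matrix.trace_fin_two]
  simp only [Matrix.mul_apply, Fin.sum_univ_two, Matrix.of_apply, Matrix.cons_val', Matrix.cons_val_zero,
    Matrix.cons_val_one, Matrix.cons_val_fin_one, Matrix.map_apply, map_sub, Derivation.leibniz,
    smul_eq_mul]
  ring

section sys

variable {F : Set (MvPolynomial ((I ⊕ ((Fin 2 × S) ⊕ (J ⊕ Λ))) ×
  (I ⊕ ((Fin 2 × S) ⊕ (J ⊕ Λ)))) K)} (hF : IsSubgroupScheme F)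
  {p : ℂ} {g : S → M2 ℂ} {ξ : Matrix I (Fin 2 × S) ℂ} {U : Matrix (Fin 2 × S) J ℂ}
  {lam : Matrix I J ℂ} {lg : Matrix I Λ ℂ} (hp : p ≠ 0)
  (hdet : ∀ s, ∃ c : K, c ≠ 0 ∧ (g s).det = algebraMap K ℂ c * p)
  (hlin : LinearIndependent K (fam p g ξ U lg))
  (hY : ∀ D : Derivation K ℂ ℂ, InLie F (mat (YD p g ξ (fromCols U 0) (fromCols lam lg) D).1
    (YD p g ξ (fromCols U 0) (fromCols lam lg) D).2.1
    (YD p g ξ (fromCols U 0) (fromCols lam lg) D).2.2.1
    (YD p g ξ (fromCols U 0) (fromCols lam lg) D).2.2.2.1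
    (YD p g ξ (fromCols U 0) (fromCols lam lg) D).2.2.2.2 0))

include hp hdet in
theorem hg_det (s : S) : (g s).det ≠ 0 := by
  obtain ⟨c, hc, h⟩ := hdet s
  rw [h]
  exact mul_ne_zero ((map_ne_zero _).2 hc) hp

include hp hdet in
theorem tr_YD (D : Derivation K ℂ ℂ) (s : S) :
    ((YD p g ξ (fromCols U 0) (fromCols lam lg) D : Tup ℂ I S (J ⊕ Λ)).2.1 s).trace =
      p⁻¹ * D p := by
  have h0 := hg_det hp hdet s
  change ((g s)⁻¹ * (g s).map D).trace = _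
  rw [trace_logDer h0]
  obtain ⟨c, hc, h⟩ := hdet s
  have hc' : algebraMap K ℂ c ≠ 0 := (map_ne_zero _).2 hc
  rw [h, Derivation.leibniz, Derivation.map_algebraMap, smul_zero, add_zero, smul_eq_mul]
  field_simp

include hp hdet hY in
theorem comp_mem_lieOf (D : Derivation K ℂ ℂ) (μ : ℂ →ₗ[K] K) :
    mapT μ (YD p g ξ (fromCols U 0) (fromCols lam lg) D) ∈ lieOf F := by
  refine ⟨?_, ?_, ?_⟩
  · have h1 := comp_mem (hY D) μ
    rw [mat_map μ (map_zero μ), map_zero] at h1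
    exact h1
  · intro s
    have h1 : ((mapT μ (YD p g ξ (fromCols U 0) (fromCols lam lg) D :
        Tup ℂ I S (J ⊕ Λ))).2.1 s).trace =
        μ ((YD p g ξ (fromCols U 0) (fromCols lam lg) D : Tup ℂ I S (J ⊕ Λ)).2.1 s).trace := by
      change (Matrix.map _ μ).trace = _
      rw [Matrix.trace_fin_two, Matrix.trace_fin_two, map_add]
      rfl
    rw [h1, tr_YD hp hdet]
    rfl
  · intro v l
    change μ (((blockDiagonal fun s => (g s)⁻¹) * (fromCols U 0).map D) v (Sum.inr l)) = 0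
    rw [Matrix.mul_apply, Finset.sum_eq_zero, map_zero]
    intro x _
    simp

end sys

end Pool.Agent.W519.M
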