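import Mathlib
import Pool.Agent.W519.M.Per

/-!
# The Lie algebra of the closed subgroup scheme has the required properties
-/

set_option linter.unusedSectionVars false

namespace Pool.Agent.W519.M

open Matrix

variable {K : Type} [Field K] [IsAlgClosed K] [CharZero K] [Algebra K ℂ]
variable {I S J Λ W : Type} [Fintype I] [Fintype S] [Fintype J] [Fintype Λ]
  [Fintype W] [DecidableEq I] [DecidableEq S] [DecidableEq J] [DecidableEq Λ] [DecidableEq W]

variable {F : Set (MvPolynomial ((I ⊕ ((Fin 2 × S) ⊕ (J ⊕ Λ))) ×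
  (I ⊕ ((Fin 2 × S) ⊕ (J ⊕ Λ)))) K)} (hF : IsSubgroupScheme F)
  {p : ℂ} {g : S → M2 ℂ} {ξ : Matrix I (Fin 2 × S) ℂ} {U : Matrix (Fin 2 × S) J ℂ}
  {lam : Matrix I J ℂ} {lg : Matrix I Λ ℂ} (hp : p ≠ 0)
  (hdet : ∀ s, ∃ c : K, c ≠ 0 ∧ (g s).det = algebraMap K ℂ c * p)
  (hlin : LinearIndependent K (fam p g ξ U lg))
  (hY : ∀ D : Derivation K ℂ ℂ, InLie F (mat (YD p g ξ (fromCols U 0) (fromCols lam lg) D).1
    (YD p g ξ (fromCols U 0) (fromCols lam lg) D).2.1
    (YD p g ξ (fromCols U 0) (fromCols lam lg) D).2.2.1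
    (YD p g ξ (fromCols U 0) (fromCols lam lg) D).2.2.2.1
    (YD p g ξ (fromCols U 0) (fromCols lam lg) D).2.2.2.2 0))

/-- The logarithmic derivative in the slot `s`. -/
noncomputable def Ys (g : S → M2 ℂ) (D : Derivation K ℂ ℂ) (s : S) : M2 ℂ := (g s)⁻¹ * (g s).map D

theorem g_Ys {g : S → M2 ℂ} {s : S} (h0 : (g s).det ≠ 0) (D : Derivation K ℂ ℂ) :
    g s * Ys g D s = (g s).map D := by
  unfold Ys
  rw [← mul_assoc, Matrix.mul_nonsing_inv _ (isUnit_iff_ne_zero.2 h0), one_mul]

include hlin in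
/-- The rows of `g s` are independent on vectors over `K`. -/
theorem rows_indep (s : S) {v : Fin 2 → K} {a b : K}
    (h : ∀ _ : Unit, algebraMap K ℂ a * ∑ j, g s 0 j * algebraMap K ℂ (v j) +
      algebraMap K ℂ b * ∑ j, g s 1 j * algebraMap K ℂ (v j) = 0) (hv : v ≠ 0) :
    a = 0 ∧ b = 0 := by
  have h1 := h ()
  obtain ⟨-, -, -, hcg, -, -⟩ := rel hlin 0 0 0
    (Pi.single s !![a * v 0, a * v 1; b * v 0, b * v 1]) 0 0 (by
      rw [Finset.sum_eq_single_of_mem s (Finset.mem_univ _) (by
        intro s' _ hs'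
        simp [Pi.single_eq_of_ne hs'])]
      simp only [Pi.single_eq_same, Fin.sum_univ_two, Matrix.of_apply, Matrix.cons_val',
        Matrix.cons_val_zero, Matrix.cons_val_one, Matrix.cons_val_fin_one, map_mul, map_zero,
        zero_mul, Pi.zero_apply, Finset.sum_const_zero, add_zero, zero_add]
      rw [← h1]
      simp only [Fin.sum_univ_two]
      ring)
  have h2 := congrFun hcg s
  rw [Pi.single_eq_same] at h2
  have e00 := congrFun (congrFun h2 0) 0
  have e01 := congrFun (congrFun h2 0) 1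
  have e10 := congrFun (congrFun h2 1) 0
  have e11 := congrFun (congrFun h2 1) 1
  simp only [Pi.zero_apply, Matrix.zero_apply, Matrix.of_apply, Matrix.cons_val',
        Matrix.cons_val_zero, Matrix.cons_val_one, Matrix.cons_val_fin_one] at e00 e01 e10 e11
  have hv' : v 0 ≠ 0 ∨ v 1 ≠ 0 := by
    by_contra hcon
    push Not at hcon
    apply hv
    funext i
    fin_cases i
    · exact hcon.1
    · exact hcon.2
  rcases hv' with h | h
  · exact ⟨(mul_eq_zero.1 e00).resolve_right h, (mul_eq_zero.1 e10).resolve_right h⟩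
  · exact ⟨(mul_eq_zero.1 e01).resolve_right h, (mul_eq_zero.1 e11).resolve_right h⟩

include hp hdet hlin hY in
theorem A1 (s : S) (v : Fin 2 → K) (hv : v ≠ 0) :
    ∃ a ∈ lieOf F, ¬ ∃ c : K, (a.2.1 s).mulVec v = c • v := by
  by_contra hcon
  push Not at hcon
  have h0 := hg_det hp hdet s
  set w : Fin 2 → ℂ := fun i => ∑ j, g s i j * algebraMap K ℂ (v j) with hw
  -- the cross product of `w` and `D w` vanishes
  have hcross : ∀ D : Derivation K ℂ ℂ, D (w 0) * w 1 - D (w 1) * w 0 = 0 := by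
    intro D
    have h1 : ∀ μ : ℂ →ₗ[K] K, μ ((Ys g D s 0 0 * algebraMap K ℂ (v 0) +
        Ys g D s 0 1 * algebraMap K ℂ (v 1)) * algebraMap K ℂ (v 1) -
        (Ys g D s 1 0 * algebraMap K ℂ (v 0) +
        Ys g D s 1 1 * algebraMap K ℂ (v 1)) * algebraMap K ℂ (v 0)) = 0 := by
      intro μ
      obtain ⟨c, hc⟩ := hcon _ (comp_mem_lieOf hp hdet hY D μ)
      have c0 := congrFun hc 0
      have c1 := congrFun hc 1
      have hsm : ∀ (x : ℂ) (k : K), μ (x * algebraMap K ℂ k) = μ x * k := by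
        intro x k
        rw [mul_comm, ← Algebra.smul_def, map_smul, smul_eq_mul, mul_comm]
      have e : ∀ i j, ((mapT μ (YD p g ξ (fromCols U 0) (fromCols lam lg) D :
          Tup ℂ I S (J ⊕ Λ))).2.1 s) i j = μ (Ys g D s i j) := fun i j => rfl
      simp only [Matrix.mulVec, dotProduct, Fin.sum_univ_two, Pi.smul_apply, smul_eq_mul, e] at c0 c1
      rw [map_sub, hsm, hsm, map_add, map_add, hsm, hsm, hsm, hsm, c0, c1]
      ring
    have h2 := eq_zero_of_functionals h1
    have h3 := g_Ys h0 D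
    have d0 : D (w 0) = ∑ j, D (g s 0 j) * algebraMap K ℂ (v j) := by
      simp only [hw, map_sum, Derivation.leibniz, Derivation.map_algebraMap, smul_eq_mul]
      exact Finset.sum_congr rfl fun _ _ => by ring
    have d1 : D (w 1) = ∑ j, D (g s 1 j) * algebraMap K ℂ (v j) := by
      simp only [hw, map_sum, Derivation.leibniz, Derivation.map_algebraMap, smul_eq_mul]
      exact Finset.sum_congr rfl fun _ _ => by ring
    have e : ∀ i j, D (g s i j) = g s i 0 * Ys g D s 0 j + g s i 1 * Ys g D s 1 j := by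
      intro i j
      have := congrFun (congrFun h3 i) j
      rw [Matrix.mul_apply, Fin.sum_univ_two, Matrix.map_apply] at this
      exact this.symm
    rw [d0, d1]
    simp only [Fin.sum_univ_two, e, hw]
    linear_combination (g s 0 0 * g s 1 1 - g s 0 1 * g s 1 0) * h2
  have hw01 : w 0 ≠ 0 := by
    intro h
    have := rows_indep hlin s (v := v) (a := 1) (b := 0) (fun _ => by
      rw [map_one, map_zero, one_mul, zero_mul, add_zero]
      exact h) hv
    exact one_ne_zero this.1
  obtain ⟨κ, hκ⟩ := Pool.Agent.W516.DR.mem_of_derivation (K := K) (x := w 1 / w 0) (by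
    intro D
    rw [Derivation.leibniz_div]
    simp only [smul_eq_mul]
    rw [show w 0 * D (w 1) - w 1 * D (w 0) = 0 by linear_combination -(hcross D), mul_zero])
  have h1 : algebraMap K ℂ κ * w 0 - w 1 = 0 := by
    rw [hκ, div_mul_cancel₀ _ hw01, sub_self]
  have := rows_indep hlin s (v := v) (a := κ) (b := -1) (fun _ => by
      rw [map_neg, map_one, neg_mul, one_mul, ← sub_eq_add_neg]
      exact h1) hv
  exact (neg_ne_zero.2 one_ne_zero) this.2

include hp hdet hlin hY in
theorem A2 (s t : S) (hst : s ≠ t) (M : M2 K) (hM : M ≠ 0) :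
    ∃ a ∈ lieOf F, a.2.1 s * M ≠ M * a.2.1 t := by
  by_contra hcon
  push Not at hcon
  have hs := hg_det hp hdet s
  have ht := hg_det hp hdet t
  have hcomm : ∀ D : Derivation K ℂ ℂ, Ys g D s * M.map (algebraMap K ℂ) =
      M.map (algebraMap K ℂ) * Ys g D t := by
    intro D
    ext i j
    rw [← sub_eq_zero]
    apply eq_zero_of_functionals (K := K)
    intro μ
    have h1 := congrFun (congrFun (hcon _ (comp_mem_lieOf hp hdet hY D μ)) i) j
    have e : ∀ s i j, ((mapT μ (YD p g ξ (fromCols U 0) (fromCols lam lg) D :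
          Tup ℂ I S (J ⊕ Λ))).2.1 s) i j = μ (Ys g D s i j) := fun s i j => rfl
    rw [Matrix.mul_apply, Matrix.mul_apply] at h1
    simp only [e, Fin.sum_univ_two] at h1
    have hsm : ∀ (x : ℂ) (k : K), μ (x * algebraMap K ℂ k) = μ x * k := by
      intro x k
      rw [mul_comm, ← Algebra.smul_def, map_smul, smul_eq_mul, mul_comm]
    have hsm' : ∀ (x : ℂ) (k : K), μ (algebraMap K ℂ k * x) = k * μ x := by
      intro x k
      rw [← Algebra.smul_def, map_smul, smul_eq_mul]
    rw [Matrix.mul_apply, Matrix.mul_apply]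
    simp only [Fin.sum_univ_two, Matrix.map_apply, map_sub, map_add, hsm, hsm']
    rw [h1, sub_self]
  set Nn : M2 ℂ := g s * M.map (algebraMap K ℂ) * (g t)⁻¹ with hNn
  have hNg : Nn * g t = g s * M.map (algebraMap K ℂ) := by
    rw [hNn, mul_assoc, Matrix.nonsing_inv_mul _ (isUnit_iff_ne_zero.2 ht), mul_one]
  have hDN : ∀ D : Derivation K ℂ ℂ, Nn.map D = 0 := by
    intro D
    have h1 : (Nn * g t).map D = (g s * M.map (algebraMap K ℂ)).map D := by rw [hNg]
    rw [D_mul D Nn (g t), D_mul D (g s) (M.map (algebraMap K ℂ)), D_K, mul_zero, add_zero,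
      ← g_Ys hs D, ← g_Ys ht D, mul_assoc (g s), hcomm D,
      ← mul_assoc (g s), ← mul_assoc Nn, hNg] at h1
    have h2 : Nn.map D * g t = 0 := by
      have := sub_eq_zero.2 h1
      rw [add_sub_cancel_right] at this
      exact this
    have h3 : Nn.map D * g t * (g t)⁻¹ = 0 := by rw [h2, zero_mul]
    rwa [mul_assoc, Matrix.mul_nonsing_inv _ (isUnit_iff_ne_zero.2 ht), mul_one] at h3
  have hNK : ∀ i j, ∃ κ : K, algebraMap K ℂ κ = Nn i j := by
    intro i j
    apply Pool.Agent.W516.DR.mem_of_derivation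
    intro D
    exact congrFun (congrFun (hDN D) i) j
  choose κ hκ using hNK
  apply hM
  ext i j
  -- row `0`, column `j` of `g s * M = Nn * g t`
  have h1 := congrFun (congrFun hNg 0) j
  rw [Matrix.mul_apply, Matrix.mul_apply] at h1
  simp only [Fin.sum_univ_two, Matrix.map_apply, ← hκ] at h1
  obtain ⟨-, -, -, hcg, -, -⟩ := rel hlin 0 0 0
    (Pi.single s (Matrix.of fun a b => if a = 0 then M b j else 0) -
      Pi.single t (Matrix.of fun a b => if b = j then κ 0 a else 0)) 0 0 (by
      simp only [Pi.sub_apply, Matrix.sub_apply, map_sub, sub_mul, Finset.sum_sub_distrib]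
      rw [Finset.sum_eq_single_of_mem s (Finset.mem_univ _) (by
        intro s' _ hs'
        simp [Pi.single_eq_of_ne hs']), Finset.sum_eq_single_of_mem t (Finset.mem_univ _) (by
        intro s' _ hs'
        simp [Pi.single_eq_of_ne hs'])]
      simp only [Pi.single_eq_same, Fin.sum_univ_two, Matrix.of_apply, map_zero,
        zero_mul, Pi.zero_apply, Finset.sum_const_zero, add_zero, zero_add]
      fin_cases j
      · simp
        simp at h1
        linear_combination -h1
      · simp
        simp at h1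
        linear_combination -h1)
  have h2 := congrFun hcg s
  rw [Pi.sub_apply, Pi.single_eq_same, Pi.single_eq_of_ne hst, sub_zero] at h2
  have h3 := congrFun (congrFun h2 0) i
  simpa using h3

include hp hdet hlin hY in
theorem A3 : ∃ a ∈ lieOf F, a.1 ≠ 0 := by
  by_contra hcon
  push Not at hcon
  have h1 : ∀ D : Derivation K ℂ ℂ, D p = 0 := by
    intro D
    have h2 : p⁻¹ * D p = 0 := by
      apply eq_zero_of_functionals (K := K)
      intro μ
      exact hcon _ (comp_mem_lieOf hp hdet hY D μ)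
    exact (mul_eq_zero.1 h2).resolve_left (inv_ne_zero hp)
  obtain ⟨κ, hκ⟩ := Pool.Agent.W516.DR.mem_of_derivation h1
  obtain ⟨-, h, -⟩ := rel hlin κ (-1) 0 0 0 0 (by
    simp [hκ])
  exact (neg_ne_zero.2 one_ne_zero) h

end Pool.Agent.W519.M
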