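import Mathlib
import Pool.Agent.W519.M.Per2

/-!
# The unipotent part
-/

set_option linter.unusedSectionVars false

namespace Pool.Agent.W519.M

open Matrix

variable {K : Type} [Field K] [IsAlgClosed K] [CharZero K] [Algebra K ℂ]
variable {I S J Λ W : Type} [Fintype I] [Fintype S] [Fintype J] [Fintype Λ]
  [Fintype W] [DecidableEq I] [DecidableEq S] [DecidableEq J] [DecidableEq Λ] [DecidableEq W]

theorem wv_mapT (μ : ℂ →ₗ[K] K) (Y : Tup ℂ I S (J ⊕ Λ)) (s : S) (m : I ⊕ J) (r : Fin 2) :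
    wv (mapT μ Y) s m r = μ (wv Y s m r) := by
  rcases m with i | j
  · fin_cases r <;> simp [wv, mapT]
  · rfl

theorem mu_smul (μ : ℂ →ₗ[K] K) (x : ℂ) (k : K) : μ (algebraMap K ℂ k * x) = k * μ x := by
  rw [← Algebra.smul_def, map_smul, smul_eq_mul]

theorem mu_smul' (μ : ℂ →ₗ[K] K) (x : ℂ) (k : K) : μ (x * algebraMap K ℂ k) = μ x * k := by
  rw [mul_comm, mu_smul, mul_comm]

theorem xi_eq {g : S → M2 ℂ} (ξ : Matrix I (Fin 2 × S) ℂ) (hg : ∀ s, (g s).det ≠ 0) :
    rho g ξ * blockDiagonal g = ξ := by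
  unfold rho
  rw [Matrix.mul_assoc, ← blockDiagonal_mul]
  have h1 : (fun s => (g s)⁻¹ * g s) = fun _ => (1 : M2 ℂ) := by
    funext s
    exact Matrix.nonsing_inv_mul _ (isUnit_iff_ne_zero.2 (hg s))
  have h2 : blockDiagonal (fun _ : S => (1 : M2 ℂ)) = 1 := blockDiagonal_one
  rw [h1, h2, Matrix.mul_one]

theorem YD_q {p : ℂ} {g : S → M2 ℂ} (ξ : Matrix I (Fin 2 × S) ℂ)
    (U : Matrix (Fin 2 × S) W ℂ) (lam : Matrix I W ℂ) (hg : ∀ s, (g s).det ≠ 0)
    (D : Derivation K ℂ ℂ) (i : I) (r : Fin 2) (s : S) :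
    (YD p g ξ U lam D).2.2.1 i (r, s) = p⁻¹ * ∑ r', D (rho g ξ i (r', s)) * g s r' r := by
  have h1 : (YD p g ξ U lam D).2.2.1 = p⁻¹ • ((rho g ξ).map D * blockDiagonal g) := by
    unfold YD
    simp only
    congr 1
    conv_lhs => rw [← xi_eq ξ hg]
    rw [D_mul, Matrix.mul_assoc, ← blockDiagonal_mul]
    have h2 : (blockDiagonal g).map D = blockDiagonal fun s => (g s).map D := by
      rw [blockDiagonal_map _ _ (map_zero D)]
    have h3 : (fun s => g s * ((g s)⁻¹ * (g s).map D)) = fun s => (g s).map D := by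
      funext s
      rw [← mul_assoc, Matrix.mul_nonsing_inv _ (isUnit_iff_ne_zero.2 (hg s)), one_mul]
    rw [h2, h3, add_sub_cancel_right]
  rw [h1, Matrix.smul_apply, smul_eq_mul, mul_bd]
  rfl

theorem YD_u {p : ℂ} {g : S → M2 ℂ} (ξ : Matrix I (Fin 2 × S) ℂ)
    (U : Matrix (Fin 2 × S) W ℂ) (lam : Matrix I W ℂ) (hg : ∀ s, (g s).det ≠ 0)
    (D : Derivation K ℂ ℂ) (a : Fin 2) (s : S) (w : W) :
    ∑ r, g s a r * (YD p g ξ U lam D).2.2.2.1 (r, s) w = D (U (a, s) w) := by
  have h1 : blockDiagonal g * (YD p g ξ U lam D).2.2.2.1 = U.map D := by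
    unfold YD
    simp only
    rw [← Matrix.mul_assoc, ← blockDiagonal_mul]
    have h3 : (fun s => g s * (g s)⁻¹) = fun _ => (1 : M2 ℂ) := by
      funext s
      rw [Matrix.mul_nonsing_inv _ (isUnit_iff_ne_zero.2 (hg s))]
    have h2 : blockDiagonal (fun _ : S => (1 : M2 ℂ)) = 1 := blockDiagonal_one
    rw [h3, h2, Matrix.one_mul]
  rw [← bd_mul, h1]
  rfl

variable {F : Set (MvPolynomial ((I ⊕ ((Fin 2 × S) ⊕ (J ⊕ Λ))) ×
  (I ⊕ ((Fin 2 × S) ⊕ (J ⊕ Λ)))) K)} (hF : IsSubgroupScheme F)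
  {p : ℂ} {g : S → M2 ℂ} {ξ : Matrix I (Fin 2 × S) ℂ} {U : Matrix (Fin 2 × S) J ℂ}
  {lam : Matrix I J ℂ} {lg : Matrix I Λ ℂ} (hp : p ≠ 0)
  (hdet : ∀ s, ∃ c : K, c ≠ 0 ∧ (g s).det = algebraMap K ℂ c * p)
  (hlin : LinearIndependent K (fam p g ξ U lg))
  (hY : ∀ D : Derivation K ℂ ℂ, InLie F (mat (YD p g ξ (fromCols U 0) (fromCols lam lg) D).1
    (YD p g ξ (fromCols U 0) (fromCols lam lg) D).2.1
    (YD p g ξ (fromCols U 0) (fromCols lam lg) D).2.2.1
    (YD p g ξ (fromCols U 0) (fromCols lam lg) D).2.2.2.1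
    (YD p g ξ (fromCols U 0) (fromCols lam lg) D).2.2.2.2 0))

include hp hdet hlin hY in
theorem A4 (s : S) (c : I ⊕ J → K) (hc : c ≠ 0) (κ : Fin 2 → K) :
    ∃ a ∈ lieOf F, ∑ m, c m • wv a s m ≠ (a.2.1 s).mulVec κ := by
  by_contra hcon
  push Not at hcon
  have hg := fun s => hg_det hp hdet s
  obtain ⟨cs, hcs, hdets⟩ := hdet s
  set X : ℂ := ∑ j, algebraMap K ℂ (c (Sum.inr j)) * U (0, s) j +
    algebraMap K ℂ cs * ∑ i, algebraMap K ℂ (c (Sum.inl i)) * rho g ξ i (1, s) -
    ∑ j, algebraMap K ℂ (κ j) * g s 0 j with hX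
  have hDX : ∀ D : Derivation K ℂ ℂ, D X = 0 := by
    intro D
    set Y : Tup ℂ I S (J ⊕ Λ) := YD p g ξ (fromCols U 0) (fromCols lam lg) D with hYd
    have h1 : ∀ r, ∑ m, algebraMap K ℂ (c m) * wv Y s m r -
        ∑ j, Ys g D s r j * algebraMap K ℂ (κ j) = 0 := by
      intro r
      apply eq_zero_of_functionals (K := K)
      intro μ
      have h2 := congrFun (hcon _ (comp_mem_lieOf hp hdet hY D μ)) r
      rw [← hYd, Finset.sum_apply] at h2
      simp only [Pi.smul_apply, smul_eq_mul, wv_mapT, Matrix.mulVec, dotProduct] at h2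
      have e : ∀ i j, ((mapT μ Y).2.1 s) i j = μ (Ys g D s i j) := fun i j => rfl
      simp only [e] at h2
      rw [map_sub, map_sum, map_sum]
      simp only [mu_smul, mu_smul']
      rw [h2, sub_self]
    have h2 : ∑ r, g s 0 r * (∑ m, algebraMap K ℂ (c m) * wv Y s m r -
        ∑ j, Ys g D s r j * algebraMap K ℂ (κ j)) = 0 := by
      refine Finset.sum_eq_zero fun r _ => ?_
      rw [h1, mul_zero]
    -- the three parts
    have p1 : ∀ j, ∑ r, g s 0 r * wv Y s (Sum.inr j) r = D (U (0, s) j) := by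
      intro j
      exact YD_u ξ (fromCols U (0 : Matrix (Fin 2 × S) Λ ℂ)) (fromCols lam lg) hg D 0 s (Sum.inl j)
    have p2 : ∀ i, ∑ r, g s 0 r * wv Y s (Sum.inl i) r =
        algebraMap K ℂ cs * D (rho g ξ i (1, s)) := by
      intro i
      have q0 := YD_q (p := p) ξ (fromCols U (0 : Matrix (Fin 2 × S) Λ ℂ)) (fromCols lam lg) hg D i 0 s
      have q1 := YD_q (p := p) ξ (fromCols U (0 : Matrix (Fin 2 × S) Λ ℂ)) (fromCols lam lg) hg D i 1 s
      rw [← hYd] at q0 q1
      have h3 : p⁻¹ * (g s).det = algebraMap K ℂ cs := by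
        rw [hdets]
        field_simp
      rw [← h3, Matrix.det_fin_two]
      simp only [Fin.sum_univ_two, wv, Matrix.cons_val_zero, Matrix.cons_val_one,
        Matrix.cons_val_fin_one, q0, q1]
      ring
    have p3 : ∀ j, ∑ r, g s 0 r * Ys g D s r j = D (g s 0 j) := by
      intro j
      have := congrFun (congrFun (g_Ys (hg s) D) 0) j
      rw [Matrix.mul_apply, Matrix.map_apply] at this
      exact this
    have h3 : ∑ r, g s 0 r * (∑ m, algebraMap K ℂ (c m) * wv Y s m r -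
        ∑ j, Ys g D s r j * algebraMap K ℂ (κ j)) =
        ∑ m, algebraMap K ℂ (c m) * (∑ r, g s 0 r * wv Y s m r) -
        ∑ j, algebraMap K ℂ (κ j) * (∑ r, g s 0 r * Ys g D s r j) := by
      rw [Finset.sum_congr rfl (fun r _ => mul_sub _ _ _), Finset.sum_sub_distrib]
      congr 1
      · rw [Finset.sum_congr rfl (fun r _ => Finset.mul_sum _ _ _), Finset.sum_comm]
        refine Finset.sum_congr rfl fun m _ => ?_
        rw [Finset.mul_sum]
        refine Finset.sum_congr rfl fun r _ => ?_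
        ring
      · rw [Finset.sum_congr rfl (fun r _ => Finset.mul_sum _ _ _), Finset.sum_comm]
        refine Finset.sum_congr rfl fun m _ => ?_
        rw [Finset.mul_sum]
        refine Finset.sum_congr rfl fun r _ => ?_
        ring
    rw [h3, Fintype.sum_sum_type] at h2
    simp only [p1, p2, p3] at h2
    rw [← h2, hX]
    simp only [map_sub, map_add, Derivation.leibniz, map_sum, Derivation.map_algebraMap, smul_zero,
      add_zero, smul_eq_mul, Finset.mul_sum, Finset.sum_add_distrib]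
    have h4 : ∑ x, algebraMap K ℂ (c (Sum.inl x)) * (algebraMap K ℂ cs * D (rho g ξ x (1, s))) =
      ∑ i, algebraMap K ℂ cs * (algebraMap K ℂ (c (Sum.inl i)) * D (rho g ξ i (1, s))) := by
      refine Finset.sum_congr rfl fun m _ => ?_
      ring
    rw [h4]
    simp
    ring
  obtain ⟨k0, hk0⟩ := Pool.Agent.W516.DR.mem_of_derivation hDX
  obtain ⟨-, -, -, -, hcu, hcr⟩ := rel hlin (-k0) 0 0 (Pi.single s !![-κ 0, -κ 1; 0, 0])
    (fun v j => if v = (0, s) then c (Sum.inr j) else 0)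
    (fun i v => if v = (1, s) then cs * c (Sum.inl i) else 0) (by
      rw [Finset.sum_eq_single_of_mem s (Finset.mem_univ _) (by
        intro s' _ hs'
        simp [Pi.single_eq_of_ne hs']), Finset.sum_eq_single_of_mem ((0 : Fin 2), s)
        (Finset.mem_univ _) (by
        intro v _ hv
        refine Finset.sum_eq_zero fun j _ => ?_
        rw [if_neg hv, map_zero, zero_mul])]
      have h5 : ∀ i, ∑ v, algebraMap K ℂ (if v = (1, s) then cs * c (Sum.inl i) else 0) *
          rho g ξ i v = algebraMap K ℂ (cs * c (Sum.inl i)) * rho g ξ i (1, s) := by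
        intro i
        rw [Finset.sum_eq_single_of_mem ((1 : Fin 2), s) (Finset.mem_univ _) (by
          intro v _ hv
          rw [if_neg hv, map_zero, zero_mul]), if_pos rfl]
      simp only [h5, if_true, Pi.single_eq_same, map_neg, map_zero, zero_mul, Pi.zero_apply,
        Finset.sum_const_zero, add_zero, hk0, map_mul]
      simp only [Fin.sum_univ_two, Matrix.of_apply, Matrix.cons_val', Matrix.cons_val_zero,
        Matrix.cons_val_one, Matrix.cons_val_fin_one, hX, Finset.mul_sum, map_neg, map_zero]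
      have h6 : ∑ i, algebraMap K ℂ cs * algebraMap K ℂ (c (Sum.inl i)) * rho g ξ i (1, s) =
        ∑ i, algebraMap K ℂ cs * (algebraMap K ℂ (c (Sum.inl i)) * rho g ξ i (1, s)) := by
        refine Finset.sum_congr rfl fun m _ => ?_
        ring
      rw [h6]
      ring)
  apply hc
  funext m
  rcases m with i | j
  · have := congrFun (congrFun hcr i) (1, s)
    simp only [if_true, Pi.zero_apply] at this
    exact (mul_eq_zero.1 this).resolve_left hcs
  · have := congrFun (congrFun hcu (0, s)) j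
    simpa using this

include hp hdet hlin hY in
theorem A5 (c : I × Λ → K) (hc : c ≠ 0) (κ : K) :
    ∃ a ∈ lieOf F, ∑ m, c m * a.2.2.2.2 m.1 (Sum.inr m.2) ≠ κ * a.1 := by
  by_contra hcon
  push Not at hcon
  have hg := fun s => hg_det hp hdet s
  set X : ℂ := ∑ m : I × Λ, algebraMap K ℂ (c m) * lg m.1 m.2 - algebraMap K ℂ κ * p with hX
  have hDX : ∀ D : Derivation K ℂ ℂ, D X = 0 := by
    intro D
    set Y : Tup ℂ I S (J ⊕ Λ) := YD p g ξ (fromCols U 0) (fromCols lam lg) D with hYd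
    have h1 : ∑ m : I × Λ, algebraMap K ℂ (c m) * Y.2.2.2.2 m.1 (Sum.inr m.2) -
        algebraMap K ℂ κ * Y.1 = 0 := by
      apply eq_zero_of_functionals (K := K)
      intro μ
      have h2 := hcon _ (comp_mem_lieOf hp hdet hY D μ)
      rw [map_sub, map_sum]
      simp only [mu_smul]
      rw [← hYd] at h2
      have e1 : (mapT μ Y).1 = μ Y.1 := rfl
      have e2 : ∀ i l, (mapT μ Y).2.2.2.2 i (Sum.inr l) = μ (Y.2.2.2.2 i (Sum.inr l)) :=
        fun i l => rfl
      simp only [e1, e2] at h2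
      rw [h2, sub_self]
    have h2 : ∀ i l, Y.2.2.2.2 i (Sum.inr l) = p⁻¹ * D (lg i l) := by
      intro i l
      have h3 : Y.2.2.2.2 i (Sum.inr l) = p⁻¹ * (D (lg i l) -
        (ξ * ((blockDiagonal fun s => (g s)⁻¹) *
          (fromCols U (0 : Matrix (Fin 2 × S) Λ ℂ)).map D)) i (Sum.inr l)) := rfl
      rw [h3, Matrix.mul_apply, Finset.sum_eq_zero, sub_zero]
      intro v _
      rw [Matrix.mul_apply, Finset.sum_eq_zero, mul_zero]
      intro w _
      simp
    have h3 : Y.1 = p⁻¹ * D p := rfl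
    simp only [h2, h3] at h1
    have h4 : p⁻¹ * D X = 0 := by
      rw [← h1, hX]
      simp only [map_sub, Derivation.leibniz, map_sum, Derivation.map_algebraMap, smul_zero,
        add_zero, smul_eq_mul, mul_sub, Finset.mul_sum]
      congr 1
      · refine Finset.sum_congr rfl fun m _ => ?_
        ring
      · ring
    exact (mul_eq_zero.1 h4).resolve_left (inv_ne_zero hp)
  obtain ⟨k0, hk0⟩ := Pool.Agent.W516.DR.mem_of_derivation hDX
  obtain ⟨-, -, hcl, -, -, -⟩ := rel hlin (-k0) (-κ) c 0 0 0 (by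
    simp only [map_neg, hk0, hX, Pi.zero_apply, map_zero, zero_mul, Finset.sum_const_zero,
      Matrix.zero_apply, add_zero]
    ring)
  exact hc hcl

include hF hp hdet hlin hY in
/-- The Lie algebra of the closed subgroup scheme has the required properties. -/
theorem lieSys : LieSys (lieOf (I := I) (S := S) (J := J) (Λ := Λ) F) where
  br_mem _ ha _ hb := br_mem_lieOf hF ha hb
  tr_eq _ ha := ha.2.1
  u_zero _ ha := ha.2.2
  A1 := A1 hp hdet hlin hY
  A2 := A2 hp hdet hlin hY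
  A3 := A3 hp hdet hlin hY
  A4 := A4 hp hdet hlin hY
  A5 := A5 hp hdet hlin hY

end Pool.Agent.W519.M
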