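import Mathlib
import Pool.Agent.W519.M.Per3

/-!
# From the Lie algebra to the group
-/

set_option linter.unusedSectionVars false

namespace Pool.Agent.W519.M

open Matrix

variable {K : Type} [Field K] [IsAlgClosed K] [CharZero K] [Algebra K ℂ]
variable {I S J Λ W : Type} [Fintype I] [Fintype S] [Fintype J] [Fintype Λ]
  [Fintype W] [DecidableEq I] [DecidableEq S] [DecidableEq J] [DecidableEq Λ] [DecidableEq W]

section general

variable {N : Type} [Fintype N] [DecidableEq N] {F : Set (MvPolynomial (N × N) K)}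

/-- The matrix `M` is a complex point of the closed subgroup scheme. -/
def InH (F : Set (MvPolynomial (N × N) K)) (M : Matrix N N ℂ) : Prop :=
  ∃ m : GL N ℂ, m ∈ points F ℂ ∧ (m : Matrix N N ℂ) = M

theorem InH.mul (hF : IsSubgroupScheme F) {M M' : Matrix N N ℂ} (h : InH F M) (h' : InH F M') :
    InH F (M * M') := by
  obtain ⟨m, hm, rfl⟩ := h
  obtain ⟨m', hm', rfl⟩ := h'
  exact ⟨m * m', hF.mul_mem _ _ _ hm hm', Units.val_mul m m'⟩

theorem InH.unip (hF : IsSubgroupScheme F) {X : Matrix N N ℂ} (hX : X * X = 0)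
    (hL : InLie F X) : InH F (1 + X) :=
  ⟨M.unip X hX, unip_mem hF hX hL, rfl⟩

theorem inLie_sum {A : Type} (s : Finset A) (X : A → Matrix N N ℂ)
    (h : ∀ a ∈ s, InLie F (X a)) : InLie F (∑ a ∈ s, X a) := by
  classical
  induction s using Finset.induction_on with
  | empty =>
    intro f _
    rw [Finset.sum_empty]
    have := dAt_smul f (1 : Matrix N N ℂ) (0 : Matrix N N ℂ) (0 : ℂ)
    rw [zero_smul, zero_mul] at this
    exact this
  | insert a s ha ih =>
    rw [Finset.sum_insert ha]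
    exact inLie_add (h a (Finset.mem_insert_self _ _))
      (ih fun b hb => h b (Finset.mem_insert_of_mem hb))

end general

/-- Factorisation of `SL_2`. -/
theorem sl2_factor {h : M2 ℂ} (hd : h.det = 1) : ∃ a b c e : ℂ,
    h = (1 + a • eF) * (1 + b • eE) * (1 + c • eF) * (1 + e • eE) := by
  rw [Matrix.det_fin_two] at hd
  have key : ∀ k : M2 ℂ, k 0 0 * k 1 1 - k 0 1 * k 1 0 = 1 → k 1 0 ≠ 0 → ∃ b c e : ℂ,
      k = (1 + b • eE) * (1 + c • eF) * (1 + e • eE) := by
    intro k hk h10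
    refine ⟨(k 0 0 - 1) / k 1 0, k 1 0, (k 1 1 - 1) / k 1 0, ?_⟩
    ext i j
    fin_cases i <;> fin_cases j <;>
      simp only [Fin.mk_one, Fin.zero_eta, Matrix.mul_apply, Fin.sum_univ_two, Matrix.add_apply,
        Matrix.smul_apply, smul_eq_mul, E00, E01, E10, E11, F00, F01, F10, F11, Matrix.one_apply_eq,
        Matrix.one_apply_ne (show (0 : Fin 2) ≠ 1 by decide),
        Matrix.one_apply_ne (show (1 : Fin 2) ≠ 0 by decide)] <;> field_simp
    · ring
    · linear_combination (-(k 1 0)) * hk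
    · ring
    · ring
  by_cases h10 : h 1 0 = 0
  · have h00 : h 0 0 ≠ 0 := by
      intro h0
      rw [h0, h10] at hd
      simp at hd
    obtain ⟨b, c, e, hk⟩ := key ((1 + (-1 : ℂ) • eF) * h) (by
      simp only [Matrix.mul_apply, Fin.sum_univ_two, Matrix.add_apply,
        Matrix.smul_apply, smul_eq_mul, F00, F01, F10, F11, Matrix.one_apply_eq,
        Matrix.one_apply_ne (show (0 : Fin 2) ≠ 1 by decide),
        Matrix.one_apply_ne (show (1 : Fin 2) ≠ 0 by decide)]
      linear_combination hd) (by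
      simp only [Matrix.mul_apply, Fin.sum_univ_two, Matrix.add_apply,
        Matrix.smul_apply, smul_eq_mul, F10, F11, Matrix.one_apply_eq,
        Matrix.one_apply_ne (show (1 : Fin 2) ≠ 0 by decide), h10]
      simpa using h00)
    refine ⟨1, b, c, e, ?_⟩
    have h1 : (1 + (1 : ℂ) • eF) * (1 + (-1 : ℂ) • eF) = (1 : M2 ℂ) := by
      ext i j
      fin_cases i <;> fin_cases j <;>
      simp [Matrix.mul_apply, Fin.sum_univ_two, Matrix.add_apply,
        Matrix.smul_apply, smul_eq_mul, F00, F01, F10, F11]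
    calc h = (1 + (1 : ℂ) • eF) * ((1 + (-1 : ℂ) • eF) * h) := by
          rw [← mul_assoc, h1, one_mul]
      _ = _ := by
          rw [hk]
          simp only [mul_assoc]
  · obtain ⟨b, c, e, hk⟩ := key h hd h10
    refine ⟨0, b, c, e, ?_⟩
    rw [zero_smul, add_zero, one_mul]
    exact hk

/-- The matrices `1 + X` as block matrices. -/
theorem one_add_mat (h : S → M2 ℂ) (q : Matrix I (Fin 2 × S) ℂ) (u : Matrix (Fin 2 × S) W ℂ)
    (z : Matrix I W ℂ) : 1 + mat 0 h q u z 0 = mat 1 (fun s => 1 + h s) q u z 1 := by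
  rw [← mat_one, mat_add]
  simp only [add_zero, zero_add]
  rfl

section

variable {F : Set (MvPolynomial ((I ⊕ ((Fin 2 × S) ⊕ (J ⊕ Λ))) ×
  (I ⊕ ((Fin 2 × S) ⊕ (J ⊕ Λ)))) K)} (hF : IsSubgroupScheme F)
  (hfull : ∀ a : Tup K I S (J ⊕ Λ), (∀ s, (a.2.1 s).trace = a.1) →
    (∀ v l, a.2.2.2.1 v (Sum.inr l) = 0) → a ∈ lieOf F)

include hfull in
theorem base (h : S → M2 K) (q : Matrix I (Fin 2 × S) K) (u : Matrix (Fin 2 × S) (J ⊕ Λ) K)
    (z : Matrix I (J ⊕ Λ) K) (ht : ∀ s, (h s).trace = 0) (hu : ∀ v l, u v (Sum.inr l) = 0) :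
    InLie F (mat (0 : ℂ) (fun s => (h s).map (algebraMap K ℂ)) (q.map (algebraMap K ℂ))
      (u.map (algebraMap K ℂ)) (z.map (algebraMap K ℂ)) 0) := by
  have h1 := (hfull (0, h, q, u, z) ht hu).1
  have h2 := inLie_map (Algebra.ofId K ℂ) h1
  have h3 : (Algebra.ofId K ℂ : K → ℂ) = algebraMap K ℂ := rfl
  rw [mat_map _ (map_zero _)] at h2
  rw [h3, map_zero] at h2
  exact h2

include hfull in
theorem lie_q (q : Matrix I (Fin 2 × S) ℂ) :
    InLie F (mat (0 : ℂ) 0 q (0 : Matrix (Fin 2 × S) (J ⊕ Λ) ℂ) 0 0) := by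
  have h1 : mat (0 : ℂ) 0 q (0 : Matrix (Fin 2 × S) (J ⊕ Λ) ℂ) 0 0 =
      ∑ x : I × (Fin 2 × S), q x.1 x.2 • mat (0 : ℂ) (fun s => (0 : M2 K).map (algebraMap K ℂ))
        ((Matrix.single x.1 x.2 (1 : K)).map (algebraMap K ℂ))
        ((0 : Matrix (Fin 2 × S) (J ⊕ Λ) K).map (algebraMap K ℂ))
        ((0 : Matrix I (J ⊕ Λ) K).map (algebraMap K ℂ)) 0 := by
    ext a b
    rw [Matrix.sum_apply]
    rcases a with i | v | w <;> rcases b with i' | v' | w'
    · simp [mat]
    · simp only [mat, fromBlocks_apply₁₂, fromCols_apply_inl, Matrix.smul_apply, Matrix.map_apply,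
        smul_eq_mul]
      rw [Finset.sum_eq_single_of_mem (i, v') (Finset.mem_univ _)]
      · simp
      · rintro ⟨i2, v2⟩ _ hne
        rw [Matrix.single_apply_of_ne, map_zero, mul_zero]
        rintro ⟨rfl, rfl⟩
        exact hne rfl
    · simp [mat]
    · simp [mat]
    · simp [mat, blockDiagonal_apply]
    · simp [mat]
    · simp [mat]
    · simp [mat]
    · simp [mat]
  rw [h1]
  refine inLie_sum _ _ fun x _ => inLie_smul _ (base hfull _ _ _ _ (fun s => ?_) fun v l => rfl)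
  exact Matrix.trace_zero _ _

include hfull in
theorem lie_u (u : Matrix (Fin 2 × S) J ℂ) :
    InLie F (mat (0 : ℂ) 0 (0 : Matrix I (Fin 2 × S) ℂ) (fromCols u (0 : Matrix _ Λ ℂ)) 0 0) := by
  have h1 : mat (0 : ℂ) 0 (0 : Matrix I (Fin 2 × S) ℂ) (fromCols u (0 : Matrix _ Λ ℂ)) 0 0 =
      ∑ x : (Fin 2 × S) × J, u x.1 x.2 • mat (0 : ℂ) (fun s => (0 : M2 K).map (algebraMap K ℂ))
        ((0 : Matrix I (Fin 2 × S) K).map (algebraMap K ℂ))
        ((fromCols (Matrix.single x.1 x.2 (1 : K)) (0 : Matrix _ Λ K)).map (algebraMap K ℂ))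
        ((0 : Matrix I (J ⊕ Λ) K).map (algebraMap K ℂ)) 0 := by
    ext a b
    rw [Matrix.sum_apply]
    rcases a with i | v | w <;> rcases b with i' | v' | w'
    · simp [mat]
    · simp [mat]
    · simp [mat]
    · simp [mat]
    · simp [mat, blockDiagonal_apply]
    · rcases w' with j | l
      · simp only [mat, fromBlocks_apply₂₂, fromBlocks_apply₁₂, fromCols_apply_inl,
          Matrix.smul_apply, Matrix.map_apply, smul_eq_mul]
        rw [Finset.sum_eq_single_of_mem (v, j) (Finset.mem_univ _)]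
        · simp
        · rintro ⟨i2, v2⟩ _ hne
          rw [Matrix.single_apply_of_ne, map_zero, mul_zero]
          rintro ⟨rfl, rfl⟩
          exact hne rfl
      · simp [mat]
    · simp [mat]
    · simp [mat]
    · simp [mat]
  rw [h1]
  refine inLie_sum _ _ fun x _ => inLie_smul _ (base hfull _ _ _ _ (fun s => ?_) fun v l => ?_)
  · exact Matrix.trace_zero _ _
  · simp

include hfull in
theorem lie_z (z : Matrix I (J ⊕ Λ) ℂ) :
    InLie F (mat (0 : ℂ) 0 (0 : Matrix I (Fin 2 × S) ℂ) 0 z 0) := by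
  have h1 : mat (0 : ℂ) 0 (0 : Matrix I (Fin 2 × S) ℂ) 0 z 0 =
      ∑ x : I × (J ⊕ Λ), z x.1 x.2 • mat (0 : ℂ) (fun s => (0 : M2 K).map (algebraMap K ℂ))
        ((0 : Matrix I (Fin 2 × S) K).map (algebraMap K ℂ))
        ((0 : Matrix (Fin 2 × S) (J ⊕ Λ) K).map (algebraMap K ℂ))
        ((Matrix.single x.1 x.2 (1 : K)).map (algebraMap K ℂ)) 0 := by
    ext a b
    rw [Matrix.sum_apply]
    rcases a with i | v | w <;> rcases b with i' | v' | w'
    · simp [mat]
    · simp [mat]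
    · simp only [mat, fromBlocks_apply₁₂, fromCols_apply_inr, Matrix.smul_apply, Matrix.map_apply,
        smul_eq_mul]
      rw [Finset.sum_eq_single_of_mem (i, w') (Finset.mem_univ _)]
      · simp
      · rintro ⟨i2, v2⟩ _ hne
        rw [Matrix.single_apply_of_ne, map_zero, mul_zero]
        rintro ⟨rfl, rfl⟩
        exact hne rfl
    · simp [mat]
    · simp [mat, blockDiagonal_apply]
    · simp [mat]
    · simp [mat]
    · simp [mat]
    · simp [mat]
  rw [h1]
  refine inLie_sum _ _ fun x _ => inLie_smul _ (base hfull _ _ _ _ (fun s => ?_) fun v l => rfl)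
  exact Matrix.trace_zero _ _

include hfull in
theorem lie_h (y : S → ℂ) {B : M2 K} (hB : B.trace = 0) :
    InLie F (mat (0 : ℂ) (fun s => y s • B.map (algebraMap K ℂ)) (0 : Matrix I (Fin 2 × S) ℂ) 0
      (0 : Matrix I (J ⊕ Λ) ℂ) 0) := by
  have h1 : mat (0 : ℂ) (fun s => y s • B.map (algebraMap K ℂ)) (0 : Matrix I (Fin 2 × S) ℂ) 0
      (0 : Matrix I (J ⊕ Λ) ℂ) 0 =
      ∑ x : S, y x • mat (0 : ℂ) (fun s => ((Pi.single x B : S → M2 K) s).map (algebraMap K ℂ))
        ((0 : Matrix I (Fin 2 × S) K).map (algebraMap K ℂ))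
        ((0 : Matrix (Fin 2 × S) (J ⊕ Λ) K).map (algebraMap K ℂ))
        ((0 : Matrix I (J ⊕ Λ) K).map (algebraMap K ℂ)) 0 := by
    ext a b
    rw [Matrix.sum_apply]
    rcases a with i | v | w <;> rcases b with i' | v' | w'
    · simp [mat]
    · simp [mat]
    · simp [mat]
    · simp [mat]
    · simp only [mat, fromBlocks_apply₂₂, fromBlocks_apply₁₁, Matrix.smul_apply, smul_eq_mul]
      rw [blockDiagonal_apply]
      by_cases hv : v.2 = v'.2
      · rw [if_pos hv, Finset.sum_eq_single_of_mem v.2 (Finset.mem_univ _)]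
        · rw [blockDiagonal_apply, if_pos hv, Pi.single_eq_same]
          rfl
        · intro s _ hs
          rw [blockDiagonal_apply, if_pos hv, Pi.single_eq_of_ne (Ne.symm hs)]
          simp
      · rw [if_neg hv]
        symm
        refine Finset.sum_eq_zero fun s _ => ?_
        rw [blockDiagonal_apply, if_neg hv, mul_zero]
    · simp [mat]
    · simp [mat]
    · simp [mat]
    · simp [mat]
  rw [h1]
  refine inLie_sum _ _ fun x _ => inLie_smul _ (base hfull _ _ _ _ (fun s => ?_) fun v l => rfl)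
  by_cases hs : s = x
  · subst hs
    rw [Pi.single_eq_same, hB]
  · rw [Pi.single_eq_of_ne hs]
    exact Matrix.trace_zero _ _

include hF hfull in
theorem inH_h (y : S → ℂ) {B : M2 K} (hB : B.trace = 0) (hBB : B * B = 0) :
    InH F (mat (1 : ℂ) (fun s => 1 + y s • B.map (algebraMap K ℂ)) (0 : Matrix I (Fin 2 × S) ℂ) 0
      (0 : Matrix I (J ⊕ Λ) ℂ) 1) := by
  rw [← one_add_mat]
  refine InH.unip hF ?_ (lie_h hfull y hB)
  have h1 : (B.map (algebraMap K ℂ)) * (B.map (algebraMap K ℂ)) = 0 := by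
    rw [← Matrix.map_mul, hBB]
    ext i j
    simp
  rw [mat_mul]
  simp only [Matrix.smul_mul, Matrix.mul_smul, h1, smul_zero, Matrix.zero_mul, Matrix.mul_zero,
    add_zero, mul_zero]
  have h2 := mat_smul (0 : ℂ) (0 : ℂ) (0 : S → M2 ℂ) (0 : Matrix I (Fin 2 × S) ℂ)
          (0 : Matrix (Fin 2 × S) (J ⊕ Λ) ℂ) (0 : Matrix I (J ⊕ Λ) ℂ) 0
  rw [zero_smul, mul_zero, smul_zero, smul_zero, smul_zero, smul_zero] at h2
  exact h2.symm

include hF hfull in
/-- Elements with determinant one are points. -/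
theorem inH_one {h : S → M2 ℂ} (hh : ∀ s, (h s).det = 1) (q : Matrix I (Fin 2 × S) ℂ)
    (u : Matrix (Fin 2 × S) J ℂ) (z : Matrix I (J ⊕ Λ) ℂ) :
    InH F (mat 1 h q (fromCols u (0 : Matrix _ Λ ℂ)) z 1) := by
  have zer := mat_smul (0 : ℂ) (0 : ℂ) (0 : S → M2 ℂ) (0 : Matrix I (Fin 2 × S) ℂ)
          (0 : Matrix (Fin 2 × S) (J ⊕ Λ) ℂ) (0 : Matrix I (J ⊕ Λ) ℂ) 0
  rw [zero_smul, mul_zero, smul_zero, smul_zero, smul_zero, smul_zero] at zer
  have hbd0 : blockDiagonal (0 : S → M2 ℂ) = 0 := blockDiagonal_zero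
  have hbd1 : blockDiagonal (fun _ : S => (1 : M2 ℂ)) = 1 := blockDiagonal_one
  choose a b c e hfac using fun s => sl2_factor (hh s)
  have hE : (eE : M2 ℂ) = (eE : M2 K).map (algebraMap K ℂ) := by
    ext i j
    fin_cases i <;> fin_cases j <;> simp [eE]
  have hFm : (eF : M2 ℂ) = (eF : M2 K).map (algebraMap K ℂ) := by
    ext i j
    fin_cases i <;> fin_cases j <;> simp [eF]
  have hEE : (eE * eE : M2 K) = 0 := by
    ext i j
    fin_cases i <;> fin_cases j <;>
      simp only [Fin.mk_one, Fin.zero_eta, Matrix.mul_apply, Fin.sum_univ_two, E00, E01, E10, E11,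
        Matrix.zero_apply] <;> ring
  have hFF : (eF * eF : M2 K) = 0 := by
    ext i j
    fin_cases i <;> fin_cases j <;>
      simp only [Fin.mk_one, Fin.zero_eta, Matrix.mul_apply, Fin.sum_univ_two, F00, F01, F10, F11,
        Matrix.zero_apply] <;> ring
  -- the diagonal part
  have d1 : InH F (mat 1 h (0 : Matrix I (Fin 2 × S) ℂ) 0 (0 : Matrix I (J ⊕ Λ) ℂ) 1) := by
    have h1 := ((inH_h hF hfull a trF hFF).mul hF (inH_h hF hfull b trE hEE)).mul hF
      ((inH_h hF hfull c trF hFF).mul hF (inH_h hF hfull e trE hEE))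
    convert h1 using 1
    rw [mat_mul, mat_mul, mat_mul]
    simp only [Matrix.mul_zero, smul_zero, add_zero, Matrix.zero_mul, mul_one]
    congr 1
    funext s
    rw [← hE, ← hFm, ← mul_assoc]
    exact hfac s
  -- the unipotent part
  set q' := q * blockDiagonal fun s => (h s)⁻¹ with hq'
  have dq : InH F (mat 1 (fun _ => 1) q' (0 : Matrix (Fin 2 × S) (J ⊕ Λ) ℂ) 0 1) := by
    have h1 := one_add_mat (S := S) 0 q' (0 : Matrix (Fin 2 × S) (J ⊕ Λ) ℂ) 0
    simp only [Pi.zero_apply, add_zero] at h1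
    rw [← h1]
    refine InH.unip hF ?_ (lie_q hfull q')
    rw [mat_mul]
    simp only [Pi.zero_apply, Matrix.mul_zero, smul_zero, zero_smul, add_zero, Matrix.zero_mul,
      mul_zero, hbd0]
    exact zer.symm
  have du : InH F (mat 1 (fun _ => 1) (0 : Matrix I (Fin 2 × S) ℂ) (fromCols u (0 : Matrix _ Λ ℂ)) 0
      1) := by
    have h1 := one_add_mat (S := S) 0 (0 : Matrix I (Fin 2 × S) ℂ) (fromCols u (0 : Matrix _ Λ ℂ)) 0
    simp only [Pi.zero_apply, add_zero] at h1
    rw [← h1]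
    refine InH.unip hF ?_ (lie_u hfull u)
    rw [mat_mul]
    simp only [Pi.zero_apply, Matrix.mul_zero, smul_zero, zero_smul, add_zero, Matrix.zero_mul,
      mul_zero, hbd0]
    exact zer.symm
  set z' := z - q' * fromCols u (0 : Matrix _ Λ ℂ) with hz'
  have dz : InH F (mat 1 (fun _ => 1) (0 : Matrix I (Fin 2 × S) ℂ) 0 z' 1) := by
    have h1 := one_add_mat (S := S) 0 (0 : Matrix I (Fin 2 × S) ℂ) 0 z'
    simp only [Pi.zero_apply, add_zero] at h1
    rw [← h1]
    refine InH.unip hF ?_ (lie_z hfull z')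
    rw [mat_mul]
    simp only [Pi.zero_apply, Matrix.mul_zero, smul_zero, zero_smul, add_zero, Matrix.zero_mul,
      mul_zero, hbd0]
    exact zer.symm
  have h1 := ((dq.mul hF du).mul hF dz).mul hF d1
  convert h1 using 1
  rw [mat_mul, mat_mul, mat_mul]
  simp only [Matrix.mul_zero, smul_zero, zero_add, add_zero, Matrix.zero_mul, mul_one, one_smul,
    hbd1, Matrix.one_mul, Matrix.mul_one, one_mul]
  congr 1
  · rw [hq', Matrix.mul_assoc, ← blockDiagonal_mul]
    have h2 : (fun s => (h s)⁻¹ * h s) = fun _ => (1 : M2 ℂ) := by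
      funext s
      exact Matrix.nonsing_inv_mul _ (by rw [hh]; exact isUnit_one)
    rw [h2, hbd1, Matrix.mul_one]
  · rw [hz', sub_add_cancel]

end

end Pool.Agent.W519.M
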