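import Mathlib
import Pool.Agent.W519.M.Grp

/-!
# The theorem on 1-motives
-/

set_option linter.unusedSectionVars false

namespace Pool.Agent.W519.M

open Matrix

variable {K : Type} [Field K] [IsAlgClosed K] [CharZero K] [Algebra K ℂ]
variable {I S J Λ W : Type} [Fintype I] [Fintype S] [Fintype J] [Fintype Λ]
  [Fintype W] [DecidableEq I] [DecidableEq S] [DecidableEq J] [DecidableEq Λ] [DecidableEq W]

/-- The unit given by a diagonal block matrix. -/
def diagU (I W : Type) [Fintype I] [Fintype W] [DecidableEq I] [DecidableEq W]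
    {R : Type} [CommRing R] (d d' : R) (h h' : S → M2 R) (hd : d * d' = 1)
    (hh : ∀ s, h s * h' s = 1) : GL (I ⊕ ((Fin 2 × S) ⊕ W)) R where
  val := mat d h 0 0 0 1
  inv := mat d' h' 0 0 0 1
  val_inv := by
    rw [mat_mul, hd]
    simp only [hh, Matrix.mul_zero, smul_zero, add_zero, Matrix.zero_mul, mul_one]
    exact mat_one
  inv_val := by
    have hh' : ∀ s, h' s * h s = 1 := fun s => mul_eq_one_comm.1 (hh s)
    rw [mat_mul, mul_comm d', hd]
    simp only [hh', Matrix.mul_zero, smul_zero, add_zero, Matrix.zero_mul, mul_one]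
    exact mat_one

/-- The matrix `diag(x, 1)`. -/
def tt {R : Type} [CommRing R] (x : R) : M2 R := !![x, 0; 0, 1]

theorem tt_mul {R : Type} [CommRing R] {x y : R} (h : x * y = 1) : tt x * tt y = 1 := by
  ext i j
  fin_cases i <;> fin_cases j <;> simp [tt, Matrix.mul_apply, Fin.sum_univ_two, h]

theorem det_tt {R : Type} [CommRing R] (x : R) : (tt x).det = x := by
  rw [Matrix.det_fin_two]
  simp [tt]

/-- The torus element. -/
noncomputable def Tu (I S W : Type) [Fintype I] [Fintype W] [DecidableEq I] [DecidableEq W]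
    [Fintype S] [DecidableEq S] (x : ℂ) (hx : x ≠ 0) :
    GL (I ⊕ ((Fin 2 × S) ⊕ W)) ℂ :=
  diagU I W x x⁻¹ (fun _ => tt x) (fun _ => tt x⁻¹) (mul_inv_cancel₀ hx)
    (fun _ => tt_mul (mul_inv_cancel₀ hx))

theorem Tu_val (x : ℂ) (hx : x ≠ 0) :
    (Tu I S W x hx).val = mat x (fun _ => tt x) 0 0 0 1 := rfl

theorem bd_tt_mul {x y : ℂ} (h : x * y = 1) :
    blockDiagonal (fun _ : S => tt x) * blockDiagonal (fun _ : S => tt y) = 1 := by
  rw [← blockDiagonal_mul]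
  simp only [tt_mul h]
  exact blockDiagonal_one

section

variable {F : Set (MvPolynomial ((I ⊕ ((Fin 2 × S) ⊕ (J ⊕ Λ))) ×
  (I ⊕ ((Fin 2 × S) ⊕ (J ⊕ Λ)))) K)} (hF : IsSubgroupScheme F)
  (hfull : ∀ a : Tup K I S (J ⊕ Λ), (∀ s, (a.2.1 s).trace = a.1) →
    (∀ v l, a.2.2.2.1 v (Sum.inr l) = 0) → a ∈ lieOf F)

include hF hfull in
/-- Elements of the motivic group are products of torus elements and points. -/
theorem split {m : GL (I ⊕ ((Fin 2 × S) ⊕ (J ⊕ Λ))) ℂ} {d : ℂ} {h : S → M2 ℂ}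
    {q : Matrix I (Fin 2 × S) ℂ} {u : Matrix (Fin 2 × S) J ℂ}
    {z : Matrix I J ℂ} {l : Matrix I Λ ℂ} (hd : d ≠ 0) (hh : ∀ s, (h s).det = d)
    (hm : (m : Matrix _ _ ℂ) = blk d h q u z l) :
    ∃ v ∈ points F ℂ, m = Tu I S (J ⊕ Λ) d hd * v := by
  have hdd := mul_inv_cancel₀ hd
  obtain ⟨v, hv, hvm⟩ := inH_one hF hfull (h := fun s => tt d⁻¹ * h s) (fun s => by
    rw [Matrix.det_mul, det_tt, hh, inv_mul_cancel₀ hd]) (d⁻¹ • q)
    (blockDiagonal (fun _ : S => tt d⁻¹) * u) (d⁻¹ • fromCols z l)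
  refine ⟨v, hv, ?_⟩
  apply Units.ext
  rw [Units.val_mul, hm, Tu_val, hvm, mat_mul]
  unfold blk
  congr 1
  · rw [mul_one]
  · funext s
    rw [← mul_assoc, tt_mul hdd, one_mul]
  · rw [Matrix.zero_mul, add_zero, smul_smul, hdd, one_smul]
  · rw [smul_zero, add_zero]
    have h1 : fromCols (blockDiagonal (fun _ : S => tt d⁻¹) * u) (0 : Matrix _ Λ ℂ) =
        blockDiagonal (fun _ : S => tt d⁻¹) * fromCols u 0 := by
      rw [mul_fromCols, Matrix.mul_zero]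
    rw [h1, ← Matrix.mul_assoc, bd_tt_mul hdd, Matrix.one_mul]
  · rw [Matrix.zero_mul, smul_zero, add_zero, add_zero, smul_smul, hdd, one_smul]
  · rw [mul_one]

/-- The image of an invertible matrix over `K`. -/
noncomputable abbrev cc {N : Type} [Fintype N] [DecidableEq N] (A : GL N K) : GL N ℂ :=
  gmap (Algebra.ofId K ℂ) A

include hF in
/-- Translates of the torus. -/
theorem torus {p : ℂ} (hp0 : p ≠ 0) (hp : ∀ c : K, algebraMap K ℂ c ≠ p)
    {B : GL (I ⊕ ((Fin 2 × S) ⊕ (J ⊕ Λ))) K}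
    (hB : cc B * Tu I S (J ⊕ Λ) p hp0 ∈ points F ℂ) (x : ℂ) (hx : x ≠ 0) :
    Tu I S (J ⊕ Λ) x hx ∈ points F ℂ := by
  have key : ∀ (x : ℂ) (hx : x ≠ 0), cc B * Tu I S (J ⊕ Λ) x hx ∈ points F ℂ := by
    intro x hx f hf
    let TP : Matrix (I ⊕ ((Fin 2 × S) ⊕ (J ⊕ Λ))) (I ⊕ ((Fin 2 × S) ⊕ (J ⊕ Λ))) (Polynomial K) :=
      mat Polynomial.X (fun _ => tt Polynomial.X) 0 0 0 1
    let BP : Matrix (I ⊕ ((Fin 2 × S) ⊕ (J ⊕ Λ))) (I ⊕ ((Fin 2 × S) ⊕ (J ⊕ Λ))) (Polynomial K) :=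
      (B : Matrix _ _ K).map Polynomial.C
    have h1 : ∀ (y : ℂ) (hy : y ≠ 0), ((cc B * Tu I S (J ⊕ Λ) y hy : GL _ ℂ) : Matrix _ _ ℂ) =
        (BP * TP).map (Polynomial.aeval y : Polynomial K →ₐ[K] ℂ) := by
      intro y hy
      rw [Units.val_mul, gmap_val, Tu_val, map_mul_alg]
      congr 1
      · ext i j
        simp only [BP, Matrix.map_apply, Polynomial.aeval_C]
        rfl
      · rw [mat_map _ (map_zero _)]
        congr 1
        · rw [Polynomial.aeval_X]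
        · funext s
          ext i j
          fin_cases i <;> fin_cases j <;> simp [tt]
        · ext i j; simp
        · ext i j; simp
        · ext i j; simp
        · rw [map_one]
    have h2 : ev f (BP * TP) = 0 := by
      by_contra hne
      have h3 := hB f hf
      rw [h1, ev_map] at h3
      have h4 : IsAlgebraic K p := ⟨_, hne, h3⟩
      have h5 := IsAlgClosed.degree_eq_one_of_irreducible K (minpoly.irreducible h4.isIntegral)
      obtain ⟨c, hc⟩ := minpoly.mem_range_of_degree_eq_one K p h5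
      exact hp c hc
    rw [h1, ev_map, h2, map_zero]
  have h1 := key 1 one_ne_zero
  have hT1 : Tu I S (J ⊕ Λ) 1 one_ne_zero = 1 := by
    apply Units.ext
    rw [Tu_val]
    have : (fun _ : S => tt (1 : ℂ)) = fun _ => 1 := by
      funext s
      ext i j
      fin_cases i <;> fin_cases j <;> simp [tt]
    rw [this]
    exact mat_one
  rw [hT1, mul_one] at h1
  have h2 := hF.mul_mem _ _ _ (hF.inv_mem _ _ h1) (key x hx)
  rwa [← mul_assoc, inv_mul_cancel, one_mul] at h2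

end

/-- The period matrix is, up to an invertible matrix over `K`, in the motivic group. -/
theorem exists_mot {p : ℂ} (hp : p ≠ 0) {g : S → M2 ℂ}
    (hdet : ∀ s, ∃ c : K, c ≠ 0 ∧ (g s).det = algebraMap K ℂ c * p)
    (ξ : Matrix I (Fin 2 × S) ℂ) (U : Matrix (Fin 2 × S) J ℂ)
    (lam : Matrix I J ℂ) (lg : Matrix I Λ ℂ) :
    ∃ (A : GL (I ⊕ ((Fin 2 × S) ⊕ (J ⊕ Λ))) K) (m : GL (I ⊕ ((Fin 2 × S) ⊕ (J ⊕ Λ))) ℂ)
      (h : S → M2 ℂ) (u : Matrix (Fin 2 × S) J ℂ), (∀ s, (h s).det = p) ∧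
      (m : Matrix _ _ ℂ) = blk p h ξ u lam lg ∧
      ((cc A * m : GL _ ℂ) : Matrix _ _ ℂ) = blk p g ξ U lam lg := by
  choose c hc0 hc using hdet
  let A : GL (I ⊕ ((Fin 2 × S) ⊕ (J ⊕ Λ))) K := diagU I (J ⊕ Λ) 1 1 (fun s => tt (c s))
    (fun s => tt (c s)⁻¹) (one_mul 1) (fun s => tt_mul (mul_inv_cancel₀ (hc0 s)))
  let c' : S → ℂ := fun s => algebraMap K ℂ (c s)
  have hc' : ∀ s, c' s ≠ 0 := fun s => (map_ne_zero _).2 (hc0 s)
  let h : S → M2 ℂ := fun s => tt (c' s)⁻¹ * g s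
  let u : Matrix (Fin 2 × S) J ℂ := (blockDiagonal fun s => tt (c' s)⁻¹) * U
  have hh : ∀ s, (h s).det = p := by
    intro s
    rw [Matrix.det_mul, det_tt, hc]
    have := hc' s
    change (c' s)⁻¹ * (c' s * p) = p
    rw [← mul_assoc, inv_mul_cancel₀ this, one_mul]
  -- invertibility
  have hhu : ∀ s, h s * (h s)⁻¹ = 1 := fun s =>
    Matrix.mul_nonsing_inv _ (isUnit_iff_ne_zero.2 (by rw [hh]; exact hp))
  have hm : ∃ m : GL (I ⊕ ((Fin 2 × S) ⊕ (J ⊕ Λ))) ℂ, (m : Matrix _ _ ℂ) = blk p h ξ u lam lg := by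
    let b : Matrix (I ⊕ ((Fin 2 × S) ⊕ (J ⊕ Λ))) (I ⊕ ((Fin 2 × S) ⊕ (J ⊕ Λ))) ℂ :=
      mat p⁻¹ (fun s => (h s)⁻¹) (-(p⁻¹ • (ξ * blockDiagonal fun s => (h s)⁻¹)))
        (-((blockDiagonal fun s => (h s)⁻¹) * fromCols u 0))
        (-(p⁻¹ • (fromCols lam lg - ξ * ((blockDiagonal fun s => (h s)⁻¹) * fromCols u 0)))) 1
    have hb : blk p h ξ u lam lg * b = 1 := by
      unfold blk
      rw [mat_mul, mul_inv_cancel₀ hp, mul_one]
      simp only [hhu, smul_neg, smul_smul, mul_inv_cancel₀ hp, one_smul, Matrix.mul_neg]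
      rw [neg_add_cancel]
      have hbd : blockDiagonal h * (blockDiagonal fun s => (h s)⁻¹) = 1 := by
        rw [← blockDiagonal_mul]
        simp only [hhu]
        exact blockDiagonal_one
      rw [← Matrix.mul_assoc (blockDiagonal h), hbd, Matrix.one_mul, neg_add_cancel]
      have h5 : -(fromCols lam lg - ξ * ((blockDiagonal fun s => (h s)⁻¹) *
          fromCols u (0 : Matrix _ Λ ℂ))) +
          (-(ξ * ((blockDiagonal fun s => (h s)⁻¹) * fromCols u (0 : Matrix _ Λ ℂ))) +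
            fromCols lam lg) = 0 := by abel
      rw [h5]
      exact mat_one
    exact ⟨⟨blk p h ξ u lam lg, b, hb, mul_eq_one_comm.1 hb⟩, rfl⟩
  obtain ⟨m, hm⟩ := hm
  refine ⟨A, m, h, u, hh, hm, ?_⟩
  rw [Units.val_mul, gmap_val, hm]
  have hA : A.val.map (Algebra.ofId K ℂ) =
      mat 1 (fun s => tt (c' s)) 0 0 0 1 := by
    change (mat 1 (fun s => tt (c s)) 0 0 0 1 : Matrix (I ⊕ ((Fin 2 × S) ⊕ (J ⊕ Λ))) _ K).map
      (Algebra.ofId K ℂ) = _
    rw [mat_map _ (map_zero _)]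
    congr 1
    · rw [map_one]
    · funext s
      ext i j
      fin_cases i <;> fin_cases j <;> simp [tt, c', Algebra.ofId_apply]
    · ext i j; simp
    · ext i j; simp
    · ext i j; simp
    · rw [map_one]
  rw [hA]
  unfold blk
  have htt : ∀ s, tt (c' s) * tt (c' s)⁻¹ = 1 := fun s => tt_mul (mul_inv_cancel₀ (hc' s))
  rw [mat_mul]
  congr 1
  · rw [one_mul]
  · funext s
    change tt (c' s) * (tt (c' s)⁻¹ * g s) = g s
    rw [← mul_assoc, htt, one_mul]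
  · rw [Matrix.zero_mul, add_zero, one_smul]
  · rw [smul_zero, add_zero]
    have h1 : fromCols u (0 : Matrix _ Λ ℂ) =
        (blockDiagonal fun s => tt (c' s)⁻¹) * fromCols U 0 := by
      rw [mul_fromCols, Matrix.mul_zero]
    have h2 : (blockDiagonal fun s => tt (c' s)) * (blockDiagonal fun s => tt (c' s)⁻¹) = 1 := by
      rw [← blockDiagonal_mul]
      simp only [htt]
      exact blockDiagonal_one
    rw [h1, ← Matrix.mul_assoc, h2, Matrix.one_mul]
  · rw [Matrix.zero_mul, smul_zero, add_zero, add_zero, one_smul]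
  · rw [mul_one]

/-- The motivic group is contained in all closed subgroup schemes over `K` a translate of which, by
a `K`-rational matrix, contains the period matrix. -/
theorem main [Nonempty S] {p : ℂ} (hp : p ≠ 0) {g : S → M2 ℂ} {ξ : Matrix I (Fin 2 × S) ℂ}
    {U : Matrix (Fin 2 × S) J ℂ} {lam : Matrix I J ℂ} {lg : Matrix I Λ ℂ}
    (hdet : ∀ s, ∃ c : K, c ≠ 0 ∧ (g s).det = algebraMap K ℂ c * p)
    (hlin : LinearIndependent K (fam p g ξ U lg))
    {F : Set (MvPolynomial ((I ⊕ ((Fin 2 × S) ⊕ (J ⊕ Λ))) ×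
      (I ⊕ ((Fin 2 × S) ⊕ (J ⊕ Λ)))) K)} (hF : IsSubgroupScheme F)
    {A : GL (I ⊕ ((Fin 2 × S) ⊕ (J ⊕ Λ))) K} {h : GL (I ⊕ ((Fin 2 × S) ⊕ (J ⊕ Λ))) ℂ}
    (hh : h ∈ points F ℂ)
    (hP : ((cc A * h : GL _ ℂ) : Matrix _ _ ℂ) = blk p g ξ U lam lg)
    {m : GL (I ⊕ ((Fin 2 × S) ⊕ (J ⊕ Λ))) ℂ} (hm : m ∈ motGroup I S J Λ) : m ∈ points F ℂ := by
  have hg := hg_det hp hdet
  -- logarithmic derivatives
  have hY : ∀ D : Derivation K ℂ ℂ, InLie F (mat (YD p g ξ (fromCols U 0) (fromCols lam lg) D).1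
    (YD p g ξ (fromCols U 0) (fromCols lam lg) D).2.1
    (YD p g ξ (fromCols U 0) (fromCols lam lg) D).2.2.1
    (YD p g ξ (fromCols U 0) (fromCols lam lg) D).2.2.2.1
    (YD p g ξ (fromCols U 0) (fromCols lam lg) D).2.2.2.2 0) := by
    intro D
    have h1 := logDer_mem hF hh D
    have h2 := mat_YD ξ (fromCols U (0 : Matrix _ Λ ℂ)) (fromCols lam lg) hp hg D
    have h3 : ((h⁻¹ : GL _ ℂ) : Matrix _ _ ℂ) * (((cc A)⁻¹ : GL _ ℂ) : Matrix _ _ ℂ) *
        mat p g ξ (fromCols U (0 : Matrix _ Λ ℂ)) (fromCols lam lg) 1 = 1 := by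
      change _ * blk p g ξ U lam lg = 1
      rw [← hP, ← Units.val_mul, ← Units.val_mul, ← Units.val_one]
      congr 1
      group
    have h4 : (mat p g ξ (fromCols U (0 : Matrix _ Λ ℂ)) (fromCols lam lg) 1).map D =
        (cc A : Matrix _ _ ℂ) * (h : Matrix _ _ ℂ).map D := by
      change (blk p g ξ U lam lg).map D = _
      rw [← hP, Units.val_mul, D_mul]
      have h5 : (cc A).val.map D = 0 := D_K D A.val
      rw [h5, zero_mul, zero_add]
    have h5 := congrArg (fun X => ((h⁻¹ : GL _ ℂ) : Matrix _ _ ℂ) *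
      (((cc A)⁻¹ : GL _ ℂ) : Matrix _ _ ℂ) * X) h2
    simp only [← mul_assoc] at h5
    rw [h3, one_mul] at h5
    have h6 : ((cc A)⁻¹).val * (cc A).val = 1 := by
      rw [← Units.val_mul, inv_mul_cancel, Units.val_one]
    rw [h5, h4, mul_assoc, ← mul_assoc ((cc A)⁻¹).val, h6, one_mul]
    exact h1
  have hsys := lieSys hF hp hdet hlin hY
  have hfull := fun a htr hu => lie_full hsys a htr hu
  -- the period matrix
  obtain ⟨A', m', h', u', hh', hm', hP'⟩ := exists_mot (K := K) hp hdet ξ U lam lg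
  obtain ⟨v', hv', hsp'⟩ := split hF hfull hp hh' hm'
  have hB : cc (A⁻¹ * A') * Tu I S (J ⊕ Λ) p hp ∈ points F ℂ := by
    have h1 : cc A * h = cc A' * m' := by
      apply Units.ext
      rw [hP, hP']
    rw [hsp'] at h1
    have h2 : cc (A⁻¹ * A') * Tu I S (J ⊕ Λ) p hp = h * v'⁻¹ := by
      have e : cc (A⁻¹ * A') = (cc A)⁻¹ * cc A' := by
        rw [cc, map_mul, map_inv]
      rw [e]
      have h3 : cc A' * Tu I S (J ⊕ Λ) p hp = cc A * h * v'⁻¹ := by
        rw [h1]; group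
      rw [mul_assoc, h3]
      group
    rw [h2]
    exact hF.mul_mem _ _ _ hh (hF.inv_mem _ _ hv')
  have hpK : ∀ c : K, algebraMap K ℂ c ≠ p := by
    intro c hc
    obtain ⟨-, h1, -⟩ := rel hlin c (-1) 0 0 0 0 (by
      simp [hc])
    exact (neg_ne_zero.2 one_ne_zero) h1
  obtain ⟨d, h1, q, u, z, l, hd, hh1, hm1⟩ := hm
  obtain ⟨v, hv, hsp⟩ := split hF hfull hd hh1 hm1
  rw [hsp]
  exact hF.mul_mem _ _ _ (torus hF hp hpK hB d hd) hv

end Pool.Agent.W519.M
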