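import Mathlib
import Pool.Agent.W519.M.Fin

/-!
# The motivic group is a closed subgroup scheme over `K`
-/

set_option linter.unusedSectionVars false

namespace Pool.Agent.W519.M

open Matrix

variable {K : Type} [Field K] [IsAlgClosed K] [CharZero K] [Algebra K ℂ]
variable {I S J Λ W : Type} [Fintype I] [Fintype S] [Fintype J] [Fintype Λ]
  [Fintype W] [DecidableEq I] [DecidableEq S] [DecidableEq J] [DecidableEq Λ] [DecidableEq W]

section ext

/-- The index type. -/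
abbrev Ix (I S J Λ : Type) : Type := I ⊕ ((Fin 2 × S) ⊕ (J ⊕ Λ))

variable {R : Type}

/-- The blocks of a matrix. -/
def hE (M : Matrix (I ⊕ ((Fin 2 × S) ⊕ (J ⊕ Λ))) (I ⊕ ((Fin 2 × S) ⊕ (J ⊕ Λ))) R) (s : S) : M2 R :=
  Matrix.of fun a b => M (Sum.inr (Sum.inl (a, s))) (Sum.inr (Sum.inl (b, s)))

def qE (M : Matrix (I ⊕ ((Fin 2 × S) ⊕ (J ⊕ Λ))) (I ⊕ ((Fin 2 × S) ⊕ (J ⊕ Λ))) R) :
    Matrix I (Fin 2 × S) R :=
  Matrix.of fun i v => M (Sum.inl i) (Sum.inr (Sum.inl v))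

def uE (M : Matrix (I ⊕ ((Fin 2 × S) ⊕ (J ⊕ Λ))) (I ⊕ ((Fin 2 × S) ⊕ (J ⊕ Λ))) R) :
    Matrix (Fin 2 × S) J R :=
  Matrix.of fun v j => M (Sum.inr (Sum.inl v)) (Sum.inr (Sum.inr (Sum.inl j)))

def zE (M : Matrix (I ⊕ ((Fin 2 × S) ⊕ (J ⊕ Λ))) (I ⊕ ((Fin 2 × S) ⊕ (J ⊕ Λ))) R) :
    Matrix I J R :=
  Matrix.of fun i j => M (Sum.inl i) (Sum.inr (Sum.inr (Sum.inl j)))

def lE (M : Matrix (I ⊕ ((Fin 2 × S) ⊕ (J ⊕ Λ))) (I ⊕ ((Fin 2 × S) ⊕ (J ⊕ Λ))) R) :
    Matrix I Λ R :=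
  Matrix.of fun i l => M (Sum.inl i) (Sum.inr (Sum.inr (Sum.inr l)))

end ext

section

variable {R : Type} [CommRing R]

theorem hE_blk (d : R) (h : S → M2 R) (q : Matrix I (Fin 2 × S) R)
    (u : Matrix (Fin 2 × S) J R) (z : Matrix I J R) (l : Matrix I Λ R) :
    hE (blk d h q u z l) = h := by
  funext s
  ext a b
  simp [hE, blk, mat, blockDiagonal_apply]

theorem qE_blk (d : R) (h : S → M2 R) (q : Matrix I (Fin 2 × S) R)
    (u : Matrix (Fin 2 × S) J R) (z : Matrix I J R) (l : Matrix I Λ R) :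
    qE (blk d h q u z l) = q := by
  ext a b
  simp [qE, blk, mat]

theorem uE_blk (d : R) (h : S → M2 R) (q : Matrix I (Fin 2 × S) R)
    (u : Matrix (Fin 2 × S) J R) (z : Matrix I J R) (l : Matrix I Λ R) :
    uE (blk d h q u z l) = u := by
  ext a b
  simp [uE, blk, mat]

theorem zE_blk (d : R) (h : S → M2 R) (q : Matrix I (Fin 2 × S) R)
    (u : Matrix (Fin 2 × S) J R) (z : Matrix I J R) (l : Matrix I Λ R) :
    zE (blk d h q u z l) = z := by
  ext a b
  simp [zE, blk, mat]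

theorem lE_blk (d : R) (h : S → M2 R) (q : Matrix I (Fin 2 × S) R)
    (u : Matrix (Fin 2 × S) J R) (z : Matrix I J R) (l : Matrix I Λ R) :
    lE (blk d h q u z l) = l := by
  ext a b
  simp [lE, blk, mat]

theorem blk_map {R' : Type} [CommRing R'] (φ : R → R') (h0 : φ 0 = 0) (h1 : φ 1 = 1)
    (d : R) (h : S → M2 R) (q : Matrix I (Fin 2 × S) R)
    (u : Matrix (Fin 2 × S) J R) (z : Matrix I J R) (l : Matrix I Λ R) :
    (blk d h q u z l).map φ = blk (φ d) (fun s => (h s).map φ) (q.map φ) (u.map φ) (z.map φ)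
      (l.map φ) := by
  unfold blk
  rw [mat_map φ h0, h1]
  congr 1
  · ext a b
    rcases b with b | b <;> simp [h0]
  · ext a b
    rcases b with b | b <;> simp

/-- The shape of the elements of the group. -/
def Shape (s₀ : S) (M : Matrix (I ⊕ ((Fin 2 × S) ⊕ (J ⊕ Λ))) (I ⊕ ((Fin 2 × S) ⊕ (J ⊕ Λ))) R) :
    Prop :=
  M = blk (hE M s₀).det (hE M) (qE M) (uE M) (zE M) (lE M) ∧ ∀ s, (hE M s).det = (hE M s₀).det

theorem shape_iff (s₀ : S)
    (M : Matrix (I ⊕ ((Fin 2 × S) ⊕ (J ⊕ Λ))) (I ⊕ ((Fin 2 × S) ⊕ (J ⊕ Λ))) R) :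
    Shape s₀ M ↔ ∃ (d : R) (h : S → M2 R) (q : Matrix I (Fin 2 × S) R)
      (u : Matrix (Fin 2 × S) J R) (z : Matrix I J R) (l : Matrix I Λ R),
      (∀ s, (h s).det = d) ∧ M = blk d h q u z l := by
  constructor
  · rintro ⟨h1, h2⟩
    exact ⟨_, _, _, _, _, _, h2, h1⟩
  · rintro ⟨d, h, q, u, z, l, hd, rfl⟩
    refine ⟨?_, ?_⟩
    · rw [hE_blk, qE_blk, uE_blk, zE_blk, lE_blk, hd]
    · intro s
      rw [hE_blk, hd, hd]

end

/-- The generic matrix. -/
noncomputable def gen (K : Type) [Field K] (N : Type) : Matrix N N (MvPolynomial (N × N) K) :=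
  Matrix.of fun a b => MvPolynomial.X (a, b)

/-- The equations. -/
noncomputable def F0 (K : Type) [Field K] (I S J Λ : Type) [Fintype I] [Fintype S] [Fintype J]
    [Fintype Λ] [DecidableEq I] [DecidableEq S] [DecidableEq J] [DecidableEq Λ] (s₀ : S) :
    Set (MvPolynomial ((I ⊕ ((Fin 2 × S) ⊕ (J ⊕ Λ))) × (I ⊕ ((Fin 2 × S) ⊕ (J ⊕ Λ)))) K) :=
  Set.range (fun x : (I ⊕ ((Fin 2 × S) ⊕ (J ⊕ Λ))) × (I ⊕ ((Fin 2 × S) ⊕ (J ⊕ Λ))) =>
    MvPolynomial.X x - blk (hE (gen K _) s₀).det (hE (gen K _)) (qE (gen K _)) (uE (gen K _))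
      (zE (gen K _)) (lE (gen K _)) x.1 x.2) ∪
  Set.range (fun s : S => (hE (I := I) (J := J) (Λ := Λ) (gen K _) s).det -
    (hE (gen K _) s₀).det)

theorem points_F0 {R : Type} [CommRing R] [Algebra K R] (s₀ : S)
    (g : GL (I ⊕ ((Fin 2 × S) ⊕ (J ⊕ Λ))) R) :
    g ∈ points (F0 K I S J Λ s₀) R ↔ Shape s₀ g.val := by
  -- evaluation
  let φ : MvPolynomial (Ix I S J Λ × Ix I S J Λ) K →ₐ[K] R :=
    MvPolynomial.aeval fun x => g.val x.1 x.2
  have hφ : ∀ f, ev f g.val = φ f := fun f => rfl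
  have hX : ∀ x : Ix I S J Λ × Ix I S J Λ, φ (MvPolynomial.X x) = g.val x.1 x.2 := fun x =>
    MvPolynomial.aeval_X _ _
  have hgen : ∀ a b, φ (gen K (Ix I S J Λ) a b) = g.val a b := fun a b => MvPolynomial.aeval_X _ _
  have hh : ∀ s, (hE (gen K (Ix I S J Λ)) s).map φ = hE g.val s := by
    intro s
    ext a b
    exact hgen _ _
  have hq : (qE (gen K (Ix I S J Λ))).map φ = qE g.val := by
    ext a b
    exact hgen _ _
  have hu : (uE (gen K (Ix I S J Λ))).map φ = uE g.val := by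
    ext a b
    exact hgen _ _
  have hz : (zE (gen K (Ix I S J Λ))).map φ = zE g.val := by
    ext a b
    exact hgen _ _
  have hl : (lE (gen K (Ix I S J Λ))).map φ = lE g.val := by
    ext a b
    exact hgen _ _
  have hd : ∀ s, φ (hE (gen K (Ix I S J Λ)) s).det = (hE g.val s).det := by
    intro s
    rw [← hh]
    exact AlgHom.map_det φ (hE (gen K (Ix I S J Λ)) s)
  have hb : ∀ a b, φ (blk (hE (gen K (Ix I S J Λ)) s₀).det (hE (gen K (Ix I S J Λ)))
      (qE (gen K (Ix I S J Λ))) (uE (gen K (Ix I S J Λ)))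
      (zE (gen K (Ix I S J Λ))) (lE (gen K (Ix I S J Λ))) a b) =
      blk (hE g.val s₀).det (hE g.val) (qE g.val) (uE g.val) (zE g.val) (lE g.val) a b := by
    intro a b
    have h1 := blk_map φ (map_zero φ) (map_one φ) (hE (gen K (Ix I S J Λ)) s₀).det
      (hE (gen K (Ix I S J Λ))) (qE (gen K (Ix I S J Λ))) (uE (gen K (Ix I S J Λ)))
      (zE (gen K (Ix I S J Λ))) (lE (gen K (Ix I S J Λ)))
    rw [hd, hq, hu, hz, hl] at h1
    simp only [hh] at h1
    exact congrFun (congrFun h1 a) b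
  constructor
  · intro hg
    refine ⟨?_, ?_⟩
    · ext a b
      have h1 : ev _ g.val = 0 := hg _ (Or.inl ⟨(a, b), rfl⟩)
      rw [hφ, map_sub, hb, sub_eq_zero] at h1
      rw [← h1]
      exact (hX (a, b)).symm
    · intro s
      have h1 : ev _ g.val = 0 := hg _ (Or.inr ⟨s, rfl⟩)
      rw [hφ, map_sub, hd, hd, sub_eq_zero] at h1
      exact h1
  · rintro ⟨h1, h2⟩ f hf
    rcases hf with ⟨⟨a, b⟩, rfl⟩ | ⟨s, rfl⟩
    · rw [hφ, map_sub, hb, ← h1, sub_eq_zero]
      exact hX (a, b)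
    · rw [hφ, map_sub, hd, hd, h2, sub_self]

theorem blk_mul {R : Type} [CommRing R] (d : R) (h : S → M2 R) (q : Matrix I (Fin 2 × S) R)
    (u : Matrix (Fin 2 × S) J R) (z : Matrix I J R) (l : Matrix I Λ R)
    (d' : R) (h' : S → M2 R) (q' : Matrix I (Fin 2 × S) R)
    (u' : Matrix (Fin 2 × S) J R) (z' : Matrix I J R) (l' : Matrix I Λ R) :
    blk d h q u z l * blk d' h' q' u' z' l' =
      blk (d * d') (fun s => h s * h' s) (d • q' + q * blockDiagonal h')
        (blockDiagonal h * u' + u) (d • z' + (q * u' + z)) (d • l' + l) := by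
  unfold blk
  rw [mat_mul, mul_one]
  congr 1
  · rw [mul_fromCols, Matrix.mul_zero, one_smul]
    ext a b
    rcases b with b | b <;> simp
  · rw [mul_fromCols, Matrix.mul_zero, one_smul]
    ext a b
    rcases b with b | b <;> simp

theorem blk_inv {R : Type} [CommRing R] {d d' : R} {h h' : S → M2 R} (hd : d * d' = 1)
    (hh : ∀ s, h s * h' s = 1) (q : Matrix I (Fin 2 × S) R)
    (u : Matrix (Fin 2 × S) J R) (z : Matrix I J R) (l : Matrix I Λ R) :
    blk d h q u z l * blk d' h' (-(d' • (q * blockDiagonal h'))) (-(blockDiagonal h' * u))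
      (-(d' • (z - q * (blockDiagonal h' * u)))) (-(d' • l)) = 1 := by
  have hbd : blockDiagonal h * blockDiagonal h' = 1 := by
    rw [← blockDiagonal_mul]
    simp only [hh]
    exact blockDiagonal_one
  rw [blk_mul, hd]
  simp only [hh, smul_neg, smul_smul, hd, one_smul, Matrix.mul_neg, neg_add_cancel]
  rw [← Matrix.mul_assoc (blockDiagonal h), hbd, Matrix.one_mul, neg_add_cancel]
  have h5 : -(z - q * (blockDiagonal h' * u)) + (-(q * (blockDiagonal h' * u)) + z) = 0 := by abel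
  rw [h5]
  unfold blk
  have h6 : fromCols (0 : Matrix (Fin 2 × S) J R) (0 : Matrix (Fin 2 × S) Λ R) = 0 := by
    ext a b
    rcases b with b | b <;> simp
  have h7 : fromCols (0 : Matrix I J R) (0 : Matrix I Λ R) = 0 := by
    ext a b
    rcases b with b | b <;> simp
  rw [h6, h7]
  exact mat_one

theorem det_blk {R : Type} [CommRing R] {d : R} {h : S → M2 R} (hh : ∀ s, (h s).det = d)
    (q : Matrix I (Fin 2 × S) R)
    (u : Matrix (Fin 2 × S) J R) (z : Matrix I J R) (l : Matrix I Λ R) :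
    (blk d h q u z l).det = d ^ (Fintype.card I + Fintype.card S) := by
  unfold blk mat
  rw [det_fromBlocks_zero₂₁, det_fromBlocks_zero₂₁, det_smul, det_one, mul_one, one_smul, det_one,
    mul_one, det_blockDiagonal]
  simp only [hh, Finset.prod_const, Finset.card_univ]
  rw [pow_add]

theorem isSubgroupScheme_F0 (s₀ : S) : IsSubgroupScheme (F0 K I S J Λ s₀) where
  one_mem R _ _ := by
    rw [points_F0, shape_iff]
    refine ⟨1, fun _ => 1, 0, 0, 0, 0, fun _ => det_one, ?_⟩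
    rw [Units.val_one]
    unfold blk
    have h6 : fromCols (0 : Matrix (Fin 2 × S) J R) (0 : Matrix (Fin 2 × S) Λ R) = 0 := by
      ext a b
      rcases b with b | b <;> simp
    have h7 : fromCols (0 : Matrix I J R) (0 : Matrix I Λ R) = 0 := by
      ext a b
      rcases b with b | b <;> simp
    rw [h6, h7]
    exact mat_one.symm
  mul_mem R _ _ g g' hg hg' := by
    rw [points_F0, shape_iff] at hg hg' ⊢
    obtain ⟨d, h, q, u, z, l, hd, hM⟩ := hg
    obtain ⟨d', h', q', u', z', l', hd', hM'⟩ := hg'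
    refine ⟨d * d', fun s => h s * h' s, d • q' + q * blockDiagonal h', blockDiagonal h * u' + u,
      d • z' + (q * u' + z), d • l' + l, ?_, ?_⟩
    · intro s
      rw [det_mul, hd, hd']
    · rw [Units.val_mul, hM, hM', blk_mul]
  inv_mem R _ _ g hg := by
    rw [points_F0, shape_iff] at hg ⊢
    obtain ⟨d, h, q, u, z, l, hd, hM⟩ := hg
    have h1 : IsUnit (blk d h q u z l).det := by
      rw [← hM]
      exact (Matrix.isUnit_iff_isUnit_det _).1 g.isUnit
    rw [det_blk hd] at h1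
    have h2 : IsUnit d := by
      have h3 : Fintype.card I + Fintype.card S ≠ 0 := by
        have : 0 < Fintype.card S := Fintype.card_pos_iff.2 ⟨s₀⟩
        omega
      exact (isUnit_pow_iff h3).1 h1
    obtain ⟨dd, hdd⟩ := h2
    have hdd' : d * ((dd⁻¹ : Rˣ) : R) = 1 := by
      rw [← hdd, ← Units.val_mul, mul_inv_cancel, Units.val_one]
    have hh : ∀ s, h s * (h s)⁻¹ = 1 := fun s =>
      Matrix.mul_nonsing_inv _ (by rw [hd, ← hdd]; exact dd.isUnit)
    have h3 := blk_inv hdd' hh q u z l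
    refine ⟨((dd⁻¹ : Rˣ) : R), fun s => (h s)⁻¹, -(((dd⁻¹ : Rˣ) : R) • (q * blockDiagonal
      fun s => (h s)⁻¹)), -((blockDiagonal fun s => (h s)⁻¹) * u),
      -(((dd⁻¹ : Rˣ) : R) • (z - q * ((blockDiagonal fun s => (h s)⁻¹) * u))),
      -(((dd⁻¹ : Rˣ) : R) • l), ?_, ?_⟩
    rotate_left
    · rw [← hM] at h3
      have h4 : (g⁻¹).val * (g.val * _) = (g⁻¹).val * 1 := congrArg (fun X => (g⁻¹).val * X) h3
      rw [← mul_assoc, ← Units.val_mul, inv_mul_cancel, Units.val_one, one_mul, mul_one] at h4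
      exact h4.symm
    · intro s
      have h5 : (h s).det * ((h s)⁻¹).det = 1 := by
        rw [← det_mul, hh, det_one]
      rw [hd] at h5
      calc ((h s)⁻¹).det = ((dd⁻¹ : Rˣ) : R) * (d * ((h s)⁻¹).det) := by
            rw [← mul_assoc, mul_comm _ d, hdd', one_mul]
        _ = _ := by rw [h5, mul_one]

theorem points_motGroup (s₀ : S) : points (F0 K I S J Λ s₀) ℂ = motGroup I S J Λ := by
  ext g
  rw [points_F0, shape_iff]
  constructor
  · rintro ⟨d, h, q, u, z, l, hd, hM⟩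
    refine ⟨d, h, q, u, z, l, ?_, hd, hM⟩
    rintro rfl
    have h1 : IsUnit (blk 0 h q u z l).det := by
      rw [← hM]
      exact (Matrix.isUnit_iff_isUnit_det _).1 g.isUnit
    have h3 : Fintype.card I + Fintype.card S ≠ 0 := by
      have : 0 < Fintype.card S := Fintype.card_pos_iff.2 ⟨s₀⟩
      omega
    rw [det_blk hd, zero_pow h3] at h1
    exact not_isUnit_zero h1
  · rintro ⟨d, h, q, u, z, l, -, hd, hM⟩
    exact ⟨d, h, q, u, z, l, hd, hM⟩

end Pool.Agent.W519.M
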